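import Mathlib

/-!
# A1: finitely many witnesses

* `A1_supp`: induction on `Poly` (`Poly.induction`, or `IsPoly` of `p.2`): `proj (inl a)`: `s = ∅`; `proj (inr b)`: `s = {b}`; `const`: `∅`; `sub`, `mul`: unions.
* `A1_fin`: `h` gives `β, p`.  Let `s` be the finite set of `A1_supp` for `p`, `m = s.card + 1`, `g b = (s.equivFin ⟨b, _⟩).castSucc` for `b ∈ s` and
  `g b = Fin.last` otherwise, `q = p.map (Sum.elim inl (inr ∘ g))` (`Poly.map_apply : map f g v = g (v ∘ f)`).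
  If `t : β → ℕ` is a witness for `v`, then `t' j = t (s.equivFin.symm j)` (for `j` in the range of `castSucc`, and `0` at `Fin.last`) satisfies `q (v ⊗ t') = p (v ⊗ t' ∘ g) = p (v ⊗ t) = 0`
  because `t' (g b) = t b` for `b ∈ s`.  Conversely a witness `t'` of `q` gives the witness `t' ∘ g` of `p`.
* `A1_mv`: induction on `Poly`: `X i`, `C n`, `q1 - q2`, `q1 * q2`.
-/

open Sum

namespace H79.MZ

theorem A1_supp {α β : Type} (p : Poly (α ⊕ β)) : ∃ s : Finset β, ∀ v w : α ⊕ β → ℕ,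
    (∀ a, v (inl a) = w (inl a)) → (∀ b ∈ s, v (inr b) = w (inr b)) → p v = p w := by
  classical
  refine Poly.induction (C := fun p : Poly (α ⊕ β) => ∃ s : Finset β, ∀ v w : α ⊕ β → ℕ,
    (∀ a, v (inl a) = w (inl a)) → (∀ b ∈ s, v (inr b) = w (inr b)) → p v = p w) ?_ ?_ ?_ ?_ p
  · rintro (a | b)
    · refine ⟨∅, fun v w h _ => ?_⟩
      rw [Poly.proj_apply, Poly.proj_apply, h a]
    · refine ⟨{b}, fun v w _ h => ?_⟩
      rw [Poly.proj_apply, Poly.proj_apply, h b (Finset.mem_singleton_self b)]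
  · intro n
    exact ⟨∅, fun v w _ _ => rfl⟩
  · rintro f g ⟨s, hs⟩ ⟨t, ht⟩
    refine ⟨s ∪ t, fun v w h1 h2 => ?_⟩
    rw [Poly.sub_apply, Poly.sub_apply, hs v w h1 fun b hb => h2 b (Finset.mem_union_left _ hb),
      ht v w h1 fun b hb => h2 b (Finset.mem_union_right _ hb)]
  · rintro f g ⟨s, hs⟩ ⟨t, ht⟩
    refine ⟨s ∪ t, fun v w h1 h2 => ?_⟩
    rw [Poly.mul_apply, Poly.mul_apply, hs v w h1 fun b hb => h2 b (Finset.mem_union_left _ hb),
      ht v w h1 fun b hb => h2 b (Finset.mem_union_right _ hb)]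

theorem A1_fin {α : Type} {S : Set (α → ℕ)} (h : Dioph S) :
    ∃ (m : ℕ) (p : Poly (α ⊕ Fin m)), ∀ v : α → ℕ, v ∈ S ↔ ∃ t : Fin m → ℕ, p (Sum.elim v t) = 0 := by
  classical
  obtain ⟨β, p, hp⟩ := h
  obtain ⟨s, hs⟩ := A1_supp p
  let g : β → Fin (s.card + 1) := fun b =>
    if h : b ∈ s then (s.equivFin ⟨b, h⟩).castSucc else Fin.last _
  have hg : ∀ b (h : b ∈ s), g b = (s.equivFin ⟨b, h⟩).castSucc := fun b h => dif_pos h
  refine ⟨s.card + 1, p.map (Sum.elim inl (inr ∘ g)), fun v => (hp v).trans ⟨?_, ?_⟩⟩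
  · rintro ⟨t, ht⟩
    refine ⟨Fin.snoc (fun i => t (s.equivFin.symm i)) 0, ?_⟩
    rw [Poly.map_apply, ← ht]
    refine hs _ _ (fun a => rfl) fun b hb => ?_
    change (Fin.snoc (fun i => t (s.equivFin.symm i)) 0 : Fin (s.card + 1) → ℕ) (g b) = t b
    rw [hg b hb, Fin.snoc_castSucc, Equiv.symm_apply_apply]
  · rintro ⟨t, ht⟩
    refine ⟨t ∘ g, ?_⟩
    rw [Poly.map_apply] at ht
    rw [← ht]
    congr 1
    funext x
    rcases x with a | b <;> rfl

theorem A1_mv {α : Type} (p : Poly α) : ∃ q : MvPolynomial α ℤ, ∀ v : α → ℕ,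
    p v = MvPolynomial.eval (fun i => (v i : ℤ)) q := by
  refine Poly.induction (C := fun p : Poly α => ∃ q : MvPolynomial α ℤ, ∀ v : α → ℕ,
    p v = MvPolynomial.eval (fun i => (v i : ℤ)) q) ?_ ?_ ?_ ?_ p
  · intro i
    exact ⟨MvPolynomial.X i, fun v => by rw [Poly.proj_apply, MvPolynomial.eval_X]⟩
  · intro n
    exact ⟨MvPolynomial.C n, fun v => by rw [Poly.const_apply, MvPolynomial.eval_C]⟩
  · rintro f g ⟨a, ha⟩ ⟨b, hb⟩
    exact ⟨a - b, fun v => by rw [Poly.sub_apply, ha, hb, map_sub]⟩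
  · rintro f g ⟨a, ha⟩ ⟨b, hb⟩
    exact ⟨a * b, fun v => by rw [Poly.mul_apply, ha, hb, map_mul]⟩

end H79.MZ
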