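import Mathlib

/-!
# A2: binomial coefficients are Diophantine

`A2_num`: let `u = 2 ^ n + 1`, so `C(n, i) ≤ 2 ^ n < u` for all `i` and `(u + 1) ^ n = ∑_{i ≤ n} C(n, i) u ^ i` (`add_pow`).
* If `k ≤ n`: `(u + 1) ^ n = A u ^ (k + 1) + C(n, k) u ^ k + R`, `R = ∑_{i < k} C(n, i) u ^ i < u ^ k`
  (for `k ≥ 1`: `R ≤ u ^ (k - 1) ∑_{i < k} C(n, i) ≤ u ^ (k - 1) 2 ^ n < u ^ k`; `R = 0 < 1` for `k = 0`).
  So `(u + 1) ^ n / u ^ k = A u + C(n, k)` and its remainder modulo `u` is `C(n, k)`.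
* If `k > n`: `(u + 1) ^ n = R < u ^ k`, where `R = ∑_{i < k} C(n, i) u ^ i` as before, so the quotient is `0 = C(n, k)`.
It may be convenient to sum over `i ∈ range (n + k + 1)` (the terms with `i > n` vanish) and to split the sum at `k`; then both cases are the same.
`A2_choose`: rewrite with `A2_num` and use `Dioph.pow_dioph, Dioph.add_dioph, Dioph.div_dioph, Dioph.mod_dioph, Dioph.const_dioph`.
-/

namespace H79.MZ

theorem A2_low (n k : ℕ) : ∑ i ∈ Finset.range k, n.choose i * (2 ^ n + 1) ^ i < (2 ^ n + 1) ^ k := by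
  cases k with
  | zero => simp
  | succ k =>
    have h1 : ∑ i ∈ Finset.range (k + 1), n.choose i ≤ 2 ^ n := by
      rw [← Nat.sum_range_choose]
      refine Finset.sum_le_sum_of_ne_zero fun i _ hi => ?_
      rw [Finset.mem_range]
      by_contra hlt
      exact hi (Nat.choose_eq_zero_of_lt (by omega))
    calc ∑ i ∈ Finset.range (k + 1), n.choose i * (2 ^ n + 1) ^ i
        ≤ ∑ i ∈ Finset.range (k + 1), n.choose i * (2 ^ n + 1) ^ k := by
          refine Finset.sum_le_sum fun i hi => ?_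
          rw [Finset.mem_range] at hi
          exact Nat.mul_le_mul_left _ (Nat.pow_le_pow_right (by omega) (by omega))
      _ = (∑ i ∈ Finset.range (k + 1), n.choose i) * (2 ^ n + 1) ^ k := by rw [Finset.sum_mul]
      _ ≤ 2 ^ n * (2 ^ n + 1) ^ k := Nat.mul_le_mul_right _ h1
      _ < (2 ^ n + 1) ^ (k + 1) := by
          rw [pow_succ, mul_comm]
          exact Nat.mul_lt_mul_of_pos_left (by omega) (by positivity)

theorem A2_exp (n k : ℕ) : (2 ^ n + 2) ^ n = (∑ i ∈ Finset.range k, n.choose i * (2 ^ n + 1) ^ i) +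
    (2 ^ n + 1) ^ k * (n.choose k + (2 ^ n + 1) * ∑ j ∈ Finset.range n, n.choose (k + (j + 1)) * (2 ^ n + 1) ^ j) := by
  obtain ⟨u, hu⟩ : ∃ u, u = 2 ^ n + 1 := ⟨_, rfl⟩
  have h0 : 2 ^ n + 2 = u + 1 := by omega
  rw [h0, ← hu, add_pow]
  simp only [Nat.cast_id]
  have h1 : ∑ m ∈ Finset.range (n + 1), u ^ m * 1 ^ (n - m) * n.choose m =
      ∑ m ∈ Finset.range (k + (n + 1)), n.choose m * u ^ m := by
    have h2 : ∑ m ∈ Finset.range (n + 1), u ^ m * 1 ^ (n - m) * n.choose m =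
      ∑ m ∈ Finset.range (n + 1), n.choose m * u ^ m := by
      refine Finset.sum_congr rfl fun m _ => ?_
      rw [one_pow, mul_one, mul_comm]
    rw [h2]
    refine Finset.sum_subset (Finset.range_subset_range.2 (by omega)) fun m _ hm => ?_
    rw [Finset.mem_range] at hm
    rw [Nat.choose_eq_zero_of_lt (by omega), zero_mul]
  rw [h1, Finset.sum_range_add, Finset.sum_range_succ']
  congr 1
  rw [mul_add, add_comm, Nat.add_zero, mul_comm (n.choose k)]
  congr 1
  rw [Finset.mul_sum, Finset.mul_sum]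
  refine Finset.sum_congr rfl fun j _ => ?_
  ring

theorem A2_num (n k : ℕ) : ((2 ^ n + 2) ^ n / (2 ^ n + 1) ^ k) % (2 ^ n + 1) = n.choose k := by
  rw [A2_exp n k, Nat.add_mul_div_left _ _ (by positivity), Nat.div_eq_of_lt (A2_low n k), zero_add,
    Nat.add_mul_mod_self_left]
  refine Nat.mod_eq_of_lt ?_
  have := Nat.choose_le_two_pow n k
  omega

theorem A2_choose {α : Type} {f g : (α → ℕ) → ℕ} (df : Dioph.DiophFn f) (dg : Dioph.DiophFn g) :
    Dioph.DiophFn fun v => (f v).choose (g v) := by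
  have h : (fun v => (f v).choose (g v)) =
      fun v => ((2 ^ (f v) + 2) ^ (f v) / (2 ^ (f v) + 1) ^ (g v)) % (2 ^ (f v) + 1) := by
    funext v
    exact (A2_num (f v) (g v)).symm
  rw [h]
  exact Dioph.mod_dioph (Dioph.div_dioph (Dioph.pow_dioph (Dioph.add_dioph (Dioph.pow_dioph (Dioph.const_dioph 2) df)
    (Dioph.const_dioph 2)) df) (Dioph.pow_dioph (Dioph.add_dioph (Dioph.pow_dioph (Dioph.const_dioph 2) df)
    (Dioph.const_dioph 1)) dg)) (Dioph.add_dioph (Dioph.pow_dioph (Dioph.const_dioph 2) df)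
    (Dioph.const_dioph 1))

end H79.MZ
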