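import Pool.Agent.H79.MZ.A2

/-!
# A3: factorials are Diophantine

`A3_num`: let `r = (n ^ n + 1) * n ^ 2 + n + 1`.  `descFactorial r n = n! * C(r, n)` (`Nat.descFactorial_eq_factorial_mul_choose`).  We need
`n! * C(r, n) ≤ r ^ n < (n! + 1) * C(r, n)` (`Nat.div_eq_of_lt_le` or `Nat.div_eq_iff`).
* left: `descFactorial r n ≤ r ^ n` (`Nat.descFactorial_le_pow`).
* right: multiply by `n!`: it suffices that `n! * r ^ n < (n! + 1) * descFactorial r n`.  `descFactorial r n ≥ (r + 1 - n) ^ n ≥ (r - n) ^ n`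
  (`Nat.pow_sub_le_descFactorial`), and by Bernoulli (over `ℝ` or `ℚ`, `one_add_mul_le_pow` with `a = - n / r`): `(r - n) ^ n ≥ r ^ n - n ^ 2 r ^ (n - 1)`, i.e.
  `r * (r - n) ^ n ≥ (r - n ^ 2) * r ^ n`.  So it suffices that `n! * r < (n! + 1) * (r - n ^ 2)`, i.e. `(n! + 1) n ^ 2 < r`, true as `n! ≤ n ^ n` (`Nat.factorial_le_pow`).
`A3_fact, A3_desc`: closure properties, `A2_choose`.
-/

namespace H79.MZ

theorem A3_num (n : ℕ) :
    ((n ^ n + 1) * n ^ 2 + n + 1) ^ n / ((n ^ n + 1) * n ^ 2 + n + 1).choose n = n.factorial := by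
  obtain ⟨r, hr⟩ : ∃ r, r = (n ^ n + 1) * n ^ 2 + n + 1 := ⟨_, rfl⟩
  rw [← hr]
  have hnr : n ≤ r := by
    rw [hr]
    omega
  have hr0 : 0 < r := by
    rw [hr]
    omega
  have hf : n.factorial ≤ n ^ n := Nat.factorial_le_pow n
  have hbig : (n.factorial + 1) * n ^ 2 < r := by
    have h1 : (n.factorial + 1) * n ^ 2 ≤ (n ^ n + 1) * n ^ 2 :=
      Nat.mul_le_mul_right _ (Nat.succ_le_succ hf)
    rw [hr]
    omega
  have hlow : n.factorial * r.choose n ≤ r ^ n := by
    rw [← Nat.descFactorial_eq_factorial_mul_choose]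
    exact Nat.descFactorial_le_pow r n
  have hpos : 0 < n.factorial := Nat.factorial_pos n
  have key : n.factorial * r ^ n < (n.factorial + 1) * r.descFactorial n := by
    have h1 : (r - n) ^ n ≤ r.descFactorial n :=
      (Nat.pow_le_pow_left (by omega) n).trans (Nat.pow_sub_le_descFactorial r n)
    refine lt_of_lt_of_le ?_ (Nat.mul_le_mul_left _ h1)
    have hR : (0 : ℝ) < (r : ℝ) := by exact_mod_cast hr0
    have hx1 : (n : ℝ) / r ≤ 1 := by
      rw [div_le_one hR]
      exact_mod_cast hnr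
    have hb := one_add_mul_le_pow (a := -((n : ℝ) / r)) (by linarith) n
    have h2 : ((r : ℝ) - n) = r * (1 + -((n : ℝ) / r)) := by
      field_simp
      ring
    have hbig' : ((n.factorial : ℝ) + 1) * (n : ℝ) ^ 2 < r := by exact_mod_cast hbig
    have h4 : (n.factorial : ℝ) < ((n.factorial : ℝ) + 1) * (1 + n * (-((n : ℝ) / r))) := by
      have h5 : ((n.factorial : ℝ) + 1) * (1 + n * (-((n : ℝ) / r))) =
          (n.factorial : ℝ) + (1 - ((n.factorial : ℝ) + 1) * (n : ℝ) ^ 2 / r) := by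
        field_simp
        ring
      have h6 : ((n.factorial : ℝ) + 1) * (n : ℝ) ^ 2 / r < 1 := by
        rw [div_lt_one hR]
        exact hbig'
      rw [h5]
      linarith
    have h7 : (n.factorial : ℝ) < ((n.factorial : ℝ) + 1) * (1 + -((n : ℝ) / r)) ^ n :=
      h4.trans_le (mul_le_mul_of_nonneg_left hb (by positivity))
    have h8 : (n.factorial : ℝ) * (r : ℝ) ^ n < ((n.factorial : ℝ) + 1) * ((r : ℝ) - n) ^ n := by
      rw [h2, mul_pow]
      have h9 := mul_lt_mul_of_pos_right h7 (pow_pos hR n)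
      linarith
    have h10 : ((n.factorial * r ^ n : ℕ) : ℝ) < (((n.factorial + 1) * (r - n) ^ n : ℕ) : ℝ) := by
      push_cast [Nat.cast_sub hnr]
      exact h8
    exact_mod_cast h10
  have hhi : r ^ n < (n.factorial + 1) * r.choose n := by
    rw [Nat.descFactorial_eq_factorial_mul_choose] at key
    have h11 : n.factorial * r ^ n < n.factorial * ((n.factorial + 1) * r.choose n) := by
      calc n.factorial * r ^ n < (n.factorial + 1) * (n.factorial * r.choose n) := key
        _ = n.factorial * ((n.factorial + 1) * r.choose n) := by ring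
    exact lt_of_mul_lt_mul_left h11 (Nat.zero_le _)
  exact Nat.div_eq_of_lt_le hlow hhi

theorem A3_fact {α : Type} {f : (α → ℕ) → ℕ} (df : Dioph.DiophFn f) : Dioph.DiophFn fun v => (f v).factorial := by
  have h1 : Dioph.DiophFn fun v => ((f v) ^ (f v) + 1) * (f v) ^ 2 + f v + 1 :=
    Dioph.add_dioph (Dioph.add_dioph (Dioph.mul_dioph
      (Dioph.add_dioph (Dioph.pow_dioph df df) (Dioph.const_dioph 1))
      (Dioph.pow_dioph df (Dioph.const_dioph 2))) df) (Dioph.const_dioph 1)
  have h2 := Dioph.div_dioph (Dioph.pow_dioph h1 df) (A2_choose h1 df)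
  have h3 : (fun v => (f v).factorial) = fun v =>
      (((f v) ^ (f v) + 1) * (f v) ^ 2 + f v + 1) ^ (f v) /
        (((f v) ^ (f v) + 1) * (f v) ^ 2 + f v + 1).choose (f v) := by
    funext v
    exact (A3_num (f v)).symm
  rw [h3]
  exact h2

theorem A3_desc {α : Type} {f g : (α → ℕ) → ℕ} (df : Dioph.DiophFn f) (dg : Dioph.DiophFn g) :
    Dioph.DiophFn fun v => (f v).descFactorial (g v) := by
  have h3 : (fun v => (f v).descFactorial (g v)) = fun v => (g v).factorial * (f v).choose (g v) := by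
    funext v
    exact Nat.descFactorial_eq_factorial_mul_choose _ _
  rw [h3]
  exact Dioph.mul_dioph (A3_fact dg) (A2_choose df dg)

end H79.MZ
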