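import Pool.Agent.H79.MZ.A3

/-!
# A4: the product `∏_{k < y} (1 + (k + 1) t)` is Diophantine

`A4_num` (`t ≥ 1`): let `M = t (1 + y t) ^ y + 1`, `q = (t - 1) (1 + y t) ^ y + 1`.  Then `t q = (t - 1) M + 1`, so `t q ≡ 1 [MOD M]`.
`y! * C(q + y, y) = (q + 1) (q + 2) ... (q + y)` (`Nat.ascFactorial_eq_factorial_mul_choose` : `(n+1).ascFactorial k = k! * (n + k).choose k`, `Nat.ascFactorial_eq_prod_range`),
so `t ^ y * y! * C(q + y, y) = ∏_{k < y} (t q + t (k + 1)) ≡ ∏_{k < y} (1 + (k + 1) t) [MOD M]`, and the product is at most `(1 + y t) ^ y < M`.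
-/

namespace H79.MZ

/-- the Diophantine expression of the product -/
def PP (y t : ℕ) : ℕ :=
  (t ^ y * y.factorial * (((t - 1) * (1 + y * t) ^ y + 1) + y).choose y) % (t * (1 + y * t) ^ y + 1)

theorem A4_modEq (M : ℕ) (a b : ℕ → ℕ) (h : ∀ k, a k ≡ b k [MOD M]) (n : ℕ) :
    ∏ k ∈ Finset.range n, a k ≡ ∏ k ∈ Finset.range n, b k [MOD M] := by
  induction n with
  | zero => rfl
  | succ n ih =>
    rw [Finset.prod_range_succ, Finset.prod_range_succ]
    exact ih.mul (h n)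

theorem A4_num (y t : ℕ) (ht : 1 ≤ t) : PP y t = ∏ k ∈ Finset.range y, (1 + (k + 1) * t) := by
  unfold PP
  obtain ⟨N, hN⟩ : ∃ N, N = (1 + y * t) ^ y := ⟨_, rfl⟩
  rw [← hN]
  obtain ⟨s, rfl⟩ : ∃ s, t = s + 1 := ⟨t - 1, by omega⟩
  rw [Nat.add_sub_cancel]
  obtain ⟨q, hq⟩ : ∃ q, q = s * N + 1 := ⟨_, rfl⟩
  rw [← hq]
  obtain ⟨M, hM⟩ : ∃ M, M = (s + 1) * N + 1 := ⟨_, rfl⟩
  rw [← hM]
  have h1 : (s + 1) * q = s * M + 1 := by
    rw [hq, hM]
    ring
  have h2 : y.factorial * (q + y).choose y = ∏ k ∈ Finset.range y, (q + 1 + k) := by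
    rw [← Nat.ascFactorial_eq_factorial_mul_choose, Nat.ascFactorial_eq_prod_range]
  have h3 : (s + 1) ^ y * y.factorial * (q + y).choose y
      = ∏ k ∈ Finset.range y, ((s + 1) * (q + 1 + k)) := by
    rw [Finset.prod_mul_distrib, Finset.prod_const, Finset.card_range, mul_assoc, h2]
  have h4 : ∀ k, (s + 1) * (q + 1 + k) ≡ 1 + (k + 1) * (s + 1) [MOD M] := by
    intro k
    have h5 : (s + 1) * (q + 1 + k) = s * M + (1 + (k + 1) * (s + 1)) := by
      have : (s + 1) * (q + 1 + k) = (s + 1) * q + (s + 1) * (1 + k) := by ring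
      rw [this, h1]
      ring
    rw [h5, Nat.ModEq]
    rw [Nat.add_comm, Nat.add_mul_mod_self_right]
  have h6 := A4_modEq M _ _ h4 y
  rw [h3]
  rw [Nat.ModEq] at h6
  rw [h6]
  apply Nat.mod_eq_of_lt
  have h7 : ∏ k ∈ Finset.range y, (1 + (k + 1) * (s + 1)) ≤ N := by
    rw [hN]
    calc ∏ k ∈ Finset.range y, (1 + (k + 1) * (s + 1))
        ≤ ∏ _k ∈ Finset.range y, (1 + y * (s + 1)) := by
          apply Finset.prod_le_prod'
          intro k hk
          rw [Finset.mem_range] at hk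
          have : (k + 1) * (s + 1) ≤ y * (s + 1) := Nat.mul_le_mul_right _ hk
          omega
      _ = (1 + y * (s + 1)) ^ y := by rw [Finset.prod_const, Finset.card_range]
  rw [hM]
  nlinarith

theorem A4_PP {α : Type} {f g : (α → ℕ) → ℕ} (df : Dioph.DiophFn f) (dg : Dioph.DiophFn g) :
    Dioph.DiophFn fun v => PP (f v) (g v) := by
  have d1 : Dioph.DiophFn (fun _ : α → ℕ => 1) := Dioph.const_dioph 1
  have hpow : Dioph.DiophFn fun v => (1 + f v * g v) ^ f v :=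
    Dioph.pow_dioph (Dioph.add_dioph d1 (Dioph.mul_dioph df dg)) df
  have hq : Dioph.DiophFn fun v => (g v - 1) * (1 + f v * g v) ^ f v + 1 :=
    Dioph.add_dioph (Dioph.mul_dioph (Dioph.sub_dioph dg d1) hpow) d1
  exact Dioph.mod_dioph
    (Dioph.mul_dioph (Dioph.mul_dioph (Dioph.pow_dioph dg df) (A3_fact df))
      (A2_choose (Dioph.add_dioph hq df) df))
    (Dioph.add_dioph (Dioph.mul_dioph dg hpow) d1)

end H79.MZ
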