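import Mathlib

/-!
# A5a: finite conjunctions and compositions of Diophantine sets

* `A5a_forall`: for a `Finset s` of indices prove `Dioph {v | ∀ a ∈ s, v ∈ S a}` by `Finset.induction_on` (`Dioph.inter`, `Dioph.ext`; the empty case is
  `Dioph.of_no_dummies _ (Poly.const 0)`), then take `s = univ`.
* `A5a_comp`: the set is `{v | ∃ t : β → ℕ, Sum.elim v t ∈ T}` (`Dioph.ex_dioph`) where `T = {w : α ⊕ β → ℕ | w ∘ inr ∈ S ∧ ∀ b, F b (w ∘ inl) = w (inr b)}`; the first condition is
  `Dioph.reindex_dioph`, the second `A5a_forall` and, for each `b`, the reindexing along `Option α → α ⊕ β`, `some a ↦ inl a`, `none ↦ inr b` of the graph `hF b`.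
* `A5a_fn`: `DiophFn` is by definition `Dioph` of the graph `{v : Option γ → ℕ | G (fun b => F b (v ∘ some)) = v none}`; apply `A5a_comp` to the graph of `G` (index set `Option β`)
  and the functions `v ↦ F b (v ∘ some)` (`Dioph.reindex_diophFn`) for `some b` and `v ↦ v none` for `none` (`Dioph.proj_dioph`).
-/

open Sum

namespace H79.MZ

private theorem A5a_finset {α κ : Type} {S : κ → Set (α → ℕ)} (h : ∀ a, Dioph (S a))
    (s : Finset κ) : Dioph {v | ∀ a ∈ s, v ∈ S a} := by
  classical
  induction s using Finset.induction_on with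
  | empty =>
    exact Dioph.of_no_dummies _ (Poly.const 0) (fun v => by simp)
  | insert a s ha ih =>
    refine Dioph.ext ((h a).inter ih) fun v => ?_
    simp

theorem A5a_forall {α κ : Type} [Fintype κ] {S : κ → Set (α → ℕ)} (h : ∀ a, Dioph (S a)) :
    Dioph {v | ∀ a, v ∈ S a} :=
  Dioph.ext (A5a_finset h Finset.univ) fun v => by simp

theorem A5a_comp {α β : Type} [Fintype β] {S : Set (β → ℕ)} (h : Dioph S) {F : β → (α → ℕ) → ℕ}
    (hF : ∀ b, Dioph.DiophFn (F b)) : Dioph {v | (fun b => F b v) ∈ S} := by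
  have h1 : Dioph {w : α ⊕ β → ℕ | w ∘ inr ∈ S} := Dioph.reindex_dioph (α ⊕ β) inr h
  have h2 : ∀ b : β, Dioph {w : α ⊕ β → ℕ | F b (w ∘ inl) = w (inr b)} := fun b =>
    Dioph.ext (Dioph.reindex_dioph (α ⊕ β) (fun o : Option α => o.elim (inr b) inl) (hF b))
      fun _ => Iff.rfl
  have h3 := Dioph.ex_dioph (h1.inter (A5a_forall h2))
  refine Dioph.ext h3 fun v => ?_
  constructor
  · rintro ⟨t, ht1, ht2⟩
    have e : (fun b => F b v) = t := funext fun b => ht2 b
    show (fun b => F b v) ∈ S
    rw [e]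
    exact ht1
  · intro hv
    exact ⟨fun b => F b v, hv, fun b => rfl⟩

theorem A5a_fn {α β : Type} [Fintype β] {G : (β → ℕ) → ℕ} (h : Dioph.DiophFn G) {F : β → (α → ℕ) → ℕ}
    (hF : ∀ b, Dioph.DiophFn (F b)) : Dioph.DiophFn fun v => G (fun b => F b v) := by
  let F' : Option β → (Option α → ℕ) → ℕ := fun o =>
    o.elim (fun v => v none) (fun b v => F b (v ∘ some))
  have hF' : ∀ o, Dioph.DiophFn (F' o) := by
    intro o
    cases o with
    | none => exact Dioph.proj_dioph none
    | some b => exact Dioph.reindex_diophFn some (hF b)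
  exact Dioph.ext (A5a_comp (S := {w : Option β → ℕ | G (w ∘ some) = w none}) h hF')
    fun _ => Iff.rfl

end H79.MZ
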