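import Mathlib

/-!
# A5b: divisibility, bounds and congruences for `Poly`

* `A5b_dvd`: `(M v : ℤ) ∣ p v ↔ M v ∣ (p v).natAbs` (`Int.natCast_dvd`), `Dioph.dvd_dioph` and `Dioph.abs_poly_dioph`.
* `A5b_bound`: induction on `Poly` (statement quantified over `B`): `proj i`: `B w = w i`; `const n`: `B w = n.natAbs`; `sub`: `B1 w + B2 w` (`Int.natAbs_sub_le`); `mul`: `B1 w * B2 w`
  (`Int.natAbs_mul`); `Dioph.proj_dioph, const_dioph, add_dioph, mul_dioph`.
* `A5b_congr`: induction on `Poly`, `Int.ModEq.sub`, `Int.ModEq.mul`.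
-/

namespace H79.MZ

theorem A5b_dvd {α : Type} (p : Poly α) {M : (α → ℕ) → ℕ} (hM : Dioph.DiophFn M) :
    Dioph {v | (M v : ℤ) ∣ p v} := by
  refine Dioph.ext (Dioph.dvd_dioph hM (Dioph.abs_poly_dioph p)) fun v => ?_
  exact (Int.natCast_dvd).symm

theorem A5b_bound {α : Type} (p : Poly α) : ∃ B : (α → ℕ) → ℕ, Dioph.DiophFn B ∧
    ∀ v w : α → ℕ, (∀ i, v i ≤ w i) → (p v).natAbs ≤ B w := by
  induction p using Poly.induction with
  | H1 i => exact ⟨fun w => w i, Dioph.proj_dioph i, fun v w h => by simpa using h i⟩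
  | H2 n => exact ⟨fun _ => n.natAbs, Dioph.const_dioph _, fun v w h => by simp⟩
  | H3 f g hf hg =>
    obtain ⟨B1, h1, h1'⟩ := hf
    obtain ⟨B2, h2, h2'⟩ := hg
    refine ⟨fun w => B1 w + B2 w, Dioph.add_dioph h1 h2, fun v w h => ?_⟩
    have h3 := Int.natAbs_sub_le (f v) (g v)
    have h4 := h1' v w h
    have h5 := h2' v w h
    rw [Poly.sub_apply]
    change _ ≤ B1 w + B2 w
    omega
  | H4 f g hf hg =>
    obtain ⟨B1, h1, h1'⟩ := hf
    obtain ⟨B2, h2, h2'⟩ := hg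
    refine ⟨fun w => B1 w * B2 w, Dioph.mul_dioph h1 h2, fun v w h => ?_⟩
    rw [Poly.mul_apply, Int.natAbs_mul]
    exact Nat.mul_le_mul (h1' v w h) (h2' v w h)

theorem A5b_congr {α : Type} (p : Poly α) (M : ℤ) (v w : α → ℕ) (h : ∀ i, (v i : ℤ) ≡ w i [ZMOD M]) :
    p v ≡ p w [ZMOD M] := by
  induction p using Poly.induction with
  | H1 i => simpa using h i
  | H2 n => simp only [Poly.const_apply]; exact Int.ModEq.refl _
  | H3 f g hf hg =>
    rw [Poly.sub_apply, Poly.sub_apply]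
    exact hf.sub hg
  | H4 f g hf hg =>
    rw [Poly.mul_apply, Poly.mul_apply]
    exact hf.mul hg

end H79.MZ
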