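import Mathlib

/-!
# A6a: the number theory of bounded quantifiers, basic facts and direction `←`

`t = Q!`, `m_k = 1 + (k + 1) t` for `k < y ≤ Q`.
* `A6a_prime`: a prime `p ∣ 1 + (k + 1) Q!` is `> Q`: otherwise `p ∣ Q!` (`Nat.dvd_factorial`) and `p ∣ 1`.
* `A6a_coprime`: if a prime `p` divides `m_k` and `m_l`, `k < l < y`, then `p` divides `m_l - m_k = (l - k) t`, and `p ∤ t`, so `p ∣ l - k`, `p ≤ l - k < y ≤ Q`, against `A6a_prime`
  (`Nat.Coprime` via `Nat.coprime_of_dvd` or `Nat.Coprime` iff no common prime).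
* `A6a_back`: let `k < y`, `p` a prime divisor of `m_k` (`Nat.exists_prime_and_dvd`, `m_k ≠ 1`).  `p` divides the product, so `p ∣ (c + 1) t + 1`; with `p ∣ (k + 1) t + 1` and `p ∤ t` we get
  `c ≡ k` mod `p` (as integers: `p ∣ (c - k) t`).  `p ∣ descFactorial (a j) (u + 1) = ∏_{i < u + 1} (a j - i)` (`Nat.descFactorial_eq_prod_range`), so `p ∣ a j - i` (natural subtraction) for some `i ≤ u`
  (`Prime.exists_mem_finset_dvd`).  Put `b j = i` if `i ≤ a j` and `b j = a j` (`< i ≤ u`) otherwise; so `b j ≤ u` and `a j ≡ b j` mod `p`.  Then `P k b ≡ P c a ≡ 0` mod `p`, and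
  `|P k b| ≤ Q < p` (`A6a_prime`), so `P k b = 0` (`Int.eq_zero_of_abs_lt_dvd` or natAbs version).
-/

namespace H79.MZ

theorem A6a_prime (Q k p : ℕ) (hp : p.Prime) (h : p ∣ 1 + (k + 1) * Q.factorial) : Q < p := by
  by_contra hlt
  have h1 : p ∣ Q.factorial := (hp.dvd_factorial).2 (by omega)
  have h2 : p ∣ (k + 1) * Q.factorial := Dvd.dvd.mul_left h1 _
  have h3 : p ∣ 1 := (Nat.dvd_add_left h2).1 h
  exact hp.one_lt.ne' (Nat.dvd_one.1 h3)

theorem A6a_notdvd (Q k p : ℕ) (hp : p.Prime) (h : p ∣ 1 + (k + 1) * Q.factorial) :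
    ¬ p ∣ Q.factorial := by
  intro h1
  have := A6a_prime Q k p hp h
  exact absurd ((hp.dvd_factorial).1 h1) (by omega)

theorem A6a_coprime (Q y k l : ℕ) (hyQ : y ≤ Q) (hk : k < y) (hl : l < y) (hkl : k ≠ l) :
    Nat.Coprime (1 + (k + 1) * Q.factorial) (1 + (l + 1) * Q.factorial) := by
  apply Nat.coprime_of_dvd
  intro p hp h1 h2
  have hQ := A6a_prime Q k p hp h1
  have hnd := A6a_notdvd Q k p hp h1
  have hz1 : (p : ℤ) ∣ 1 + ((k : ℤ) + 1) * Q.factorial := by exact_mod_cast h1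
  have hz2 : (p : ℤ) ∣ 1 + ((l : ℤ) + 1) * Q.factorial := by exact_mod_cast h2
  have hz : (p : ℤ) ∣ ((k : ℤ) - l) * Q.factorial := by
    have := dvd_sub hz1 hz2
    have he : (1 + ((k : ℤ) + 1) * Q.factorial) - (1 + ((l : ℤ) + 1) * Q.factorial) =
      ((k : ℤ) - l) * Q.factorial := by ring
    rwa [he] at this
  have hpz : Prime (p : ℤ) := Nat.prime_iff_prime_int.1 hp
  rcases hpz.dvd_or_dvd hz with h | h
  · have h0 : (k : ℤ) - l ≠ 0 := sub_ne_zero.2 (by exact_mod_cast hkl)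
    have := Int.le_of_dvd (abs_pos.2 h0) ((dvd_abs _ _).2 h)
    have hlt : |(k : ℤ) - l| < y := by
      rw [abs_lt]; constructor <;> omega
    omega
  · exact hnd (by exact_mod_cast h)

theorem A6a_back (m : ℕ) (P : ℕ → (Fin m → ℕ) → ℤ)
    (hP : ∀ (M : ℤ) (c k : ℕ) (a b : Fin m → ℕ), (c : ℤ) ≡ k [ZMOD M] → (∀ j, (a j : ℤ) ≡ b j [ZMOD M]) →
      P c a ≡ P k b [ZMOD M])
    (y u Q : ℕ) (hQ : ∀ k < y, ∀ b : Fin m → ℕ, (∀ j, b j ≤ u) → (P k b).natAbs ≤ Q)
    (c : ℕ) (a : Fin m → ℕ) (h1 : (c + 1) * Q.factorial + 1 = ∏ k ∈ Finset.range y, (1 + (k + 1) * Q.factorial))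
    (h2 : ∀ j, ((c + 1) * Q.factorial + 1) ∣ (a j).descFactorial (u + 1))
    (h3 : (((c + 1) * Q.factorial + 1 : ℕ) : ℤ) ∣ P c a) (k : ℕ) (hk : k < y) :
    ∃ b : Fin m → ℕ, (∀ j, b j ≤ u) ∧ P k b = 0 := by
  have hne : 1 + (k + 1) * Q.factorial ≠ 1 := by
    have := Q.factorial_pos
    have : 0 < (k + 1) * Q.factorial := by positivity
    omega
  obtain ⟨p, hp, hpd⟩ := Nat.exists_prime_and_dvd hne
  have hQp := A6a_prime Q k p hp hpd
  have hnd := A6a_notdvd Q k p hp hpd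
  have hprod : p ∣ (c + 1) * Q.factorial + 1 := by
    rw [h1]
    exact hpd.trans (Finset.dvd_prod_of_mem _ (Finset.mem_range.2 hk))
  have hpz : Prime (p : ℤ) := Nat.prime_iff_prime_int.1 hp
  have hck : (c : ℤ) ≡ k [ZMOD p] := by
    have hz1 : (p : ℤ) ∣ 1 + ((k : ℤ) + 1) * Q.factorial := by exact_mod_cast hpd
    have hz2 : (p : ℤ) ∣ ((c : ℤ) + 1) * Q.factorial + 1 := by exact_mod_cast hprod
    have hz : (p : ℤ) ∣ ((k : ℤ) - c) * Q.factorial := by
      have := dvd_sub hz1 hz2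
      have he : (1 + ((k : ℤ) + 1) * Q.factorial) - (((c : ℤ) + 1) * Q.factorial + 1) =
        ((k : ℤ) - c) * Q.factorial := by ring
      rwa [he] at this
    rcases hpz.dvd_or_dvd hz with h | h
    · exact (Int.modEq_iff_dvd).2 h
    · exact absurd (by exact_mod_cast h) hnd
  have hb : ∀ j, ∃ b : ℕ, b ≤ u ∧ (a j : ℤ) ≡ b [ZMOD p] := by
    intro j
    have hd : p ∣ (a j).descFactorial (u + 1) := hprod.trans (h2 j)
    rw [Nat.descFactorial_eq_prod_range] at hd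
    obtain ⟨i, hi, hid⟩ := (hp.prime.dvd_finsetProd_iff _).1 hd
    rw [Finset.mem_range] at hi
    by_cases hia : i ≤ a j
    · refine ⟨i, by omega, ?_⟩
      apply Int.ModEq.symm
      rw [Int.modEq_iff_dvd]
      have : ((a j - i : ℕ) : ℤ) = (a j : ℤ) - i := by push_cast [Nat.cast_sub hia]; rfl
      rw [← this]
      exact_mod_cast hid
    · exact ⟨a j, by omega, rfl⟩
  choose b hbu hbm using hb
  refine ⟨b, hbu, ?_⟩
  have hcong : P c a ≡ P k b [ZMOD p] := hP p c k a b hck hbm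
  have hz3 : (p : ℤ) ∣ P c a := by
    refine dvd_trans ?_ h3
    exact_mod_cast hprod
  have hz4 : (p : ℤ) ∣ P k b := by
    have := (Int.modEq_iff_dvd).1 hcong
    have := dvd_add this hz3
    simpa using this
  by_contra h0
  have := Int.natAbs_dvd_natAbs.2 hz4
  have h5 : (P k b).natAbs ≠ 0 := by simpa [Int.natAbs_eq_zero] using h0
  have h6 := Nat.le_of_dvd (Nat.pos_of_ne_zero h5) this
  simp at h6
  have := hQ k hk b hbu
  omega

end H79.MZ
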