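import Pool.Agent.H79.MZ.A6a

/-!
# A6b: the number theory of bounded quantifiers, direction `→`

`t = Q!`, `m_k = 1 + (k + 1) t`, `k < y ≤ Q`, `y > 0`.
* `A6b_prod`: `∏_{k < y} (1 + (k + 1) t) = (c + 1) t + 1` for some `c`: induction on `y` (for `y + 1`: `((c + 1) t + 1) (1 + (y + 1) t)`; start at `y = 1`), `t ≥ 1` is not needed.
* `A6b_main`: choose `b k : Fin m → ℕ` for each `k < y` (`choose`, or with `0` outside).  By `A6a_coprime` and the Chinese remainder theorem (`Nat.chineseRemainderOfFinset` for the moduli `m_k`,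
  `k ∈ range y`, for each `j`) there is `a j` with `a j ≡ b k j [MOD m_k]` for all `k < y`.  `c` from `A6b_prod`.
  - `m_k ∣ descFactorial (a j) (u + 1)`: if `a j < u + 1` it is `0` (`Nat.descFactorial_eq_zero_iff_lt`), otherwise `b k j ≤ u < a j`, the factor `a j - b k j` of
    `∏_{i < u + 1} (a j - i)` is divisible by `m_k` (`(Nat.modEq_iff_dvd' _).1`).
  - `c ≡ k` mod `m_k`: `m_k` divides the product `(c + 1) t + 1` and `(k + 1) t + 1`, so `m_k ∣ (c - k) t` (in `ℤ`), and `m_k` is coprime to `t`.  So `P c a ≡ P k (b k) = 0` mod `m_k`.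
  - The `m_k` are pairwise coprime, so their product divides `descFactorial (a j) (u + 1)` and `P c a` (`Finset.prod_dvd_of_coprime` in `ℕ`, resp. in `ℤ` (or for the natural number `(P c a).natAbs`)).
-/

namespace H79.MZ

theorem A6b_prod (t y : ℕ) (hy : 0 < y) : ∃ c, (c + 1) * t + 1 = ∏ k ∈ Finset.range y, (1 + (k + 1) * t) := by
  induction y with
  | zero => exact absurd hy (lt_irrefl 0)
  | succ n ih =>
    rcases Nat.eq_zero_or_pos n with h0 | h0
    · subst h0
      refine ⟨0, ?_⟩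
      simp
      ring
    · obtain ⟨c, hc⟩ := ih h0
      refine ⟨(c + 1) * (1 + (n + 1) * t) + n, ?_⟩
      rw [Finset.prod_range_succ, ← hc]
      ring

theorem A6b_tcop (Q k : ℕ) : Nat.Coprime (1 + (k + 1) * Q.factorial) Q.factorial := by
  have h : Nat.Coprime 1 Q.factorial := Nat.coprime_one_left _
  have h2 := (Nat.coprime_add_mul_right_left 1 Q.factorial (k + 1)).2 h
  exact h2

theorem A6b_desc (a b u M : ℕ) (hb : b ≤ u) (hab : a ≡ b [MOD M]) : M ∣ a.descFactorial (u + 1) := by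
  by_cases hlt : a < u + 1
  · rw [Nat.descFactorial_eq_zero_iff_lt.2 hlt]
    exact dvd_zero _
  · have hle : b ≤ a := by omega
    have h1 : M ∣ a - b := (Nat.modEq_iff_dvd' hle).1 hab.symm
    rw [Nat.descFactorial_eq_prod_range]
    exact h1.trans (Finset.dvd_prod_of_mem (fun i => a - i) (Finset.mem_range.2 (by omega)))

theorem A6b_main (m : ℕ) (P : ℕ → (Fin m → ℕ) → ℤ)
    (hP : ∀ (M : ℤ) (c k : ℕ) (a b : Fin m → ℕ), (c : ℤ) ≡ k [ZMOD M] → (∀ j, (a j : ℤ) ≡ b j [ZMOD M]) →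
      P c a ≡ P k b [ZMOD M])
    (y u Q : ℕ) (hy : 0 < y) (hyQ : y ≤ Q)
    (h : ∀ k < y, ∃ b : Fin m → ℕ, (∀ j, b j ≤ u) ∧ P k b = 0) :
    ∃ (c : ℕ) (a : Fin m → ℕ),
      (c + 1) * Q.factorial + 1 = ∏ k ∈ Finset.range y, (1 + (k + 1) * Q.factorial) ∧
      (∀ j, ((c + 1) * Q.factorial + 1) ∣ (a j).descFactorial (u + 1)) ∧
      (((c + 1) * Q.factorial + 1 : ℕ) : ℤ) ∣ P c a := by
  classical
  have h' : ∀ k, ∃ b : Fin m → ℕ, k < y → ((∀ j, b j ≤ u) ∧ P k b = 0) := by
    intro k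
    by_cases hk : k < y
    · obtain ⟨b, hb⟩ := h k hk
      exact ⟨b, fun _ => hb⟩
    · exact ⟨fun _ => 0, fun hk' => absurd hk' hk⟩
  choose b hb using h'
  obtain ⟨c, hc⟩ := A6b_prod Q.factorial y hy
  have hpw : Set.Pairwise (↑(Finset.range y) : Set ℕ)
      (Function.onFun Nat.Coprime (fun k => 1 + (k + 1) * Q.factorial)) := by
    intro k hk l hl hkl
    exact A6a_coprime Q y k l hyQ (Finset.mem_range.1 hk) (Finset.mem_range.1 hl) hkl
  have hne : ∀ k ∈ Finset.range y, (fun k => 1 + (k + 1) * Q.factorial) k ≠ 0 := by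
    intro k _
    simp
  have hcrt : ∀ j : Fin m, ∃ a : ℕ, ∀ k ∈ Finset.range y, a ≡ b k j [MOD (1 + (k + 1) * Q.factorial)] := by
    intro j
    have z := Nat.chineseRemainderOfFinset (fun k => b k j) (fun k => 1 + (k + 1) * Q.factorial)
      (Finset.range y) hne hpw
    exact ⟨z.1, z.2⟩
  choose a ha using hcrt
  refine ⟨c, a, hc, ?_, ?_⟩
  · intro j
    rw [hc]
    apply Finset.prod_dvd_of_isRelPrime
    · intro k hk l hl hkl
      exact Nat.coprime_iff_isRelPrime.1 (hpw hk hl hkl)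
    · intro k hk
      exact A6b_desc _ _ u _ ((hb k (Finset.mem_range.1 hk)).1 j) (ha j k hk)
  · rw [hc]
    rw [Nat.cast_prod]
    apply Finset.prod_dvd_of_coprime
    · intro k hk l hl hkl
      have h1 : Nat.Coprime (1 + (k + 1) * Q.factorial) (1 + (l + 1) * Q.factorial) := hpw hk hl hkl
      exact Nat.isCoprime_iff_coprime.2 h1
    · intro k hk
      have hky : k < y := Finset.mem_range.1 hk
      have hdc : (1 + (k + 1) * Q.factorial) ∣ (c + 1) * Q.factorial + 1 := by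
        rw [hc]
        exact Finset.dvd_prod_of_mem (fun k => 1 + (k + 1) * Q.factorial) hk
      have hdz : (((1 + (k + 1) * Q.factorial : ℕ)) : ℤ) ∣ ((c : ℤ) - k) * (Q.factorial : ℤ) := by
        have e1 : (((1 + (k + 1) * Q.factorial : ℕ)) : ℤ) ∣ (((c + 1) * Q.factorial + 1 : ℕ) : ℤ) :=
          Int.natCast_dvd_natCast.2 hdc
        have e2 := dvd_sub e1 (dvd_refl (((1 + (k + 1) * Q.factorial : ℕ)) : ℤ))
        have e3 : (((c + 1) * Q.factorial + 1 : ℕ) : ℤ) - (((1 + (k + 1) * Q.factorial : ℕ)) : ℤ)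
            = ((c : ℤ) - k) * (Q.factorial : ℤ) := by
          push_cast
          ring
        rwa [e3] at e2
      have hcop : IsCoprime (((1 + (k + 1) * Q.factorial : ℕ)) : ℤ) (Q.factorial : ℤ) :=
        Nat.isCoprime_iff_coprime.2 (A6b_tcop Q k)
      have hck : (((1 + (k + 1) * Q.factorial : ℕ)) : ℤ) ∣ (c : ℤ) - k := hcop.dvd_of_dvd_mul_right hdz
      have hm : (c : ℤ) ≡ k [ZMOD (((1 + (k + 1) * Q.factorial : ℕ)) : ℤ)] :=
        ((Int.modEq_iff_dvd).2 (by
          have : ((k : ℤ) - c) = -((c : ℤ) - k) := by ring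
          rw [this]
          exact (dvd_neg).2 hck))
      have hab : ∀ j, (a j : ℤ) ≡ b k j [ZMOD (((1 + (k + 1) * Q.factorial : ℕ)) : ℤ)] := by
        intro j
        exact (Int.natCast_modEq_iff).2 (ha j k hk)
      have hPP := hP _ c k a (b k) hm hab
      rw [(hb k hky).2] at hPP
      exact (Int.modEq_zero_iff_dvd).1 hPP

end H79.MZ
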