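import Pool.Agent.H79.MZ.A1
import Pool.Agent.H79.MZ.A4
import Pool.Agent.H79.MZ.A5a
import Pool.Agent.H79.MZ.A5b
import Pool.Agent.H79.MZ.A6b

/-!
# A7: bounded universal quantifiers preserve Diophantine sets

`A1_fin` gives `m, p : Poly (Option α ⊕ Fin m)`; `P v k b := p (Sum.elim (Option.elim' k v) b)`.  `A5b_bound` gives `B` for `p`.
`Q v y u := B (Sum.elim (Option.elim' y v) (fun _ => u)) + y + u + 1` (`≥ y`, and `|P v k b| ≤ Q` for `k < y`, `b ≤ u` by monotonicity).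
`A7_set`: for fixed `v`, `y = f v > 0`: `∀ k < y, ∃ b, P v k b = 0` iff for some `u` the witnesses can be chosen `≤ u` (`u` = maximum over the finitely many `k < y`, `j`: e.g.
`Finset.sup` or a sum) iff (`A6a_back`, `A6b_main`, `A5b_congr`) there are `u, c, a` with the three conditions, where the product is `PP y (Q!)` (`A4_num`, `Q! ≥ 1`).
`A7_bq`: `∀ i < f v, ...` iff `f v = 0` or (`A7_set`, with `y = f v`) ... So the set is `{v | f v = 0} ∪ {v | ∃ x : Fin 2 ⊕ Fin m → ℕ, Sum.elim v x ∈ T}`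
(`u = x (inl 0)`, `c = x (inl 1)`, `a = x ∘ inr`; `Dioph.union, Dioph.eq_dioph, Dioph.ex_dioph`), `T` is the intersection of three sets of `w : α ⊕ (Fin 2 ⊕ Fin m) → ℕ`:
* `{w | (c + 1) * Q! + 1 = PP (f ..) (Q!)}`: `Dioph.eq_dioph`, `A3_fact`, `A4_PP`, `Dioph.add_dioph, mul_dioph, const_dioph, proj_dioph`; `w ↦ f (w ∘ inl)` is `Dioph.reindex_diophFn`;
  `Q w = B (fun i => F i w) + f (w ∘ inl) + w (inr (inl 0)) + 1` with `F (inl none) w = f (w ∘ inl)`, `F (inl (some a)) w = w (inl a)`, `F (inr j) w = w (inr (inl 0))`: `A5a_fn`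
  (index type `Option α ⊕ Fin m`, this is why `α` is finite);
* `{w | ∀ j, (c + 1) * Q! + 1 ∣ descFactorial (a j) (u + 1)}`: `A5a_forall`, `Dioph.dvd_dioph`, `A3_desc`;
* `{w | (((c + 1) * Q! + 1 : ℕ) : ℤ) ∣ p (Sum.elim (Option.elim' c v) a)}`: `A5b_dvd` for the polynomial `p.map g`, `g : Option α ⊕ Fin m → α ⊕ (Fin 2 ⊕ Fin m)`,
  `inl none ↦ inr (inl 1)`, `inl (some a) ↦ inl a`, `inr j ↦ inr (inr j)` (`Poly.map_apply`).
-/

open Sum

namespace H79.MZ

theorem A7_congr {α : Type} (m : ℕ) (p : Poly (Option α ⊕ Fin m)) (v : α → ℕ) (M : ℤ) (c k : ℕ)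
    (a b : Fin m → ℕ) (hc : (c : ℤ) ≡ k [ZMOD M]) (hab : ∀ j, (a j : ℤ) ≡ b j [ZMOD M]) :
    p (Sum.elim (Option.elim' c v) a) ≡ p (Sum.elim (Option.elim' k v) b) [ZMOD M] := by
  refine A5b_congr p M _ _ fun i => ?_
  rcases i with (_ | i) | j
  · exact hc
  · exact Int.ModEq.refl _
  · exact hab j

theorem A7_set {α : Type} (m : ℕ) (p : Poly (Option α ⊕ Fin m)) (B : (Option α ⊕ Fin m → ℕ) → ℕ)
    (hB : ∀ v w : Option α ⊕ Fin m → ℕ, (∀ i, v i ≤ w i) → (p v).natAbs ≤ B w) (v : α → ℕ) (y : ℕ) (hy : 0 < y) :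
    (∀ k < y, ∃ b : Fin m → ℕ, p (Sum.elim (Option.elim' k v) b) = 0) ↔
      ∃ (u c : ℕ) (a : Fin m → ℕ),
        (c + 1) * (B (Sum.elim (Option.elim' y v) (fun _ => u)) + y + u + 1).factorial + 1 =
          PP y (B (Sum.elim (Option.elim' y v) (fun _ => u)) + y + u + 1).factorial ∧
        (∀ j, ((c + 1) * (B (Sum.elim (Option.elim' y v) (fun _ => u)) + y + u + 1).factorial + 1) ∣
          (a j).descFactorial (u + 1)) ∧
        (((c + 1) * (B (Sum.elim (Option.elim' y v) (fun _ => u)) + y + u + 1).factorial + 1 : ℕ) : ℤ) ∣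
          p (Sum.elim (Option.elim' c v) a) := by
  classical
  constructor
  · intro h
    choose! b hb using h
    set u : ℕ := ∑ k ∈ Finset.range y, ∑ j, b k j with hu
    have hbu : ∀ k < y, ∀ j, b k j ≤ u := by
      intro k hk j
      have h1 : b k j ≤ ∑ j, b k j :=
        Finset.single_le_sum (f := fun j => b k j) (fun _ _ => Nat.zero_le _) (Finset.mem_univ j)
      have h2 : ∑ j, b k j ≤ u :=
        Finset.single_le_sum (f := fun k => ∑ j, b k j) (fun _ _ => Nat.zero_le _) (Finset.mem_range.2 hk)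
      exact h1.trans h2
    set Q : ℕ := B (Sum.elim (Option.elim' y v) (fun _ => u)) + y + u + 1 with hQ
    obtain ⟨c, a, h1, h2, h3⟩ := A6b_main m (fun k b => p (Sum.elim (Option.elim' k v) b))
      (fun M c k a b hc hab => A7_congr m p v M c k a b hc hab) y u Q hy (by omega)
      (fun k hk => ⟨b k, hbu k hk, hb k hk⟩)
    refine ⟨u, c, a, ?_, h2, h3⟩
    rw [A4_num y Q.factorial (Nat.factorial_pos Q)]
    exact h1
  · rintro ⟨u, c, a, h1, h2, h3⟩ k hk
    set Q : ℕ := B (Sum.elim (Option.elim' y v) (fun _ => u)) + y + u + 1 with hQ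
    rw [A4_num y Q.factorial (Nat.factorial_pos Q)] at h1
    obtain ⟨b, -, hb⟩ := A6a_back m (fun k b => p (Sum.elim (Option.elim' k v) b))
      (fun M c k a b hc hab => A7_congr m p v M c k a b hc hab) y u Q
      (by
        intro k hk b hb
        have h4 := hB (Sum.elim (Option.elim' k v) b) (Sum.elim (Option.elim' y v) (fun _ => u)) (by
          intro i
          rcases i with (_ | i) | j
          · exact hk.le
          · exact le_refl _
          · exact hb j)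
        exact h4.trans (by omega)) c a h1 h2 h3 k hk
    exact ⟨b, hb⟩

/-- the Diophantine condition -/
def A7_C {α : Type} (m : ℕ) (p : Poly (Option α ⊕ Fin m)) (B : (Option α ⊕ Fin m → ℕ) → ℕ) (v : α → ℕ)
    (y u c : ℕ) (a : Fin m → ℕ) : Prop :=
  (c + 1) * (B (Sum.elim (Option.elim' y v) (fun _ => u)) + y + u + 1).factorial + 1 =
    PP y (B (Sum.elim (Option.elim' y v) (fun _ => u)) + y + u + 1).factorial ∧
  (∀ j, ((c + 1) * (B (Sum.elim (Option.elim' y v) (fun _ => u)) + y + u + 1).factorial + 1) ∣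
    (a j).descFactorial (u + 1)) ∧
  (((c + 1) * (B (Sum.elim (Option.elim' y v) (fun _ => u)) + y + u + 1).factorial + 1 : ℕ) : ℤ) ∣
    p (Sum.elim (Option.elim' c v) a)

/-- the change of variables -/
def A7_g {α : Type} (m : ℕ) : Option α ⊕ Fin m → α ⊕ (Fin 2 ⊕ Fin m)
  | inl none => inr (inl 1)
  | inl (some a) => inl a
  | inr j => inr (inr j)

theorem A7_T {α : Type} [Fintype α] (m : ℕ) (p : Poly (Option α ⊕ Fin m))
    (B : (Option α ⊕ Fin m → ℕ) → ℕ) (hBd : Dioph.DiophFn B) {f : (α → ℕ) → ℕ} (hf : Dioph.DiophFn f) :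
    Dioph {w : α ⊕ (Fin 2 ⊕ Fin m) → ℕ |
      A7_C m p B (w ∘ inl) (f (w ∘ inl)) (w (inr (inl 0))) (w (inr (inl 1))) (fun j => w (inr (inr j)))} := by
  have hF : Dioph.DiophFn fun w : α ⊕ (Fin 2 ⊕ Fin m) → ℕ => f (w ∘ inl) := Dioph.reindex_diophFn inl hf
  have hu : Dioph.DiophFn fun w : α ⊕ (Fin 2 ⊕ Fin m) → ℕ => w (inr (inl 0)) := Dioph.proj_dioph _
  have hc : Dioph.DiophFn fun w : α ⊕ (Fin 2 ⊕ Fin m) → ℕ => w (inr (inl 1)) := Dioph.proj_dioph _
  have h1 : Dioph.DiophFn fun _ : α ⊕ (Fin 2 ⊕ Fin m) → ℕ => 1 := Dioph.const_dioph 1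
  have hB : Dioph.DiophFn fun w : α ⊕ (Fin 2 ⊕ Fin m) → ℕ =>
      B (Sum.elim (Option.elim' (f (w ∘ inl)) (w ∘ inl)) (fun _ => w (inr (inl 0)))) := by
    refine A5a_fn (G := B) hBd (F := fun i w =>
      (Sum.elim (Option.elim' (f (w ∘ inl)) (w ∘ inl)) (fun _ => w (inr (inl 0))) : Option α ⊕ Fin m → ℕ) i) ?_
    intro i
    rcases i with (_ | i) | j
    · exact hF
    · exact Dioph.proj_dioph (inl i)
    · exact hu
  have hQ : Dioph.DiophFn fun w : α ⊕ (Fin 2 ⊕ Fin m) → ℕ =>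
      B (Sum.elim (Option.elim' (f (w ∘ inl)) (w ∘ inl)) (fun _ => w (inr (inl 0)))) + f (w ∘ inl)
        + w (inr (inl 0)) + 1 :=
    Dioph.add_dioph (Dioph.add_dioph (Dioph.add_dioph hB hF) hu) h1
  have hQf := A3_fact hQ
  have hM : Dioph.DiophFn fun w : α ⊕ (Fin 2 ⊕ Fin m) → ℕ => (w (inr (inl 1)) + 1) *
      (B (Sum.elim (Option.elim' (f (w ∘ inl)) (w ∘ inl)) (fun _ => w (inr (inl 0)))) + f (w ∘ inl)
        + w (inr (inl 0)) + 1).factorial + 1 :=
    Dioph.add_dioph (Dioph.mul_dioph (Dioph.add_dioph hc h1) hQf) h1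
  have hT1 := Dioph.eq_dioph hM (A4_PP hF hQf)
  have hT2 := A5a_forall (κ := Fin m) (fun j : Fin m => Dioph.dvd_dioph hM
    (A3_desc (Dioph.proj_dioph (inr (inr j) : α ⊕ (Fin 2 ⊕ Fin m))) (Dioph.add_dioph hu h1)))
  have hT3 := A5b_dvd (p.map (A7_g m)) hM
  refine (Dioph.inter hT1 (Dioph.inter hT2 hT3)).ext fun w => ?_
  have hg : w ∘ A7_g m = Sum.elim (Option.elim' (w (inr (inl 1))) (w ∘ inl)) (fun j => w (inr (inr j))) := by
    funext i
    rcases i with (_ | i) | j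
    · rfl
    · rfl
    · rfl
  have hp : (p.map (A7_g m)) w = p (w ∘ A7_g m) := Poly.map_apply _ _ _
  rw [hg] at hp
  show _ ∧ _ ∧ _ ∣ (p.map (A7_g m)) w ↔ _
  rw [hp]
  exact Iff.rfl

theorem A7_bq {α : Type} [Fintype α] {S : Set (Option α → ℕ)} (hS : Dioph S) {f : (α → ℕ) → ℕ} (hf : Dioph.DiophFn f) :
    Dioph {v : α → ℕ | ∀ i < f v, (Option.elim' i v : Option α → ℕ) ∈ S} := by
  obtain ⟨m, p, hp⟩ := A1_fin hS
  obtain ⟨B, hBd, hB⟩ := A5b_bound p
  have hT := Dioph.ex_dioph (A7_T m p B hBd hf)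
  have h0 : Dioph {v : α → ℕ | f v = 0} := Dioph.eq_dioph hf (Dioph.const_dioph 0)
  refine (Dioph.union h0 hT).ext fun v => ?_
  constructor
  · rintro (h | ⟨x, hx⟩)
    · intro i hi
      have h' : f v = 0 := h
      omega
    · intro i hi
      have hy : 0 < f v := by omega
      have hx' : A7_C m p B v (f v) (x (inl 0)) (x (inl 1)) (fun j => x (inr j)) := hx
      have h1 := (A7_set m p B hB v (f v) hy).2 ⟨x (inl 0), x (inl 1), fun j => x (inr j), hx'⟩ i hi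
      exact (hp _).2 h1
  · intro h
    by_cases hy : f v = 0
    · exact Or.inl hy
    · right
      obtain ⟨u, c, a, h1⟩ := (A7_set m p B hB v (f v) (Nat.pos_of_ne_zero hy)).1
        (fun k hk => (hp _).1 (h k hk))
      refine ⟨Sum.elim ![u, c] a, ?_⟩
      show A7_C m p B v (f v) u c a
      exact h1

end H79.MZ
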