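import Mathlib

/-!
# C1a: reduced bases of a span, read off from finitely many points

`X` a set of vectors in `ℚ^N`, `Dat X J y c`: the vectors `b i = ∑ a, c i a • y a` (`y a ∈ X`) satisfy `b i (J l) = δ_{il}`.
* `C1a_indep`: if `∑ i, λ i • b i = 0`, evaluate at `J l`: `λ l = 0`.
* `C1a_span`: `b i ∈ span X`, `r` linearly independent vectors in a space of dimension `≤ r` span it: `finrank (span (range b)) = r` (`finrank_span_eq_card`), `span (range b) ≤ span X`
  (`Submodule.span_le`), `Submodule.eq_of_le_of_finrank_le`.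
* `C1a_unique`: `b' i ∈ span X = span (range b)`, so `b' i = ∑ λ l • b l` (`Submodule.mem_span_range_iff_exists_fun`); evaluate at `J l`: `λ l = δ_{il}`; so `b' i = b i`.
* `C1a_exists`: `Submodule.exists_fun_fin_finrank_span_eq` for `X` gives `y : Fin r → (N → ℚ)` in `X`, linearly independent.  The `r × N` matrix with rows `y a` has rank `r`, so its columns `e ↦ (a ↦ y a e)` span
  `ℚ^r` (row rank = column rank: `Matrix.rank_transpose`, `Matrix.rank_eq_finrank_span_cols`, `LinearIndependent.rank_matrix`; or: a functional vanishing on all columns is a linear relation of the rows);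
  again `exists_fun_fin_finrank_span_eq` for the set of columns gives `J : Fin r → N` such that the columns `J l` are linearly independent.  So the square matrix `V a l = y a (J l)` is invertible
  (`Matrix.linearIndependent_cols_iff_isUnit` or rows), `c = V⁻¹`.
-/

namespace H79.MZ

/-- `c` and the points `y a ∈ X` produce vectors which are dual to the coordinates `J` -/
def Dat {N : Type} {r : ℕ} (X : Set (N → ℚ)) (J : Fin r → N) (y : Fin r → N → ℚ) (c : Fin r → Fin r → ℚ) : Prop :=
  (∀ a, y a ∈ X) ∧ ∀ i l, ∑ a, c i a * y a (J l) = if i = l then 1 else 0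

theorem C1a_indep {N : Type} {r : ℕ} {X : Set (N → ℚ)} {J : Fin r → N} {y : Fin r → N → ℚ}
    {c : Fin r → Fin r → ℚ} (h : Dat X J y c) :
    LinearIndependent ℚ (fun i : Fin r => fun e : N => ∑ a, c i a * y a e) := by
  rw [Fintype.linearIndependent_iff]
  intro g hg l
  have h1 := congrFun hg (J l)
  rw [Finset.sum_apply] at h1
  simp only [Pi.smul_apply, smul_eq_mul, h.2, Pi.zero_apply] at h1
  simpa using h1

theorem C1a_span {N : Type} [Fintype N] {r : ℕ} {X : Set (N → ℚ)} {J : Fin r → N} {y : Fin r → N → ℚ}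
    {c : Fin r → Fin r → ℚ} (h : Dat X J y c) (hr : Module.finrank ℚ (Submodule.span ℚ X) ≤ r) :
    Submodule.span ℚ (Set.range fun i : Fin r => fun e : N => ∑ a, c i a * y a e) = Submodule.span ℚ X := by
  have hli := C1a_indep h
  have h1 := finrank_span_eq_card hli
  rw [Fintype.card_fin] at h1
  have hle : Submodule.span ℚ (Set.range fun i : Fin r => fun e : N => ∑ a, c i a * y a e) ≤
      Submodule.span ℚ X := by
    rw [Submodule.span_le]
    rintro _ ⟨i, rfl⟩
    have h2 : (fun e : N => ∑ a, c i a * y a e) = ∑ a, c i a • y a := by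
      funext e
      rw [Finset.sum_apply]
      rfl
    simp only [h2]
    exact Submodule.sum_mem _ fun a _ =>
      Submodule.smul_mem _ _ (Submodule.subset_span (h.1 a))
  exact Submodule.eq_of_le_of_finrank_le hle (by rw [h1]; exact hr)

theorem C1a_unique {N : Type} [Fintype N] {r : ℕ} {X : Set (N → ℚ)} {J : Fin r → N} {y y' : Fin r → N → ℚ}
    {c c' : Fin r → Fin r → ℚ} (h : Dat X J y c) (h' : Dat X J y' c')
    (hr : Module.finrank ℚ (Submodule.span ℚ X) ≤ r) (i : Fin r) (e : N) :
    ∑ a, c i a * y a e = ∑ a, c' i a * y' a e := by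
  have h1 : (fun e : N => ∑ a, c' i a * y' a e) ∈
      Submodule.span ℚ (Set.range fun i : Fin r => fun e : N => ∑ a, c i a * y a e) := by
    rw [C1a_span h hr, ← C1a_span h' hr]
    exact Submodule.subset_span ⟨i, rfl⟩
  obtain ⟨g, hg⟩ := (Submodule.mem_span_range_iff_exists_fun ℚ).1 h1
  have h2 : ∀ l, g l = if i = l then 1 else 0 := by
    intro l
    have h3 := congrFun hg (J l)
    rw [Finset.sum_apply] at h3
    simp only [Pi.smul_apply, smul_eq_mul, h.2, h'.2] at h3
    rw [← h3]
    simp
  have h4 := congrFun hg e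
  rw [Finset.sum_apply] at h4
  simp only [Pi.smul_apply, smul_eq_mul, h2] at h4
  rw [← h4]
  simp

private theorem C1a_fun {M : Type} [AddCommGroup M] [Module ℚ M] (s : Set M) {r : ℕ}
    (hs : Module.finrank ℚ (Submodule.span ℚ s) = r)
    (hf : Module.Finite ℚ (Submodule.span ℚ s)) :
    ∃ f : Fin r → M, (∀ i, f i ∈ s) ∧ LinearIndependent ℚ f := by
  subst hs
  obtain ⟨f, h1, -, h2⟩ := Submodule.exists_fun_fin_finrank_span_eq ℚ s
  exact ⟨f, h1, h2⟩

theorem C1a_exists {N : Type} [Fintype N] {r : ℕ} (X : Set (N → ℚ))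
    (hr : Module.finrank ℚ (Submodule.span ℚ X) = r) : ∃ (J : Fin r → N) (y : Fin r → N → ℚ) (c : Fin r → Fin r → ℚ),
    Dat X J y c := by
  obtain ⟨y, hy, hli⟩ := C1a_fun X hr inferInstance
  let Y : Matrix (Fin r) N ℚ := Matrix.of y
  have hrk : Y.rank = r := by
    have h1 : LinearIndependent ℚ Y.row := hli
    rw [h1.rank_matrix, Fintype.card_fin]
  rw [Matrix.rank_eq_finrank_span_cols] at hrk
  obtain ⟨f, hf, hfl⟩ := C1a_fun (Set.range Y.col) hrk inferInstance
  choose J hJ using hf
  let V : Matrix (Fin r) (Fin r) ℚ := Matrix.of fun a l => y a (J l)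
  have hcol : V.col = f := by
    funext l
    rw [← hJ l]
    rfl
  have hV : IsUnit V := by
    rw [← Matrix.linearIndependent_cols_iff_isUnit, hcol]
    exact hfl
  have hdet : IsUnit V.det := (Matrix.isUnit_iff_isUnit_det V).1 hV
  refine ⟨J, y, (V⁻¹ : Matrix (Fin r) (Fin r) ℚ), hy, fun i l => ?_⟩
  have h2 := congrFun (congrFun (Matrix.nonsing_inv_mul V hdet) i) l
  rw [Matrix.mul_apply, Matrix.one_apply] at h2
  exact h2

end H79.MZ
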