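import Pool.Agent.H79.MZ.C1a

/-!
# C1b: a scalar invariant with infinitely many values

`ρ k = finrank (span (X k)) ≤ card N`.  `{k | 1 ≤ ρ k}` contains `{k | (X k).Nonempty}` (a nonzero vector), so it is infinite.  Let `r` be the largest number with `A_r = {k | r ≤ ρ k}` infinite
(`Nat.findGreatest` or induction; `A_{card N + 1}` is empty), so `r ≥ 1` and `A_{r+1}` is finite; choose `B` with `|k| ≤ B` for `k ∈ A_{r+1}` (so `B² < k²` implies `ρ k ≤ r`).
`K = {k | B² < k², ρ k = r}` is infinite (`A_r` minus a finite set).  For `k ∈ K` `C1a_exists` gives `J k : Fin r → N` (and `y, c`); the type `Fin r → N` is finite, so some `J` works for infinitely many `k ∈ K`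
(`Set.Infinite.exists_...` pigeonhole, e.g. `Set.infinite_iUnion`/`Set.Finite.biUnion` contrapositive); let `K'` be the set of these `k`; for `k ∈ K'` put `b k i e = ∑ a, c i a * y a e` for a choice of
data (`classical`, `choose`), and `b k = 0` for other `k` without data; for `B² < k²` `C1a_unique` shows that every data of `X k` for `J` give `b k`.
If for all `i, e` the set `{b k i e | k ∈ K'}` were finite, then `k ↦ b k` (a function to `Fin r → N → ℚ`) would take finitely many values on `K'` (`Set.Finite.pi`), so it would be constant `= b` on an infinite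
subset, and there `span (X k) = span (range b)` (`C1a_span`) is constant, against `hfin` (`(X k).Nonempty`, as `ρ k = r ≥ 1`).  So for some `i0, e` the set is infinite; `s k = b k i0 e`.
-/

namespace H79.MZ

theorem C1b_main {N : Type} [Fintype N] (X : ℤ → Set (N → ℚ)) (hinf : {k : ℤ | (X k).Nonempty}.Infinite)
    (hone : ∀ k, ∀ x ∈ X k, x ≠ 0)
    (hfin : ∀ k, (X k).Nonempty → {l : ℤ | Submodule.span ℚ (X l) = Submodule.span ℚ (X k)}.Finite) :
    ∃ (r : ℕ) (J : Fin r → N) (i0 : Fin r) (e : N) (B : ℕ) (s : ℤ → ℚ),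
      (∀ k : ℤ, (B : ℤ) ^ 2 < k ^ 2 → ∀ (y : Fin r → N → ℚ) (c : Fin r → Fin r → ℚ), Dat (X k) J y c →
        ∑ a, c i0 a * y a e = s k) ∧
      (s '' {k : ℤ | (B : ℤ) ^ 2 < k ^ 2 ∧ ∃ (y : Fin r → N → ℚ) (c : Fin r → Fin r → ℚ), Dat (X k) J y c}).Infinite := by
  classical
  set ρ : ℤ → ℕ := fun k => Module.finrank ℚ (Submodule.span ℚ (X k)) with hρ
  have hρN : ∀ k, ρ k ≤ Fintype.card N := by
    intro k
    have h1 := Submodule.finrank_le (Submodule.span ℚ (X k))
    rw [Module.finrank_fintype_fun_eq_card] at h1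
    exact h1
  have hρ1 : ∀ k, (X k).Nonempty → 1 ≤ ρ k := by
    rintro k ⟨x, hx⟩
    have h1 : Submodule.span ℚ (X k) ≠ ⊥ := by
      intro h0
      have h2 : x ∈ Submodule.span ℚ (X k) := Submodule.subset_span hx
      rw [h0, Submodule.mem_bot] at h2
      exact hone k x hx h2
    exact Nat.one_le_iff_ne_zero.2 fun h0 => h1 (Submodule.finrank_eq_zero.1 h0)
  have hρ1' : ∀ k, 1 ≤ ρ k → (X k).Nonempty := by
    intro k hk
    by_contra hcon
    rw [Set.not_nonempty_iff_eq_empty] at hcon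
    have h2 : ρ k = 0 := by
      show Module.finrank ℚ (Submodule.span ℚ (X k)) = 0
      rw [hcon, Submodule.span_empty, finrank_bot]
    omega
  set P : ℕ → Prop := fun n => {k : ℤ | n ≤ ρ k}.Infinite with hP
  have hP1 : P 1 := hinf.mono fun k hk => hρ1 k hk
  have hcard : 1 ≤ Fintype.card N := by
    obtain ⟨k, hk⟩ := hP1.nonempty
    exact le_trans hk (hρN k)
  set r : ℕ := Nat.findGreatest P (Fintype.card N) with hr
  have hPr : P r := Nat.findGreatest_spec hcard hP1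
  have hr1 : 1 ≤ r := Nat.le_findGreatest hcard hP1
  have hAf : {k : ℤ | r + 1 ≤ ρ k}.Finite := by
    by_cases hc : r + 1 ≤ Fintype.card N
    · have h1 := Nat.findGreatest_is_greatest (P := P) (n := Fintype.card N) (k := r + 1)
        (by rw [← hr]; omega) hc
      exact Set.not_infinite.1 h1
    · refine Set.Finite.subset Set.finite_empty fun k hk => ?_
      have h2 : r + 1 ≤ ρ k := hk
      have := hρN k
      omega
  obtain ⟨B, hB⟩ : ∃ B : ℕ, ∀ k : ℤ, r + 1 ≤ ρ k → k.natAbs ≤ B := by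
    obtain ⟨B, hB⟩ := (hAf.image Int.natAbs).bddAbove
    exact ⟨B, fun k hk => hB ⟨k, hk, rfl⟩⟩
  have hle : ∀ k : ℤ, (B : ℤ) ^ 2 < k ^ 2 → ρ k ≤ r := by
    intro k hk
    by_contra hcon
    have h1 := hB k (by omega)
    have h2 : k ^ 2 ≤ (B : ℤ) ^ 2 := by
      rw [← Int.natAbs_sq k]
      exact pow_le_pow_left₀ (by positivity) (by exact_mod_cast h1) 2
    omega
  have hsmall : {k : ℤ | k ^ 2 ≤ (B : ℤ) ^ 2}.Finite := by
    refine (Set.finite_Icc (-(B : ℤ)) B).subset fun k hk => ?_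
    have h1 : k ^ 2 ≤ (B : ℤ) ^ 2 := hk
    exact abs_le.1 (abs_le_of_sq_le_sq h1 (by positivity))
  set K : Set ℤ := {k | (B : ℤ) ^ 2 < k ^ 2 ∧ ρ k = r} with hK
  have hKinf : K.Infinite := by
    intro hKf
    refine hPr ((hKf.union hsmall).subset fun k hk => ?_)
    by_cases h1 : (B : ℤ) ^ 2 < k ^ 2
    · exact Or.inl ⟨h1, le_antisymm (hle k h1) hk⟩
    · exact Or.inr (not_lt.1 h1)
  obtain ⟨J, hJ⟩ : ∃ J : Fin r → N,
      {k : ℤ | k ∈ K ∧ ∃ (y : Fin r → N → ℚ) (c : Fin r → Fin r → ℚ), Dat (X k) J y c}.Infinite := by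
    by_contra hcon
    push Not at hcon
    refine hKinf ((Set.finite_iUnion hcon).subset fun k hk => ?_)
    obtain ⟨J, y, c, hD⟩ := C1a_exists (X k) hk.2
    exact Set.mem_iUnion.2 ⟨J, hk, y, c, hD⟩
  set b : ℤ → Fin r → N → ℚ := fun k =>
    if h : ∃ (y : Fin r → N → ℚ) (c : Fin r → Fin r → ℚ), Dat (X k) J y c then
      fun i e => ∑ a, h.choose_spec.choose i a * h.choose a e else 0 with hb
  have huni : ∀ k : ℤ, (B : ℤ) ^ 2 < k ^ 2 → ∀ (y : Fin r → N → ℚ) (c : Fin r → Fin r → ℚ),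
      Dat (X k) J y c → ∀ i e, ∑ a, c i a * y a e = b k i e := by
    intro k hk y c hD i e
    have h : ∃ (y : Fin r → N → ℚ) (c : Fin r → Fin r → ℚ), Dat (X k) J y c := ⟨y, c, hD⟩
    have hbk : b k i e = ∑ a, h.choose_spec.choose i a * h.choose a e := by
      simp only [hb]
      rw [dif_pos h]
    rw [hbk]
    exact C1a_unique hD h.choose_spec.choose_spec (hle k hk) i e
  by_contra hcon
  push Not at hcon
  have hfinie : ∀ (i : Fin r) (e : N), ((fun k => b k i e) '' {k : ℤ | (B : ℤ) ^ 2 < k ^ 2 ∧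
      ∃ (y : Fin r → N → ℚ) (c : Fin r → Fin r → ℚ), Dat (X k) J y c}).Finite := by
    intro i e
    exact hcon r J i e B (fun k => b k i e) (fun k hk y c hD => huni k hk y c hD i e)
  set T : Set ℤ := {k : ℤ | (B : ℤ) ^ 2 < k ^ 2 ∧
      ∃ (y : Fin r → N → ℚ) (c : Fin r → Fin r → ℚ), Dat (X k) J y c} with hT
  have hbT : (b '' T).Finite := by
    have h1 : {f : Fin r → N → ℚ | ∀ i, f i ∈ {g : N → ℚ | ∀ e, g e ∈ (fun k => b k i e) '' T}}.Finite :=
      Set.Finite.pi' fun i => Set.Finite.pi' fun e => hfinie i e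
    refine h1.subset ?_
    rintro _ ⟨k, hk, rfl⟩ i e
    exact ⟨k, hk, rfl⟩
  obtain ⟨v, hv⟩ : ∃ v : Fin r → N → ℚ, {k : ℤ | (k ∈ K ∧ ∃ (y : Fin r → N → ℚ)
      (c : Fin r → Fin r → ℚ), Dat (X k) J y c) ∧ b k = v}.Infinite := by
    by_contra hcon2
    push Not at hcon2
    refine hJ ((hbT.biUnion fun v _ => hcon2 v).subset fun k hk => ?_)
    exact Set.mem_biUnion (x := b k) ⟨k, ⟨hk.1.1, hk.2⟩, rfl⟩ ⟨hk, rfl⟩
  obtain ⟨k0, hk0⟩ := hv.nonempty
  have hspan : ∀ k : ℤ, (k ∈ K ∧ ∃ (y : Fin r → N → ℚ)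
      (c : Fin r → Fin r → ℚ), Dat (X k) J y c) ∧ b k = v →
      Submodule.span ℚ (X k) = Submodule.span ℚ (Set.range v) := by
    rintro k ⟨⟨hkK, y, c, hD⟩, hkv⟩
    have h1 := C1a_span hD (hle k hkK.1)
    rw [← h1, ← hkv]
    congr 2
    funext i e
    exact huni k hkK.1 y c hD i e
  refine hv ((hfin k0 (hρ1' k0 ?_)).subset fun k hk => ?_)
  · rw [hk0.1.1.2]
    exact hr1
  · show Submodule.span ℚ (X k) = Submodule.span ℚ (X k0)
    rw [hspan k hk, hspan k0 hk0]

end H79.MZ
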