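import Pool.Agent.H79.MZ.Q3
import Pool.Agent.H79.MZ.A1

/-!
# Q4: Diophantine sets of integers give Diophantine saturated subsets of `D`

* `Q4_nonneg`: `x ∈ D ∧ 0 ≤ φ x` iff `∃ w : Fin 4 × Fin n → ℚ` with all rows in `D` and `φ x = ∑ φ (row w j)²` (`Nat.sum_four_squares` for `(φ x).toNat`, `h.surj`):
  `Q3_poly` for `P = ∑ j : Fin 4, X j ^ 2`, `Q1_comp`, `Q1_ex`.
* `Q4_gt`: `x ∈ D ∧ B² < (φ x)²` iff `∃ y, 0 ≤ φ y ∧ y ∈ D ∧ φ y = (φ x)² - B² - 1`: `Q3_poly` for `P = X () ^ 2 - C (B^2 + 1)` (index type `Unit`), `Q4_nonneg`.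
* `Q4_sat`: `A1_fin` and `A1_mv` give `m` and `P : MvPolynomial (Fin 2 ⊕ Fin m) ℤ` with `w ∈ W ↔ ∃ t : Fin m → ℕ, P(w, t) = 0`.  Then `x` is in the set iff there are
  `z : (Fin 2 ⊕ Fin m) × Fin n → ℚ`, all rows in `D` with `0 ≤ φ (row ..)`, `P(φ (row z ·)) = 0` and `φ x + φ (row z (inl 1)) = φ (row z (inl 0))` (given such `z` put `w = (φ ..).toNat`;
  conversely use `h.surj`).  `P(φ ∘ rows) = 0`: `∃` a row `y` with `φ y = P(..)` (`Q3_poly`) and `φ y = 0` (`Q3_const`).  `Q1_all`, `Q1_comp`, `Q3_add`, `Q1_ex`.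
-/

open MvPolynomial Sum

namespace H79.MZ

variable {n : ℕ} {D : Set (Fin n → ℚ)} {φ : (Fin n → ℚ) → ℤ}

theorem Q4_nonneg (h : Interp D φ) : QD {x : Fin n → ℚ | x ∈ D ∧ 0 ≤ φ x} := by
  have h1 := Q1_ex (ι := Fin n) (κ := Fin 4 × Fin n)
    (Q1_comp (Q3_poly h (∑ j : Fin 4, (X j : MvPolynomial (Fin 4) ℤ) ^ 2))
      (fun p : Option (Fin 4) × Fin n => p.1.elim (inl p.2) (fun j => inr (j, p.2))))
  refine (congrArg QD ?_).mp h1
  ext x
  constructor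
  · rintro ⟨w, hw1, hw2⟩
    have e0 : φ x = ∑ j : Fin 4, φ (row w j) ^ 2 := by
      have : φ x = eval (fun i => φ (row w i)) (∑ j : Fin 4, (X j : MvPolynomial (Fin 4) ℤ) ^ 2) := hw2
      simpa using this
    refine ⟨hw1 none, ?_⟩
    rw [e0]
    exact Finset.sum_nonneg (fun j _ => sq_nonneg _)
  · rintro ⟨hx, h0⟩
    obtain ⟨a, b, c, d, he⟩ := Nat.sum_four_squares (φ x).toNat
    have hz : ∀ j : Fin 4, ∃ y ∈ D, φ y = ((![a, b, c, d] j : ℕ) : ℤ) := fun j => h.surj (Set.mem_univ _)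
    choose r hr1 hr2 using hz
    refine ⟨fun p => r p.1 p.2, ?_, ?_⟩
    · intro o
      cases o with
      | none => exact hx
      | some j => exact hr1 j
    · have : φ x = eval (fun i => φ (r i)) (∑ j : Fin 4, (X j : MvPolynomial (Fin 4) ℤ) ^ 2) := by
        have e1 : eval (fun i => φ (r i)) (∑ j : Fin 4, (X j : MvPolynomial (Fin 4) ℤ) ^ 2) =
            (a : ℤ) ^ 2 + (b : ℤ) ^ 2 + (c : ℤ) ^ 2 + (d : ℤ) ^ 2 := by
          simp [Fin.sum_univ_four, hr2]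
        rw [e1]
        have e2 : ((φ x).toNat : ℤ) = φ x := Int.toNat_of_nonneg h0
        rw [← e2, ← he]
        push_cast
        ring
      exact this

theorem Q4_gt (h : Interp D φ) (B : ℕ) : QD {x : Fin n → ℚ | x ∈ D ∧ (B : ℤ) ^ 2 < φ x ^ 2} := by
  have h1 := Q1_ex (ι := Fin n) (κ := Fin n)
    (Q1_inter (Q1_comp (Q4_nonneg h) (fun i : Fin n => (inr i : Fin n ⊕ Fin n)))
    (Q1_comp (Q3_poly h ((X () : MvPolynomial Unit ℤ) ^ 2 - C ((B : ℤ) ^ 2 + 1)))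
      (fun p : Option Unit × Fin n => p.1.elim (inr p.2 : Fin n ⊕ Fin n) (fun _ => inl p.2))))
  refine (congrArg QD ?_).mp h1
  ext x
  constructor
  · rintro ⟨y, ⟨hy1, hy0⟩, hy2, hy3⟩
    have hy0' : 0 ≤ φ y := hy0
    have e0 : φ y = φ x ^ 2 - ((B : ℤ) ^ 2 + 1) := by
      have : φ y = eval (fun _ => φ x) ((X () : MvPolynomial Unit ℤ) ^ 2 - C ((B : ℤ) ^ 2 + 1)) := hy3
      simpa using this
    refine ⟨hy2 (some ()), ?_⟩
    linarith
  · rintro ⟨hx, h0⟩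
    obtain ⟨y, hy, hy2⟩ := h.surj (Set.mem_univ (φ x ^ 2 - ((B : ℤ) ^ 2 + 1)))
    refine ⟨y, ⟨hy, ?_⟩, ?_, ?_⟩
    · change 0 ≤ φ y
      rw [hy2]
      linarith
    · intro o
      cases o with
      | none => exact hy
      | some j => exact hx
    · have : φ y = eval (fun _ => φ x) ((X () : MvPolynomial Unit ℤ) ^ 2 - C ((B : ℤ) ^ 2 + 1)) := by
        rw [hy2]
        simp
      exact this

theorem Q4_sat (h : Interp D φ) {W : Set (Fin 2 → ℕ)} (hW : Dioph W) :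
    QD {x : Fin n → ℚ | x ∈ D ∧ ∃ w : Fin 2 → ℕ, φ x = (w 0 : ℤ) - (w 1 : ℤ) ∧ w ∈ W} := by
  obtain ⟨m, p, hp⟩ := A1_fin hW
  obtain ⟨P, hP⟩ := A1_mv p
  have hA := Q1_all (ι := Fin n ⊕ (Option (Fin 2 ⊕ Fin m) × Fin n)) (κ := Fin 2 ⊕ Fin m)
    (fun a => Q1_comp (Q4_nonneg h) (fun i : Fin n => (inr (some a, i) : Fin n ⊕ (Option (Fin 2 ⊕ Fin m) × Fin n))))
  have hB := Q1_comp (Q3_const h 0) (fun i : Fin n => (inr (none, i) : Fin n ⊕ (Option (Fin 2 ⊕ Fin m) × Fin n)))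
  have hC := Q1_comp (Q3_poly h P) (fun q => (inr q : Fin n ⊕ (Option (Fin 2 ⊕ Fin m) × Fin n)))
  have hE := Q1_comp h.add (fun q : Fin 3 × Fin n =>
    (![inl q.2, inr (some (inl 1), q.2), inr (some (inl 0), q.2)] :
      Fin 3 → Fin n ⊕ (Option (Fin 2 ⊕ Fin m) × Fin n)) q.1)
  have h1 := Q1_ex (Q1_inter (Q1_inter hA hB) (Q1_inter hC hE))
  refine (congrArg QD ?_).mp h1
  ext x
  constructor
  · rintro ⟨v, ⟨hv1, hv2⟩, hv3, hv4⟩
    obtain ⟨hv4a, hv4b, hv4c, hv4d⟩ := hv4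
    have hv4a' : x ∈ D := hv4a
    have hv4d' : φ x + φ (row v (some (inl 1))) = φ (row v (some (inl 0))) := hv4d
    have hv1' : ∀ a, 0 ≤ φ (row v (some a)) := fun a => (hv1 a).2
    have hv2' : φ (row v none) = 0 := hv2.2
    have hv3' : φ (row v none) = eval (fun i => φ (row v (some i))) P := hv3.2
    have e1 : (fun a => (((φ (row v (some a))).toNat : ℕ) : ℤ)) = fun a => φ (row v (some a)) :=
      funext fun a => Int.toNat_of_nonneg (hv1' a)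
    refine ⟨hv4a', fun j => (φ (row v (some (inl j)))).toNat, ?_, ?_⟩
    · rw [Int.toNat_of_nonneg (hv1' _), Int.toNat_of_nonneg (hv1' _)]
      linarith
    · refine (hp _).2 ⟨fun j => (φ (row v (some (inr j)))).toNat, ?_⟩
      have e2 : (Sum.elim (fun j => (φ (row v (some (inl j)))).toNat) (fun j => (φ (row v (some (inr j)))).toNat) :
          Fin 2 ⊕ Fin m → ℕ) = fun a => (φ (row v (some a))).toNat := by
        funext a
        cases a <;> rfl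
      rw [e2, hP, e1, ← hv3', hv2']
  · rintro ⟨hx, w, hw1, hw2⟩
    obtain ⟨t, ht⟩ := (hp w).1 hw2
    have hz : ∀ a : Fin 2 ⊕ Fin m, ∃ y ∈ D, φ y = ((Sum.elim w t a : ℕ) : ℤ) := fun a => h.surj (Set.mem_univ _)
    choose r hr1 hr2 using hz
    obtain ⟨y, hy1, hy2⟩ := h.surj (Set.mem_univ 0)
    have e3 : eval (fun i => φ (r i)) P = 0 := by
      rw [← ht, hP]
      exact congrArg (fun g => eval g P) (funext hr2)
    refine ⟨fun q => q.1.elim (y q.2) (fun a => r a q.2), ⟨?_, ?_⟩, ⟨?_, ?_⟩, ?_⟩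
    · intro a
      refine ⟨hr1 a, ?_⟩
      change 0 ≤ φ (r a)
      rw [hr2]
      exact Int.natCast_nonneg _
    · exact ⟨hy1, hy2⟩
    · intro o
      cases o with
      | none => exact hy1
      | some a => exact hr1 a
    · have : φ y = eval (fun i => φ (r i)) P := by rw [e3, hy2]
      exact this
    · refine ⟨hx, hr1 _, hr1 _, ?_⟩
      have : φ x + φ (r (inl 1)) = φ (r (inl 0)) := by
        rw [hr2, hr2, hw1]
        change (w 0 : ℤ) - (w 1 : ℤ) + (w 1 : ℤ) = (w 0 : ℤ)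
        ring
      exact this

end H79.MZ
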