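import Pool.Agent.H79.MZ.C1a
import Pool.Agent.H79.MZ.Q4

/-!
# C2: the Diophantine set of the reduced bases

Coordinates of a point `z : IX m n r → ℚ`: points `Y a = fun t => z (inl (a, t))` (`a : Fin r`) of `ℚ^m`, matrix `c i a = z (inr (inl (i, a)))`, scalar `z (inr (inr (inl ())))`, point `x = fun t => z (inr (inr (inr t)))`.
* `C2_fam`: `y ∈ fam R D φ (φ x)` iff `∃ x' ∈ D, φ x' = φ x, (y, x') ∈ R`: `Q1_ex` with the new variables `Fin n` (index type `(Fin m ⊕ Fin n) ⊕ Fin n`), `Q3_eq`/`h.eqv` and `hR` with `Q1_comp`, `Q1_inter`.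
* `C2_QD`: intersection of: `x ∈ D ∧ B² < (φ x)²` (`Q4_gt`, `Q1_comp`); for every `a`: `Y a ∈ fam R D φ (φ x)` (`C2_fam`, `Q1_comp`, `Q1_all`); for every `i, l` the polynomial equation (`Q1_poly`, `Q1_all`; the
  polynomial is `∑ a, X (inr (inl (i, a))) * ∏ t, X (inl (a, t)) ^ (J l t) - C (if i = l then 1 else 0)`, `map_sum`, `map_prod`); and one more polynomial equation.
-/

open MvPolynomial Sum

namespace H79.MZ

variable {n : ℕ} {D : Set (Fin n → ℚ)} {φ : (Fin n → ℚ) → ℤ}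

/-- all monomials with exponents at most `d` -/
def nu {m : ℕ} (d : ℕ) (y : Fin m → ℚ) : (Fin m → Fin (d + 1)) → ℚ := fun e => ∏ t, y t ^ (e t : ℕ)

/-- the index type -/
abbrev IX (m n r : ℕ) : Type := (Fin r × Fin m) ⊕ ((Fin r × Fin r) ⊕ (Unit ⊕ Fin n))

/-- the set of all data together with the scalar invariant -/
def Rs {m n : ℕ} (R : Set (Fin m ⊕ Fin n → ℚ)) (D : Set (Fin n → ℚ)) (φ : (Fin n → ℚ) → ℤ) (d : ℕ) {r : ℕ}
    (J : Fin r → Fin m → Fin (d + 1)) (i0 : Fin r) (e : Fin m → Fin (d + 1)) (B : ℕ) : Set (IX m n r → ℚ) :=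
  {z | ((fun t => z (inr (inr (inr t)))) ∈ D ∧ (B : ℤ) ^ 2 < φ (fun t => z (inr (inr (inr t)))) ^ 2) ∧
    (∀ a, (fun t => z (inl (a, t))) ∈ fam R D φ (φ fun t => z (inr (inr (inr t))))) ∧
    (∀ i l, ∑ a, z (inr (inl (i, a))) * nu d (fun t => z (inl (a, t))) (J l) = if i = l then 1 else 0) ∧
    z (inr (inr (inl ()))) = ∑ a, z (inr (inl (i0, a))) * nu d (fun t => z (inl (a, t))) e}

theorem C2_fam (h : Interp D φ) {m : ℕ} {R : Set (Fin m ⊕ Fin n → ℚ)} (hR : QD R) :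
    QD {z : Fin m ⊕ Fin n → ℚ | (fun t => z (inr t)) ∈ D ∧
      (fun t => z (inl t)) ∈ fam R D φ (φ fun t => z (inr t))} := by
  have hE : QD {u : (Fin m ⊕ Fin n) ⊕ Fin n → ℚ |
      (fun ti : Fin 2 × Fin n => u (![inl (inr ti.2), inr ti.2] ti.1)) ∈
        {z : Fin 2 × Fin n → ℚ | row z 0 ∈ D ∧ row z 1 ∈ D ∧ φ (row z 0) = φ (row z 1)}} :=
    Q1_comp h.eqv (fun ti : Fin 2 × Fin n => (![inl (inr ti.2), inr ti.2] ti.1 : (Fin m ⊕ Fin n) ⊕ Fin n))
  have hR' : QD {u : (Fin m ⊕ Fin n) ⊕ Fin n → ℚ |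
      (fun s : Fin m ⊕ Fin n => u (Sum.elim (fun t => inl (inl t)) (fun t => inr t) s)) ∈ R} :=
    Q1_comp hR (Sum.elim (fun t => (inl (inl t) : (Fin m ⊕ Fin n) ⊕ Fin n)) (fun t => inr t))
  have hU := Q1_ex (Q1_inter hE hR')
  refine (congrArg QD ?_).mp hU
  ext z
  have key : ∀ w : Fin n → ℚ, (fun s : Fin m ⊕ Fin n =>
      Sum.elim z w (Sum.elim (fun t => inl (inl t)) (fun t => inr t) s)) =
      Sum.elim (fun t => z (inl t)) w := by
    intro w
    funext s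
    rcases s with s | s <;> rfl
  constructor
  · rintro ⟨w, ⟨h1, h2, h3⟩, h4⟩
    have h1' : (fun t => z (inr t)) ∈ D := h1
    have h2' : w ∈ D := h2
    have h3' : φ (fun t => z (inr t)) = φ w := h3
    have h4' : (fun s : Fin m ⊕ Fin n =>
      Sum.elim z w (Sum.elim (fun t => inl (inl t)) (fun t => inr t) s)) ∈ R := h4
    rw [key w] at h4'
    exact ⟨h1', w, h2', h3'.symm, h4'⟩
  · rintro ⟨h1, w, h2, h3, h4⟩
    refine ⟨w, ⟨h1, h2, h3.symm⟩, ?_⟩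
    show (fun s : Fin m ⊕ Fin n =>
      Sum.elim z w (Sum.elim (fun t => inl (inl t)) (fun t => inr t) s)) ∈ R
    rw [key w]
    exact h4

theorem C2_QD (h : Interp D φ) {m : ℕ} {R : Set (Fin m ⊕ Fin n → ℚ)} (hR : QD R) (d : ℕ) {r : ℕ}
    (J : Fin r → Fin m → Fin (d + 1)) (i0 : Fin r) (e : Fin m → Fin (d + 1)) (B : ℕ) :
    QD (Rs R D φ d J i0 e B) := by
  have h1 : QD {z : IX m n r → ℚ | (fun t => z (inr (inr (inr t)))) ∈ {x : Fin n → ℚ | x ∈ D ∧ (B : ℤ) ^ 2 < φ x ^ 2}} :=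
    Q1_comp (Q4_gt h B) (fun t : Fin n => (inr (inr (inr t)) : IX m n r))
  have h2 : QD {z : IX m n r → ℚ | ∀ a : Fin r, z ∈ {z : IX m n r → ℚ |
      (fun s : Fin m ⊕ Fin n => z (Sum.elim (fun t => inl (a, t)) (fun t => inr (inr (inr t))) s)) ∈
      {z : Fin m ⊕ Fin n → ℚ | (fun t => z (inr t)) ∈ D ∧
      (fun t => z (inl t)) ∈ fam R D φ (φ fun t => z (inr t))}}} :=
    Q1_all (fun a => Q1_comp (C2_fam h hR)
      (Sum.elim (fun t => (inl (a, t) : IX m n r)) (fun t => inr (inr (inr t)))))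
  have h3 : QD {z : IX m n r → ℚ | ∀ i : Fin r, z ∈ {z : IX m n r → ℚ | ∀ l : Fin r, z ∈ {z : IX m n r → ℚ |
      eval z (∑ a : Fin r, X (inr (inl (i, a))) * ∏ t : Fin m, X (inl (a, t)) ^ ((J l t : Fin (d + 1)) : ℕ) -
        C (if i = l then (1 : ℚ) else 0)) = 0}}} :=
    Q1_all (fun i => Q1_all (fun l => Q1_poly _))
  have h4 : QD {z : IX m n r → ℚ | eval z (X (inr (inr (inl ()))) -
      ∑ a : Fin r, X (inr (inl (i0, a))) * ∏ t : Fin m, X (inl (a, t)) ^ ((e t : Fin (d + 1)) : ℕ)) = 0} :=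
    Q1_poly _
  have hU := Q1_inter (Q1_inter h1 h2) (Q1_inter h3 h4)
  refine (congrArg QD ?_).mp hU
  ext z
  constructor
  · rintro ⟨⟨g1, g2⟩, ⟨g3, g4⟩⟩
    refine ⟨g1, fun a => (g2 a).2, ?_, ?_⟩
    · intro i l
      have g := g3 i l
      have g' : eval z (∑ a : Fin r, X (inr (inl (i, a))) * ∏ t : Fin m, X (inl (a, t)) ^ ((J l t : Fin (d + 1)) : ℕ) -
        C (if i = l then (1 : ℚ) else 0)) = 0 := g
      rw [map_sub, map_sum, eval_C, sub_eq_zero] at g'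
      rw [← g']
      refine Finset.sum_congr rfl fun a _ => ?_
      rw [map_mul, map_prod, eval_X]
      simp only [map_pow, eval_X]
      rfl
    · have g' : eval z (X (inr (inr (inl ()))) -
        ∑ a : Fin r, X (inr (inl (i0, a))) * ∏ t : Fin m, X (inl (a, t)) ^ ((e t : Fin (d + 1)) : ℕ)) = 0 := g4
      rw [map_sub, map_sum, eval_X, sub_eq_zero] at g'
      rw [g']
      refine Finset.sum_congr rfl fun a _ => ?_
      rw [map_mul, map_prod, eval_X]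
      simp only [map_pow, eval_X]
      rfl
  · rintro ⟨g1, g2, g3, g4⟩
    refine ⟨⟨g1, fun a => ⟨g1.1, g2 a⟩⟩, ⟨fun i l => ?_, ?_⟩⟩
    · show eval z (∑ a : Fin r, X (inr (inl (i, a))) * ∏ t : Fin m, X (inl (a, t)) ^ ((J l t : Fin (d + 1)) : ℕ) -
        C (if i = l then (1 : ℚ) else 0)) = 0
      rw [map_sub, map_sum, eval_C, sub_eq_zero, ← g3 i l]
      refine Finset.sum_congr rfl fun a _ => ?_
      rw [map_mul, map_prod, eval_X]
      simp only [map_pow, eval_X]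
      rfl
    · show eval z (X (inr (inr (inl ()))) -
        ∑ a : Fin r, X (inr (inl (i0, a))) * ∏ t : Fin m, X (inl (a, t)) ^ ((e t : Fin (d + 1)) : ℕ)) = 0
      rw [map_sub, map_sum, eval_X, sub_eq_zero, g4]
      refine Finset.sum_congr rfl fun a _ => ?_
      rw [map_mul, map_prod, eval_X]
      simp only [map_pow, eval_X]
      rfl

end H79.MZ
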