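import Pool.Agent.H79.MZ.Q0

/-!
# T2: windows

* `T2_dense`: the infinite set `{f (rl x) | x ∈ R}` is covered by the finitely many sets `f '' (C j)`, so some `f '' (C j)` contains two values `α = f (rl x) < β = f (rl y)`, `rl x, rl y ∈ C j`
  (pigeonhole).  `f '' (C j)` is preconnected, so it contains `[α, β]` (`IsPreconnected.Icc_subset`), and it is contained in `closure (f '' (rl '' R))`
  (`image_closure_subset_closure_image`).  Choose a rational `q` with `α < q < β` (`exists_rat_btwn`).  Every `t` with `q < t < β` is in the closure: `Metric.mem_closure_iff`.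
* `T2_gap`: choose for every `i ≥ i0` a point `x i ∈ S` in window `i` and `j i` with `rl (x i) ∈ C (j i)`; `j` is not injective on the infinite set `{i ≥ i0}`: `j i = j l`, `i < l`.
  `f (rl (x l)) < q + 1/(2l+1) ≤ q + 1/(2i+3)` and `q + 1/(2i+2) < f (rl (x i))`.  Let `g = q + (1/(2i+3) + 1/(2i+2))/2`.  The preconnected set `f '' (C (j i))` contains both values, so it contains `g`; so
  `g ∈ closure (f '' (rl '' S))`.  But the open interval `(q + 1/(2i+3), q + 1/(2i+2))` around `g` contains no `f (rl x)`, `x ∈ S`: if `x` is in window `l'`: for `l' ≤ i`,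
  `f (rl x) > q + 1/(2l'+2) ≥ q + 1/(2i+2)`; for `l' ≥ i + 1`, `f (rl x) < q + 1/(2l'+1) ≤ q + 1/(2i+3)`.
* `T2_sub`: for `q < β` there is `i0` such that for `i ≥ i0` the window `i` is contained in `(q, β)` and so contains a point of `R`: take `i0` with `1/(2 i0 + 1) < β - q` and `t` the midpoint of the window,
  `ε` half its length.
-/

namespace H79.MZ

/-- `t` lies in the `i`-th window at `q` -/
def win (q : ℚ) (i : ℕ) (t : ℝ) : Prop := (q : ℝ) + 1 / (2 * (i : ℝ) + 2) < t ∧ t < (q : ℝ) + 1 / (2 * (i : ℝ) + 1)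

theorem T2_inv {a b : ℝ} (ha : 0 < a) (hab : a ≤ b) : 1 / b ≤ 1 / a :=
  one_div_le_one_div_of_le ha hab

theorem T2_inv_lt {a b : ℝ} (ha : 0 < a) (hab : a < b) : 1 / b < 1 / a :=
  one_div_lt_one_div_of_lt ha hab

theorem T2_dense {ι : Type} {R : Set (ι → ℚ)} {N : ℕ} (C : Fin N → Set (ι → ℝ)) (h1 : ∀ j, IsPreconnected (C j))
    (h2 : ∀ j, C j ⊆ closure (rl '' R)) (h3 : ∀ x ∈ R, ∃ j, rl x ∈ C j) (f : (ι → ℝ) → ℝ) (hf : Continuous f)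
    (hinf : ((fun x => f (rl x)) '' R).Infinite) :
    ∃ (q : ℚ) (β : ℝ), (q : ℝ) < β ∧ ∀ t : ℝ, (q : ℝ) < t → t < β → ∀ ε > 0, ∃ x ∈ R, |f (rl x) - t| < ε := by
  -- two values in the same piece
  have h4 : ∃ j, ((fun x => f (rl x)) '' {x | x ∈ R ∧ rl x ∈ C j}).Infinite := by
    by_contra hcon
    push Not at hcon
    apply hinf
    refine (Set.finite_iUnion hcon).subset ?_
    rintro _ ⟨x, hx, rfl⟩
    obtain ⟨j, hj⟩ := h3 x hx
    exact Set.mem_iUnion.2 ⟨j, x, ⟨hx, hj⟩, rfl⟩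
  obtain ⟨j, hj⟩ := h4
  obtain ⟨_, ⟨x, ⟨hx, hxj⟩, rfl⟩, _, ⟨y, ⟨hy, hyj⟩, rfl⟩, hne⟩ := hj.nontrivial
  have key : ∃ α β : ℝ, α < β ∧ α ∈ f '' (C j) ∧ β ∈ f '' (C j) := by
    rcases lt_or_gt_of_ne hne with h | h
    · exact ⟨_, _, h, ⟨_, hxj, rfl⟩, ⟨_, hyj, rfl⟩⟩
    · exact ⟨_, _, h, ⟨_, hyj, rfl⟩, ⟨_, hxj, rfl⟩⟩
  obtain ⟨α, β, hαβ, hα, hβ⟩ := key
  have hpre : IsPreconnected (f '' (C j)) := (h1 j).image f hf.continuousOn
  have hIcc := hpre.Icc_subset hα hβ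
  have hsub : f '' (C j) ⊆ closure (f '' (rl '' R)) :=
    (Set.image_mono (h2 j)).trans (image_closure_subset_closure_image hf)
  obtain ⟨q, hq1, hq2⟩ := exists_rat_btwn hαβ
  refine ⟨q, β, hq2, fun t ht1 ht2 ε hε => ?_⟩
  have h5 := hsub (hIcc ⟨(hq1.trans ht1).le, ht2.le⟩)
  rw [Metric.mem_closure_iff] at h5
  obtain ⟨_, ⟨_, ⟨z, hz, rfl⟩, rfl⟩, hd⟩ := h5 ε hε
  refine ⟨z, hz, ?_⟩
  rw [Real.dist_eq, abs_sub_comm] at hd
  exact hd

theorem T2_gap {ι : Type} {S : Set (ι → ℚ)} {N : ℕ} (C : Fin N → Set (ι → ℝ)) (h1 : ∀ j, IsPreconnected (C j))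
    (h2 : ∀ j, C j ⊆ closure (rl '' S)) (h3 : ∀ x ∈ S, ∃ j, rl x ∈ C j) (f : (ι → ℝ) → ℝ) (hf : Continuous f)
    (q : ℚ) (hw : ∀ x ∈ S, ∃ i : ℕ, win q i (f (rl x))) (i0 : ℕ) (hm : ∀ i ≥ i0, ∃ x ∈ S, win q i (f (rl x))) :
    False := by
  have hm' : ∀ i : ℕ, ∃ x, x ∈ S ∧ win q (i0 + i) (f (rl x)) := fun i => hm (i0 + i) (by omega)
  choose x hxS hxw using hm'
  have h3' : ∀ i : ℕ, ∃ j, rl (x i) ∈ C j := fun i => h3 (x i) (hxS i)
  choose J hJ using h3'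
  have key : ∃ a b : ℕ, a < b ∧ J a = J b := by
    obtain ⟨a, b, hne, hab⟩ := Finite.exists_ne_map_eq_of_infinite J
    rcases lt_or_gt_of_ne hne with h | h
    · exact ⟨a, b, h, hab⟩
    · exact ⟨b, a, h, hab.symm⟩
  obtain ⟨a, b, hab, hJab⟩ := key
  have ha0 : (0 : ℝ) ≤ ((i0 + a : ℕ) : ℝ) := Nat.cast_nonneg _
  have hab' : ((i0 + a : ℕ) : ℝ) + 1 ≤ ((i0 + b : ℕ) : ℝ) := by
    have : i0 + a + 1 ≤ i0 + b := by omega
    exact_mod_cast this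
  set A : ℝ := ((i0 + a : ℕ) : ℝ) with hA
  set B : ℝ := ((i0 + b : ℕ) : ℝ) with hB
  have hwa := hxw a
  have hwb := hxw b
  unfold win at hwa hwb
  rw [← hA] at hwa
  rw [← hB] at hwb
  have h6 : 1 / (2 * B + 1) ≤ 1 / (2 * A + 3) := T2_inv (by linarith) (by linarith)
  have h7 : 1 / (2 * A + 3) < 1 / (2 * A + 2) := T2_inv_lt (by linarith) (by linarith)
  have hpre : IsPreconnected (f '' (C (J a))) := (h1 _).image f hf.continuousOn
  have hIcc := hpre.Icc_subset (a := f (rl (x b))) (b := f (rl (x a)))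
    ⟨_, by rw [hJab]; exact hJ b, rfl⟩ ⟨_, hJ a, rfl⟩
  have hsub : f '' (C (J a)) ⊆ closure (f '' (rl '' S)) :=
    (Set.image_mono (h2 _)).trans (image_closure_subset_closure_image hf)
  have h5 := hsub (hIcc (a := (q : ℝ) + (1 / (2 * A + 3) + 1 / (2 * A + 2)) / 2)
    ⟨by linarith [hwb.2], by linarith [hwa.1]⟩)
  rw [Metric.mem_closure_iff] at h5
  obtain ⟨_, ⟨_, ⟨z, hz, rfl⟩, rfl⟩, hd⟩ := h5 ((1 / (2 * A + 2) - 1 / (2 * A + 3)) / 2) (by linarith)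
  rw [Real.dist_eq, abs_lt] at hd
  obtain ⟨l, hl⟩ := hw z hz
  unfold win at hl
  have hl0 : (0 : ℝ) ≤ (l : ℝ) := Nat.cast_nonneg _
  rcases Nat.lt_or_ge (i0 + a) l with h8 | h8
  · have h9 : A + 1 ≤ (l : ℝ) := by
      rw [hA]
      exact_mod_cast h8
    have h10 : 1 / (2 * (l : ℝ) + 1) ≤ 1 / (2 * A + 3) := T2_inv (by linarith) (by linarith)
    linarith [hl.2, hd.1, hd.2]
  · have h9 : (l : ℝ) ≤ A := by
      rw [hA]
      exact_mod_cast h8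
    have h10 : 1 / (2 * A + 2) ≤ 1 / (2 * (l : ℝ) + 2) := T2_inv (by linarith) (by linarith)
    linarith [hl.1, hd.1, hd.2]

theorem T2_sub {ι : Type} {R : Set (ι → ℚ)} (f : (ι → ℝ) → ℝ) (q : ℚ) (β : ℝ) (hq : (q : ℝ) < β)
    (h : ∀ t : ℝ, (q : ℝ) < t → t < β → ∀ ε > 0, ∃ x ∈ R, |f (rl x) - t| < ε) :
    ∃ i0 : ℕ, ∀ i ≥ i0, ∃ x ∈ R, win q i (f (rl x)) := by
  obtain ⟨n, hn⟩ := exists_nat_one_div_lt (sub_pos.2 hq)
  refine ⟨n, fun i hi => ?_⟩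
  have hn0 : (0 : ℝ) ≤ (n : ℝ) := Nat.cast_nonneg _
  have hi' : (n : ℝ) ≤ (i : ℝ) := by exact_mod_cast hi
  have h1 : 1 / (2 * (i : ℝ) + 1) ≤ 1 / ((n : ℝ) + 1) := T2_inv (by linarith) (by linarith)
  have h2 : 1 / (2 * (i : ℝ) + 2) < 1 / (2 * (i : ℝ) + 1) := T2_inv_lt (by linarith) (by linarith)
  have h3 : 0 < 1 / (2 * (i : ℝ) + 2) := by positivity
  obtain ⟨x, hx, hd⟩ := h ((q : ℝ) + (1 / (2 * (i : ℝ) + 2) + 1 / (2 * (i : ℝ) + 1)) / 2)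
    (by linarith) (by linarith) ((1 / (2 * (i : ℝ) + 1) - 1 / (2 * (i : ℝ) + 2)) / 2) (by linarith)
  refine ⟨x, hx, ?_⟩
  rw [abs_lt] at hd
  constructor <;> linarith [hd.1, hd.2]

end H79.MZ
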