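import Pool.Agent.H79.MZ.G2
import Pool.Agent.H79.MZ.T2

/-!
# T4: the set of indices in the windows is Diophantine over the integers

Let `J = Fin n × Fin 3`, `I = ι × Fin 3`.
* `T4_code`: a code of `q + 1 / M` (`M ≥ 1`), `q = (q0 - q1) / (q2 + 1)`: `(q0 M + q2 + 1, q1 M, (q2 + 1) M - 1)`.
* `T4_W`: `w` is in the set iff there are `u : I → ℕ` (code of `x ∈ R`), `v : J → ℕ` (code of some `y ∈ D` with `φ y = κ x`) and `i` such that
  (a) `dec` of the code `(u, v)` is in the set of `hG` (so `dec u ∈ R`, `dec v ∈ D`, `κ (dec u) = φ (dec v)`): `Q2_QD hG`, `Dioph.reindex_dioph` along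
     `(ι ⊕ Fin n) × Fin 3 → ...`, `(inl a, s) ↦ u (a, s)`, `(inr b, s) ↦ v (b, s)`;
  (b) `dec v ∈ D ∧ φ (dec v) = w 0 - w 1`: `G2_graph`, `Dioph.reindex_dioph`;
  (c) the code with the rows `u`, code of `q + 1/(2i+2)` and code of `q + 1/(2i+1)` is in the set of `hcut`: `A5a_comp` with the index set `(ι ⊕ Fin 2) × Fin 3` and the functions `u (a, s)` and the functions of `i` from
     `T4_code` (`Dioph.sub_dioph, add_dioph, mul_dioph, const_dioph, proj_dioph`).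
  `Dioph.ex_dioph` for the new variables `I ⊕ (J ⊕ Unit)`.  Existence of `v`: `h.surj` and `Q2_surj`.
-/

open MvPolynomial Sum

namespace H79.MZ

variable {n : ℕ} {D : Set (Fin n → ℚ)} {φ : (Fin n → ℚ) → ℤ}

theorem T4_code (q0 q1 q2 M : ℕ) (hM : 1 ≤ M) :
    (((q0 * M + q2 + 1 : ℕ) : ℚ) - ((q1 * M : ℕ) : ℚ)) / ((((q2 + 1) * M - 1 : ℕ) : ℚ) + 1) =
      ((q0 : ℚ) - (q1 : ℚ)) / ((q2 : ℚ) + 1) + 1 / (M : ℚ) := by
  have h1 : 1 ≤ (q2 + 1) * M := Nat.one_le_iff_ne_zero.mpr (by positivity)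
  have hM' : (M : ℚ) ≠ 0 := by
    have : (0 : ℚ) < M := by exact_mod_cast hM
    exact this.ne'
  have hq : ((q2 : ℚ) + 1) ≠ 0 := by positivity
  rw [Nat.cast_sub h1]
  push_cast
  field_simp
  ring

/-- the functions giving the code of `q + 1 / M`, as functions of `M` -/
def T4_row (q0 q1 q2 M : ℕ) (s : Fin 3) : ℕ :=
  if s = 0 then q0 * M + q2 + 1 else if s = 1 then q1 * M else (q2 + 1) * M - 1

/-- the functions of the composition: rows `inl a` are variables, the rows `inr c` are codes -/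
def T4_F {ι : Type} {α : Type} (q0 q1 q2 : ℕ) (gu : ι × Fin 3 → α) (gi : α)
    (p : (ι ⊕ Fin 2) × Fin 3) (z : α → ℕ) : ℕ :=
  match p with
  | (inl a, s) => z (gu (a, s))
  | (inr c, s) => if c = 0 then T4_row q0 q1 q2 (2 * z gi + 2) s
      else T4_row q0 q1 q2 (2 * z gi + 1) s

theorem T4_row_dioph {α : Type} (q0 q1 q2 : ℕ) (M : (α → ℕ) → ℕ) (hM : Dioph.DiophFn M)
    (s : Fin 3) : Dioph.DiophFn fun z => T4_row q0 q1 q2 (M z) s := by
  fin_cases s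
  · exact Dioph.add_dioph (Dioph.add_dioph (Dioph.mul_dioph (Dioph.const_dioph q0) hM)
      (Dioph.const_dioph q2)) (Dioph.const_dioph 1)
  · exact Dioph.mul_dioph (Dioph.const_dioph q1) hM
  · exact Dioph.sub_dioph (Dioph.mul_dioph (Dioph.const_dioph (q2 + 1)) hM)
      (Dioph.const_dioph 1)

theorem T4_F_dioph {ι : Type} {α : Type} (q0 q1 q2 : ℕ) (gu : ι × Fin 3 → α) (gi : α)
    (p : (ι ⊕ Fin 2) × Fin 3) : Dioph.DiophFn (T4_F q0 q1 q2 gu gi p) := by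
  obtain ⟨a | c, s⟩ := p
  · exact Dioph.proj_dioph _
  · fin_cases c
    · exact T4_row_dioph q0 q1 q2 (fun z => 2 * z gi + 2)
        (Dioph.add_dioph (Dioph.mul_dioph (Dioph.const_dioph 2) (Dioph.proj_dioph gi))
          (Dioph.const_dioph 2)) s
    · exact T4_row_dioph q0 q1 q2 (fun z => 2 * z gi + 1)
        (Dioph.add_dioph (Dioph.mul_dioph (Dioph.const_dioph 2) (Dioph.proj_dioph gi))
          (Dioph.const_dioph 1)) s

theorem T4_dec {ι : Type} {α : Type} (q0 q1 q2 : ℕ) (gu : ι × Fin 3 → α) (gi : α) (z : α → ℕ)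
    (q : ℚ) (hq : q = ((q0 : ℚ) - (q1 : ℚ)) / ((q2 : ℚ) + 1)) :
    dec (fun p => T4_F q0 q1 q2 gu gi p z) =
      Sum.elim (dec (fun p => z (gu p)))
        (fun c : Fin 2 => if c = 0 then q + 1 / (2 * (z gi : ℚ) + 2) else q + 1 / (2 * (z gi : ℚ) + 1)) := by
  funext x
  rcases x with a | c
  · rfl
  · fin_cases c
    · have := T4_code q0 q1 q2 (2 * z gi + 2) (by omega)
      simp only [dec, T4_F, T4_row, Sum.elim_inr]
      simp only [Fin.zero_eta, ↓reduceIte, Fin.isValue, one_ne_zero, Fin.reduceEq]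
      rw [this, hq]
      push_cast
      rfl
    · have := T4_code q0 q1 q2 (2 * z gi + 1) (by omega)
      simp only [dec, T4_F, T4_row, Sum.elim_inr]
      simp only [Fin.mk_one, ↓reduceIte, Fin.isValue, one_ne_zero, Fin.reduceEq]
      rw [this, hq]
      push_cast
      rfl

theorem T4_W (h : Interp D φ) {ι : Type} [Fintype ι] {R : Set (ι → ℚ)} {κ : (ι → ℚ) → ℤ}
    (hG : QD {z : ι ⊕ Fin n → ℚ | (fun i => z (inl i)) ∈ R ∧ (fun i => z (inr i)) ∈ D ∧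
      κ (fun i => z (inl i)) = φ (fun i => z (inr i))})
    (f : (ι → ℝ) → ℝ)
    (hcut : ZD {z : ι ⊕ Fin 2 → ℚ | (fun i => z (inl i)) ∈ R ∧ ((z (inr 0) : ℚ) : ℝ) < f (rl fun i => z (inl i)) ∧
      f (rl fun i => z (inl i)) < ((z (inr 1) : ℚ) : ℝ)}) (q : ℚ) :
    Dioph {w : Fin 2 → ℕ | ∃ x ∈ R, κ x = (w 0 : ℤ) - (w 1 : ℤ) ∧ ∃ i : ℕ, win q i (f (rl x))} := by
  classical
  obtain ⟨qc, hqc⟩ := Q2_surj (fun _ : Unit => q)
  have hq : q = (((qc ((), 0) : ℕ) : ℚ) - ((qc ((), 1) : ℕ) : ℚ)) / (((qc ((), 2) : ℕ) : ℚ) + 1) :=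
    (congrFun hqc ()).symm
  generalize hq0 : qc ((), 0) = q0 at hq
  generalize hq1 : qc ((), 1) = q1 at hq
  generalize hq2 : qc ((), 2) = q2 at hq
  -- the index set
  let N := (ι × Fin 3) ⊕ ((Fin n × Fin 3) ⊕ Unit)
  let gu : ι × Fin 3 → Fin 2 ⊕ N := fun p => inr (inl p)
  let gv : Fin n × Fin 3 → Fin 2 ⊕ N := fun p => inr (inr (inl p))
  let gi : Fin 2 ⊕ N := inr (inr (inr ()))
  let ga : (ι ⊕ Fin n) × Fin 3 → Fin 2 ⊕ N := fun p =>
    Sum.elim (fun a => gu (a, p.2)) (fun b => gv (b, p.2)) p.1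
  have ha := Dioph.reindex_dioph (Fin 2 ⊕ N) ga (Q2_QD hG)
  have hb := Dioph.reindex_dioph (Fin 2 ⊕ N) (Sum.elim inl gv) (G2_graph h)
  have hc := A5a_comp (hcut : Dioph _) (T4_F_dioph q0 q1 q2 gu gi)
  refine Dioph.ext (Dioph.ex_dioph (ha.inter (hb.inter hc))) fun w => ?_
  constructor
  · rintro ⟨t, hta, htb, htc⟩
    have hta' : dec (fun p => t (inl p)) ∈ R ∧ dec (fun p => t (inr (inl p))) ∈ D ∧
        κ (dec (fun p => t (inl p))) = φ (dec (fun p => t (inr (inl p)))) := hta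
    have htb' : dec (fun p => t (inr (inl p))) ∈ D ∧
        φ (dec (fun p => t (inr (inl p)))) = (w 0 : ℤ) - (w 1 : ℤ) := htb
    refine ⟨dec (fun p => t (inl p)), hta'.1, hta'.2.2.trans htb'.2, t (inr (inr ())), ?_⟩
    have htc' : dec (fun p => T4_F q0 q1 q2 gu gi p (Sum.elim w t)) ∈
        {z : ι ⊕ Fin 2 → ℚ | (fun i => z (inl i)) ∈ R ∧
          ((z (inr 0) : ℚ) : ℝ) < f (rl fun i => z (inl i)) ∧
          f (rl fun i => z (inl i)) < ((z (inr 1) : ℚ) : ℝ)} := htc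
    rw [T4_dec q0 q1 q2 gu gi _ q hq] at htc'
    obtain ⟨-, h1, h2⟩ := htc'
    constructor
    · refine lt_of_eq_of_lt ?_ h1
      simp [gi]
    · refine lt_of_lt_of_eq h2 ?_
      simp [gi]
  · rintro ⟨x, hx, hκ, i, hi1, hi2⟩
    obtain ⟨u, rfl⟩ := Q2_surj x
    obtain ⟨y, hy, hyk⟩ := h.surj (Set.mem_univ (κ (dec u)))
    obtain ⟨v, rfl⟩ := Q2_surj y
    refine ⟨Sum.elim u (Sum.elim v (fun _ => i)), ?_, ?_, ?_⟩
    · exact ⟨hx, hy, hyk.symm⟩
    · exact ⟨hy, hyk.trans hκ⟩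
    · show dec (fun p => T4_F q0 q1 q2 gu gi p (Sum.elim w (Sum.elim u (Sum.elim v (fun _ => i))))) ∈
        {z : ι ⊕ Fin 2 → ℚ | (fun i => z (inl i)) ∈ R ∧
          ((z (inr 0) : ℚ) : ℝ) < f (rl fun i => z (inl i)) ∧
          f (rl fun i => z (inl i)) < ((z (inr 1) : ℚ) : ℝ)}
      rw [T4_dec q0 q1 q2 gu gi _ q hq]
      refine ⟨hx, ?_, ?_⟩
      · refine lt_of_eq_of_lt ?_ hi1
        simp [gi]
      · refine lt_of_lt_of_eq hi2 ?_
        simp [gi]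

end H79.MZ
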