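import Pool.Agent.H79.MZ.T1
import Pool.Agent.H79.MZ.T4
import Pool.Agent.H79.MZ.Q4

/-!
# T5: continuous invariants of the interpreted integers

Suppose Mazur's conjecture.  `R` is Diophantine: `Q1_ex hG` (`h.surj`).  `T1_cover`, `T2_dense`, `T2_sub` give `q, i0`.  Let `W` be the set of `T4_W` and
`R' = {x ∈ R | ∃ w : Fin 2 → ℕ, κ x = w 0 - w 1 ∧ w ∈ W}`.  `R'` is Diophantine: `x ∈ R'` iff `∃ y : Fin n → ℚ`, `(x, y)` in the set of `hG` and `y` in the set of `Q4_sat` (`Q1_ex, Q1_inter, Q1_comp`).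
If `x ∈ R'` there is `x' ∈ R` with `κ x' = κ x` and `f (rl x')` in a window, so `f (rl x) = f (rl x')` is in a window.  If `x ∈ R` and `f (rl x)` is in window `i` then `x ∈ R'`
(`w = ![(κ x).toNat, (-κ x).toNat]`).  `T1_cover` for `R'` and `T2_gap` give the contradiction.
-/

open MvPolynomial Sum

namespace H79.MZ

variable {n : ℕ} {D : Set (Fin n → ℚ)} {φ : (Fin n → ℚ) → ℤ}

theorem T5_star (h : Interp D φ) {ι : Type} [Fintype ι] {R : Set (ι → ℚ)} {κ : (ι → ℚ) → ℤ}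
    (hG : QD {z : ι ⊕ Fin n → ℚ | (fun i => z (inl i)) ∈ R ∧ (fun i => z (inr i)) ∈ D ∧
      κ (fun i => z (inl i)) = φ (fun i => z (inr i))})
    (f : (ι → ℝ) → ℝ) (hf : Continuous f)
    (hcut : ZD {z : ι ⊕ Fin 2 → ℚ | (fun i => z (inl i)) ∈ R ∧ ((z (inr 0) : ℚ) : ℝ) < f (rl fun i => z (inl i)) ∧
      f (rl fun i => z (inl i)) < ((z (inr 1) : ℚ) : ℝ)})
    (hconst : ∀ x ∈ R, ∀ y ∈ R, κ x = κ y → f (rl x) = f (rl y))
    (hinf : ((fun x => f (rl x)) '' R).Infinite) : ¬ Mazur := by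
  intro hM
  have hR : QD R := by
    refine (congrArg QD ?_).mp (Q1_ex hG)
    ext x
    constructor
    · rintro ⟨w, hw1, hw2, hw3⟩
      exact hw1
    · intro hx
      obtain ⟨y, hy, hy2⟩ := h.surj (Set.mem_univ (κ x))
      exact ⟨y, hx, hy, hy2.symm⟩
  obtain ⟨N, C, hC1, hC2, hC3⟩ := T1_cover hM hR
  obtain ⟨q, β, hq, hd⟩ := T2_dense C hC1 hC2 hC3 f hf hinf
  obtain ⟨i0, hi0⟩ := T2_sub f q β hq hd
  have hW := T4_W h hG f hcut q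
  set W : Set (Fin 2 → ℕ) := {w : Fin 2 → ℕ | ∃ x ∈ R, κ x = (w 0 : ℤ) - (w 1 : ℤ) ∧
    ∃ i : ℕ, win q i (f (rl x))} with hWdef
  let R' : Set (ι → ℚ) := {x | x ∈ R ∧ ∃ w : Fin 2 → ℕ, κ x = (w 0 : ℤ) - (w 1 : ℤ) ∧ w ∈ W}
  have hR' : QD R' := by
    have h1 := Q1_ex (Q1_inter hG (Q1_comp (Q4_sat h hW) (fun i : Fin n => (inr i : ι ⊕ Fin n))))
    refine (congrArg QD ?_).mp h1
    ext x
    constructor
    · rintro ⟨y, ⟨hx, hy, hxy⟩, hy2, w, hw1, hw2⟩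
      have e1 : κ x = φ y := hxy
      have e2 : φ y = (w 0 : ℤ) - (w 1 : ℤ) := hw1
      exact ⟨hx, w, e1.trans e2, hw2⟩
    · rintro ⟨hx, w, hw1, hw2⟩
      obtain ⟨y, hy, hy2⟩ := h.surj (Set.mem_univ (κ x))
      refine ⟨y, ⟨hx, hy, hy2.symm⟩, hy, w, ?_, hw2⟩
      have e2 : φ y = (w 0 : ℤ) - (w 1 : ℤ) := hy2.trans hw1
      exact e2
  have hwin : ∀ x ∈ R', ∃ i : ℕ, win q i (f (rl x)) := by
    rintro x ⟨hx, w, hw1, x', hx', hw2, i, hi⟩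
    refine ⟨i, ?_⟩
    rw [hconst x hx x' hx' (hw1.trans hw2.symm)]
    exact hi
  obtain ⟨N', C', hD1, hD2, hD3⟩ := T1_cover hM hR'
  refine T2_gap C' hD1 hD2 hD3 f hf q hwin i0 fun i hi => ?_
  obtain ⟨x, hx, hxi⟩ := hi0 i hi
  refine ⟨x, ⟨hx, ![(κ x).toNat, (-κ x).toNat], ?_, ?_⟩, hxi⟩
  · simp only [Matrix.cons_val_zero, Matrix.cons_val_one]
    omega
  · refine ⟨x, hx, ?_, i, hxi⟩
    simp only [Matrix.cons_val_zero, Matrix.cons_val_one]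
    omega

end H79.MZ
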