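import Pool.Agent.H79.MZ.C1b
import Pool.Agent.H79.MZ.C2
import Pool.Agent.H79.MZ.T5

/-!
# C3: families separated by equations of bounded degree

* `C3_eval`: `eval y f = ∑ e : Fin m → Fin (d+1), coeff (e) f * nu d y e` for `f.totalDegree ≤ d` (`MvPolynomial.eval_eq'`: sum over the support; every exponent of a monomial in the support is `≤ totalDegree ≤ d`
  (`MvPolynomial.le_totalDegree`), so the support is contained in the image of the injective map `e ↦ Finsupp.equivFunOnFinite.symm (fun t => (e t : ℕ))`; the other terms have coefficient `0`;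
  `Finset.sum_subset`, `Finset.sum_map`/`sum_nbij`).
* `C3_eqs`: if `span (nu d '' Y) = span (nu d '' Y')` then `eqs d Y = eqs d Y'`: for `f` of degree `≤ d` the linear functional `v ↦ ∑ e, coeff (e) f * v e` vanishes on `nu d '' Y` iff it vanishes on the span.
* `C3_main`: suppose `Mazur`.  `N = Fin m → Fin (d + 1)`, `X k = nu d '' fam R D φ k`.  `C1b_main`: `hinf`: `X k` is nonempty iff the family member is; `hone`: the coordinate `e = 0` of `nu d y` is `1`; `hfin`: `C3_eqs` and `hsep`.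
  It gives `r, J, i0, e, B, s`.  Apply `T5_star` to `ι = IX m n r`, the set `Rs R D φ d J i0 e B`, `κ z = φ (fun t => z (inr (inr (inr t))))`, `f z = z (inr (inr (inl ())))` (continuous):
  - `hG`: `C2_QD` and `Q3_eq`/`h.eqv` with `Q1_comp`, `Q1_inter`;
  - `hcut`: `Q2_QD` of `C2_QD`, `Q2_lt` (twice), `Q2_inter`, `Q2_comp` (casts `ℚ → ℝ` preserve `<`);
  - if `z ∈ Rs`, `k = κ z`, then `y a = nu d (Y a) ∈ X k` and `Dat (X k) J y c`, so the scalar coordinate of `z` is `s k`; this gives `hconst`;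
  - `hinf`: every `s k` with `B² < k²` and `Dat (X k) J y c` is attained: `y a = nu d (Y a)` with `Y a ∈ fam R D φ k`, `x ∈ D` with `φ x = k` (`h.surj`); casts are injective.
-/

open MvPolynomial Sum

namespace H79.MZ

variable {n : ℕ} {D : Set (Fin n → ℚ)} {φ : (Fin n → ℚ) → ℤ}

/-- the exponent vector -/
noncomputable def C3_F {m d : ℕ} (e : Fin m → Fin (d + 1)) : Fin m →₀ ℕ :=
  Finsupp.equivFunOnFinite.symm (fun t => (e t : ℕ))

theorem C3_F_apply {m d : ℕ} (e : Fin m → Fin (d + 1)) (t : Fin m) : C3_F e t = (e t : ℕ) := rfl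

theorem C3_F_inj {m d : ℕ} : Function.Injective (C3_F (m := m) (d := d)) := by
  intro e e' h
  funext t
  have h1 := DFunLike.congr_fun h t
  rw [C3_F_apply, C3_F_apply] at h1
  exact Fin.ext h1

theorem C3_eval {m d : ℕ} (f : MvPolynomial (Fin m) ℚ) (hf : f.totalDegree ≤ d) : ∃ a : (Fin m → Fin (d + 1)) → ℚ,
    ∀ y : Fin m → ℚ, eval y f = ∑ e, a e * nu d y e := by
  classical
  refine ⟨fun e => coeff (C3_F e) f, fun y => ?_⟩
  have hsub : f.support ⊆ (Finset.univ : Finset (Fin m → Fin (d + 1))).image C3_F := by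
    intro s hs
    rw [Finset.mem_image]
    have h1 : ∀ t, s t < d + 1 := by
      intro t
      have h2 := le_totalDegree hs
      have h3 : s t ≤ s.sum fun _ e => e := by
        by_cases h0 : s t = 0
        · rw [h0]
          exact Nat.zero_le _
        · exact Finset.single_le_sum (f := fun t => s t) (fun _ _ => Nat.zero_le _)
            (Finsupp.mem_support_iff.2 h0)
      omega
    refine ⟨fun t => ⟨s t, h1 t⟩, Finset.mem_univ _, ?_⟩
    ext t
    rfl
  rw [MvPolynomial.eval_eq']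
  rw [Finset.sum_subset (f := fun s => coeff s f * ∏ i, y i ^ s i) hsub]
  · rw [Finset.sum_image (fun a _ b _ hab => C3_F_inj hab)]
    refine Finset.sum_congr rfl fun e _ => ?_
    rfl
  · intro s _ hs
    rw [MvPolynomial.notMem_support_iff.1 hs, zero_mul]

/-- a linear functional -/
def C3_L {N : Type} [Fintype N] (a : N → ℚ) : (N → ℚ) →ₗ[ℚ] ℚ where
  toFun v := ∑ e, a e * v e
  map_add' v w := by
    rw [← Finset.sum_add_distrib]
    refine Finset.sum_congr rfl fun e _ => ?_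
    rw [Pi.add_apply]
    ring
  map_smul' c v := by
    rw [RingHom.id_apply, smul_eq_mul, Finset.mul_sum]
    refine Finset.sum_congr rfl fun e _ => ?_
    rw [Pi.smul_apply, smul_eq_mul]
    ring

theorem C3_van {m d : ℕ} (f : MvPolynomial (Fin m) ℚ) (a : (Fin m → Fin (d + 1)) → ℚ)
    (ha : ∀ y : Fin m → ℚ, eval y f = ∑ e, a e * nu d y e) (Y : Set (Fin m → ℚ)) :
    (∀ y ∈ Y, eval y f = 0) ↔ Submodule.span ℚ (nu d '' Y) ≤ LinearMap.ker (C3_L a) := by
  rw [Submodule.span_le]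
  constructor
  · rintro h _ ⟨y, hy, rfl⟩
    have h1 := h y hy
    rw [ha] at h1
    exact h1
  · intro h y hy
    rw [ha]
    exact h ⟨y, hy, rfl⟩

theorem C3_eqs {m d : ℕ} (Y Y' : Set (Fin m → ℚ))
    (h : Submodule.span ℚ (nu d '' Y) = Submodule.span ℚ (nu d '' Y')) : eqs d Y = eqs d Y' := by
  ext f
  constructor
  · rintro ⟨hf, h1⟩
    obtain ⟨a, ha⟩ := C3_eval f hf
    exact ⟨hf, (C3_van f a ha Y').2 (h ▸ (C3_van f a ha Y).1 h1)⟩
  · rintro ⟨hf, h1⟩
    obtain ⟨a, ha⟩ := C3_eval f hf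
    exact ⟨hf, (C3_van f a ha Y).2 (h.symm ▸ (C3_van f a ha Y').1 h1)⟩

theorem C3_hG (h : Interp D φ) {m r : ℕ} {S : Set (IX m n r → ℚ)} (hS : QD S) :
    QD {z : IX m n r ⊕ Fin n → ℚ | (fun i => z (inl i)) ∈ S ∧
      ((fun t => z (inl (inr (inr (inr t))))) ∈ D ∧ (fun i => z (inr i)) ∈ D ∧
      φ (fun t => z (inl (inr (inr (inr t))))) = φ (fun i => z (inr i)))} := by
  have h1 := Q1_comp hS (fun i : IX m n r => (inl i : IX m n r ⊕ Fin n))
  have h2 := Q1_comp h.eqv (fun q : Fin 2 × Fin n =>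
    (![inl (inr (inr (inr q.2))), inr q.2] : Fin 2 → IX m n r ⊕ Fin n) q.1)
  exact Q1_inter h1 h2

theorem C3_span (h : Interp D φ) {m : ℕ} {R : Set (Fin m ⊕ Fin n → ℚ)} (hR : QD R) (d : ℕ)
    (hinf : {k : ℤ | (fam R D φ k).Nonempty}.Infinite)
    (hsep : ∀ k : ℤ, (fam R D φ k).Nonempty →
      {l : ℤ | Submodule.span ℚ (nu d '' fam R D φ l) = Submodule.span ℚ (nu d '' fam R D φ k)}.Finite) :
    ¬ Mazur := by
  obtain ⟨r, J, i0, e, B, s, hs, hsinf⟩ := C1b_main (N := Fin m → Fin (d + 1))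
    (fun k => nu d '' fam R D φ k)
    (by
      have h1 : {k : ℤ | (nu d '' fam R D φ k).Nonempty} = {k : ℤ | (fam R D φ k).Nonempty} := by
        ext k
        exact Set.image_nonempty
      rw [h1]
      exact hinf)
    (by
      rintro k _ ⟨y, hy, rfl⟩ h0
      have h1 := congrFun h0 (fun _ => 0)
      have h2 : nu d y (fun _ => 0) = 1 := by
        unfold nu
        simp
      rw [h2] at h1
      exact one_ne_zero h1)
    (by
      intro k hk
      exact hsep k (Set.image_nonempty.1 hk))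
  have hC2 := C2_QD h hR d J i0 e B
  have key : ∀ z ∈ Rs R D φ d J i0 e B, z (inr (inr (inl ()))) = s (φ (fun t => z (inr (inr (inr t))))) := by
    rintro z ⟨⟨-, h2⟩, h3, h4, h5⟩
    rw [h5]
    exact hs _ h2 (fun a => nu d (fun t => z (inl (a, t)))) (fun i a => z (inr (inl (i, a))))
      ⟨fun a => ⟨_, h3 a, rfl⟩, h4⟩
  refine T5_star h (ι := IX m n r) (R := Rs R D φ d J i0 e B)
    (κ := fun z => φ (fun t => z (inr (inr (inr t))))) ?_ (fun z => z (inr (inr (inl ()))))
    (continuous_apply _) ?_ ?_ ?_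
  · refine (congrArg QD ?_).mp (C3_hG h hC2)
    ext z
    constructor
    · rintro ⟨h1, h2, h3, h4⟩
      exact ⟨h1, h3, h4⟩
    · rintro ⟨h1, h3, h4⟩
      exact ⟨h1, h1.1.1, h3, h4⟩
  · have h1 := Q2_QD (Q1_comp hC2 (fun i : IX m n r => (inl i : IX m n r ⊕ Fin 2)))
    have h2 := Q2_lt (inr 0 : IX m n r ⊕ Fin 2) (inl (inr (inr (inl ()))))
    have h3 := Q2_lt (inl (inr (inr (inl ()))) : IX m n r ⊕ Fin 2) (inr 1)
    refine (congrArg ZD ?_).mp (Q2_inter h1 (Q2_inter h2 h3))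
    ext z
    constructor
    · rintro ⟨h1, h2, h3⟩
      exact ⟨h1, Rat.cast_lt.2 h2, Rat.cast_lt.2 h3⟩
    · rintro ⟨h1, h2, h3⟩
      exact ⟨h1, Rat.cast_lt.1 h2, Rat.cast_lt.1 h3⟩
  · intro x hx y hy hxy
    have e1 := key x hx
    have e2 := key y hy
    have e3 : x (inr (inr (inl ()))) = y (inr (inr (inl ()))) := by
      rw [e1, e2]
      exact congrArg s hxy
    exact congrArg (fun q : ℚ => (q : ℝ)) e3
  · have h1 := hsinf.image (f := fun q : ℚ => (q : ℝ)) (Rat.cast_injective.injOn)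
    refine h1.mono ?_
    rintro _ ⟨_, ⟨k, ⟨hB, y, c, hyc⟩, rfl⟩, rfl⟩
    obtain ⟨x, hx, hxk⟩ := h.surj (Set.mem_univ k)
    have hY : ∀ a, ∃ Y ∈ fam R D φ k, nu d Y = y a := hyc.1
    choose Y hY1 hY2 using hY
    refine ⟨Sum.elim (fun p => Y p.1 p.2) (Sum.elim (fun p => c p.1 p.2)
      (Sum.elim (fun _ => s k) x)), ⟨⟨hx, ?_⟩, ?_, ?_, ?_⟩, rfl⟩
    · change (B : ℤ) ^ 2 < φ x ^ 2
      rw [hxk]
      exact hB
    · intro a
      change Y a ∈ fam R D φ (φ x)
      rw [hxk]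
      exact hY1 a
    · intro i l
      change ∑ a, c i a * nu d (Y a) (J l) = if i = l then 1 else 0
      simp only [hY2]
      exact hyc.2 i l
    · change s k = ∑ a, c i0 a * nu d (Y a) e
      simp only [hY2]
      exact (hs k hB y c hyc).symm

theorem C3_main (h : Interp D φ) {m : ℕ} {R : Set (Fin m ⊕ Fin n → ℚ)} (hR : QD R) (d : ℕ)
    (hinf : {k : ℤ | (fam R D φ k).Nonempty}.Infinite)
    (hsep : ∀ k : ℤ, (fam R D φ k).Nonempty → {l : ℤ | eqs d (fam R D φ l) = eqs d (fam R D φ k)}.Finite) :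
    ¬ Mazur := by
  refine C3_span h hR d hinf fun k hk => (hsep k hk).subset fun l hl => ?_
  exact C3_eqs _ _ hl

end H79.MZ
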