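import Pool.Agent.H79.MZ.C3

/-!
# C4: equivalence relations which are Boolean combinations of polynomial equations

`T x y = {i | g i (x, y) = 0} ⊆ Fin s`; `φ x = φ y ↔ T x y ∈ P` for `x, y ∈ D`.  Let `δ` be an upper bound of the total degrees of the `g i`, `d = 2 ^ s * δ`.
* `C4_poly`: for `x : Fin n → ℚ` fixed and a family `𝒜` of subsets of `Fin s` and a choice `c A ∈ Fin s` for `A ∈ 𝒜`, the polynomial `∏_{A ∈ 𝒜} g (c A) (x, ·)` has total degree `≤ d` (at most `2 ^ s` factors;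
  `g i (x, ·) = bind₁/aeval (Sum.elim (fun t => C (x t)) X) (g i)`, its total degree is at most that of `g i`).
* `C4_sep`: if `k ≠ l` then `eqs d (cls k) ≠ eqs d (cls l)`, `cls k = {y ∈ D | φ y = k}` (nonempty, `h.surj`).  Fix `x` with `x ∈ D`, `φ x = k`.  Let `𝒫k = {T x y | y ∈ cls k} ⊆ P`, `𝒫l = {T x y | y ∈ cls l} ⊆ Pᶜ`, both
  nonempty.  Suppose `eqs d` agree.  Claim 1: every `b ∈ 𝒫l` contains some `a ∈ 𝒫k`: let `b = T x y0`, `y0 ∈ cls l`; otherwise choose for every `a ∈ 𝒫k` an element `c a ∈ a \ b`; the polynomial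
  `q = ∏_{a ∈ 𝒫k} g (c a) (x, ·)` vanishes on `cls k` (if `y ∈ cls k`, the factor of `a = T x y` vanishes at `y`) but not at `y0`.  Claim 2: in the same way every `a ∈ 𝒫k` contains some `b ∈ 𝒫l`
  (with the same `x`).  Take a minimal element of the finite nonempty set `𝒫k ∪ 𝒫l` (inclusion): by the claims it lies in `𝒫k ∩ 𝒫l`, which is empty.
* `C4_main`: `C3_main` with `m = n`, `R = {(y, x) | x, y ∈ D, φ x = φ y}` (`h.eqv`, `Q1_comp`); `fam R D φ k = cls k`, nonempty for all `k`; the fibres are singletons by `C4_sep`.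
-/

open MvPolynomial Sum

namespace H79.MZ

variable {n : ℕ} {D : Set (Fin n → ℚ)} {φ : (Fin n → ℚ) → ℤ}

theorem C4_deg {σ τ : Type} (f : σ → MvPolynomial τ ℚ) (hf : ∀ i, (f i).totalDegree ≤ 1)
    (p : MvPolynomial σ ℚ) : (bind₁ f p).totalDegree ≤ p.totalDegree := by
  classical
  have h1 : bind₁ f p = ∑ m ∈ p.support, C (coeff m p) * ∏ i ∈ m.support, f i ^ m i := by
    conv_lhs => rw [p.as_sum]
    rw [map_sum]
    refine Finset.sum_congr rfl fun m _ => ?_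
    rw [bind₁_monomial]
  rw [h1]
  refine totalDegree_finsetSum_le fun m hm => ?_
  refine (totalDegree_mul _ _).trans ?_
  rw [totalDegree_C, zero_add]
  refine (totalDegree_finsetProd _ _).trans ?_
  have h2 : ∑ i ∈ m.support, (f i ^ m i).totalDegree ≤ ∑ i ∈ m.support, m i := by
    refine Finset.sum_le_sum fun i _ => ?_
    refine (totalDegree_pow _ _).trans ?_
    exact (Nat.mul_le_mul_left _ (hf i)).trans (by rw [mul_one])
  exact h2.trans (le_totalDegree hm)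

theorem C4_poly {n s : ℕ} (g : Fin s → MvPolynomial (Fin n ⊕ Fin n) ℚ) (δ : ℕ) (hδ : ∀ i, (g i).totalDegree ≤ δ)
    (x : Fin n → ℚ) (A : Finset (Finset (Fin s))) (c : Finset (Fin s) → Fin s) :
    ∃ q : MvPolynomial (Fin n) ℚ, q.totalDegree ≤ 2 ^ s * δ ∧
      ∀ y : Fin n → ℚ, eval y q = ∏ a ∈ A, eval (Sum.elim x y) (g (c a)) := by
  classical
  refine ⟨∏ a ∈ A, bind₁ (Sum.elim (fun t => C (x t)) X) (g (c a)), ?_, fun y => ?_⟩
  · refine (totalDegree_finsetProd _ _).trans ?_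
    have h1 : ∑ a ∈ A, (bind₁ (Sum.elim (fun t => C (x t)) X) (g (c a)) :
        MvPolynomial (Fin n) ℚ).totalDegree ≤ ∑ _a ∈ A, δ := by
      refine Finset.sum_le_sum fun a _ => ?_
      refine (C4_deg _ ?_ _).trans (hδ _)
      rintro (t | t)
      · rw [Sum.elim_inl, totalDegree_C]
        exact Nat.zero_le _
      · rw [Sum.elim_inr, totalDegree_X]
    refine h1.trans ?_
    rw [Finset.sum_const, smul_eq_mul]
    refine Nat.mul_le_mul_right _ ?_
    have h2 := Finset.card_le_univ A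
    rw [Fintype.card_finset, Fintype.card_fin] at h2
    exact h2
  · rw [map_prod]
    refine Finset.prod_congr rfl fun a _ => ?_
    rw [Q1_eval_bind]
    congr 1
    congr 1
    funext t
    rcases t with t | t
    · simp only [Sum.elim_inl, eval_C]
    · simp only [Sum.elim_inr, eval_X]

theorem C4_claim {n s : ℕ} (g : Fin s → MvPolynomial (Fin n ⊕ Fin n) ℚ) (δ : ℕ)
    (hδ : ∀ i, (g i).totalDegree ≤ δ) (x : Fin n → ℚ) (Y Y' : Set (Fin n → ℚ)) (hY : Y.Nonempty)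
    (he : eqs (2 ^ s * δ) Y = eqs (2 ^ s * δ) Y') (y0 : Fin n → ℚ) (hy0 : y0 ∈ Y') :
    ∃ y ∈ Y, {i | eval (Sum.elim x y) (g i) = 0} ⊆ {i | eval (Sum.elim x y0) (g i) = 0} := by
  classical
  by_contra hcon
  have hcon' : ∀ y ∈ Y, ∃ i, eval (Sum.elim x y) (g i) = 0 ∧ eval (Sum.elim x y0) (g i) ≠ 0 := by
    intro y hy
    by_contra h
    push Not at h
    exact hcon ⟨y, hy, fun i hi => h i hi⟩
  obtain ⟨y1, hy1⟩ := hY
  obtain ⟨i0, -, -⟩ := hcon' y1 hy1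
  let c : Finset (Fin s) → Fin s := fun a =>
    if h : ∃ i ∈ a, eval (Sum.elim x y0) (g i) ≠ 0 then h.choose else i0
  have hc : ∀ a : Finset (Fin s), (∃ i ∈ a, eval (Sum.elim x y0) (g i) ≠ 0) →
      c a ∈ a ∧ eval (Sum.elim x y0) (g (c a)) ≠ 0 := by
    intro a h
    have h1 : c a = h.choose := dif_pos h
    rw [h1]
    exact h.choose_spec
  let T : (Fin n → ℚ) → Finset (Fin s) := fun y =>
    Finset.univ.filter (fun i => eval (Sum.elim x y) (g i) = 0)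
  have hT : ∀ y i, i ∈ T y ↔ eval (Sum.elim x y) (g i) = 0 := by
    intro y i
    simp [T]
  let A : Finset (Finset (Fin s)) := Finset.univ.filter (fun a => ∃ y ∈ Y, a = T y)
  obtain ⟨q, hq1, hq2⟩ := C4_poly g δ hδ x A c
  have hqY : q ∈ eqs (2 ^ s * δ) Y := by
    refine ⟨hq1, fun y hy => ?_⟩
    rw [hq2 y]
    have hmem : T y ∈ A := Finset.mem_filter.2 ⟨Finset.mem_univ _, y, hy, rfl⟩
    refine Finset.prod_eq_zero hmem ?_
    obtain ⟨i, hi1, hi2⟩ := hcon' y hy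
    exact (hT y _).1 (hc (T y) ⟨i, (hT y i).2 hi1, hi2⟩).1
  rw [he] at hqY
  have h0 := hqY.2 y0 hy0
  rw [hq2 y0, Finset.prod_eq_zero_iff] at h0
  obtain ⟨a, ha, h0⟩ := h0
  obtain ⟨-, y, hy, rfl⟩ := Finset.mem_filter.1 ha
  obtain ⟨i, hi1, hi2⟩ := hcon' y hy
  exact (hc (T y) ⟨i, (hT y i).2 hi1, hi2⟩).2 h0

theorem C4_sep (hD : Set.SurjOn φ D Set.univ) (s : ℕ) (g : Fin s → MvPolynomial (Fin n ⊕ Fin n) ℚ)
    (P : Set (Set (Fin s))) (hE : ∀ x ∈ D, ∀ y ∈ D, (φ x = φ y ↔ {i | eval (Sum.elim x y) (g i) = 0} ∈ P)) :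
    ∃ d : ℕ, ∀ k l : ℤ, eqs d {y | y ∈ D ∧ φ y = k} = eqs d {y | y ∈ D ∧ φ y = l} → k = l := by
  classical
  refine ⟨2 ^ s * Finset.univ.sup (fun i => (g i).totalDegree), fun k l he => ?_⟩
  by_contra hkl
  have hδ : ∀ i, (g i).totalDegree ≤ Finset.univ.sup (fun i => (g i).totalDegree) :=
    fun i => Finset.le_sup (f := fun i => (g i).totalDegree) (Finset.mem_univ i)
  obtain ⟨x, hx, hxk⟩ := hD (Set.mem_univ k)
  obtain ⟨x', hx', hxl⟩ := hD (Set.mem_univ l)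
  have hk : ∀ y ∈ {y | y ∈ D ∧ φ y = k}, {i | eval (Sum.elim x y) (g i) = 0} ∈ P := by
    rintro y ⟨hy, hyk⟩
    exact (hE x hx y hy).1 (by rw [hxk, hyk])
  have hl : ∀ y ∈ {y | y ∈ D ∧ φ y = l}, {i | eval (Sum.elim x y) (g i) = 0} ∉ P := by
    rintro y ⟨hy, hyl⟩ h
    have h1 := (hE x hx y hy).2 h
    rw [hxk, hyl] at h1
    exact hkl h1
  have hnk : {y | y ∈ D ∧ φ y = k}.Nonempty := ⟨x, hx, hxk⟩
  have hnl : {y | y ∈ D ∧ φ y = l}.Nonempty := ⟨x', hx', hxl⟩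
  obtain ⟨y, hy, hmin⟩ := (measure fun y : Fin n → ℚ =>
    {i | eval (Sum.elim x y) (g i) = 0}.ncard).wf.has_min
      ({y | y ∈ D ∧ φ y = k} ∪ {y | y ∈ D ∧ φ y = l}) (hnk.inl)
  have hfin : ∀ z, z ∈ {y | y ∈ D ∧ φ y = k} ∪ {y | y ∈ D ∧ φ y = l} →
      {i | eval (Sum.elim x z) (g i) = 0} ⊆ {i | eval (Sum.elim x y) (g i) = 0} →
      {i | eval (Sum.elim x z) (g i) = 0} = {i | eval (Sum.elim x y) (g i) = 0} := by
    intro z hz hsub
    have h1 := hmin z hz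
    refine Set.eq_of_subset_of_ncard_le hsub ?_ (Set.toFinite _)
    exact not_lt.1 h1
  rcases hy with hy | hy
  · obtain ⟨z, hz, hsub⟩ := C4_claim g _ hδ x _ _ hnl he.symm y hy
    have h1 := hfin z (Or.inr hz) hsub
    exact hl z hz (by rw [h1]; exact hk y hy)
  · obtain ⟨z, hz, hsub⟩ := C4_claim g _ hδ x _ _ hnk he y hy
    have h1 := hfin z (Or.inl hz) hsub
    exact hl y hy (by rw [← h1]; exact hk z hz)

theorem C4_main (h : Interp D φ) (s : ℕ) (g : Fin s → MvPolynomial (Fin n ⊕ Fin n) ℚ)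
    (P : Set (Set (Fin s))) (hE : ∀ x ∈ D, ∀ y ∈ D, (φ x = φ y ↔ {i | eval (Sum.elim x y) (g i) = 0} ∈ P)) :
    ¬ Mazur := by
  obtain ⟨d, hd⟩ := C4_sep h.surj s g P hE
  have hR : QD {w : Fin n ⊕ Fin n → ℚ | (fun t => w (inl t)) ∈ D ∧ (fun t => w (inr t)) ∈ D ∧
      φ (fun t => w (inl t)) = φ (fun t => w (inr t))} :=
    Q1_comp h.eqv (fun p : Fin 2 × Fin n => (![inl p.2, inr p.2] : Fin 2 → Fin n ⊕ Fin n) p.1)
  have hfam : ∀ k, fam {w : Fin n ⊕ Fin n → ℚ | (fun t => w (inl t)) ∈ D ∧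
      (fun t => w (inr t)) ∈ D ∧ φ (fun t => w (inl t)) = φ (fun t => w (inr t))} D φ k =
      {y | y ∈ D ∧ φ y = k} := by
    intro k
    ext y
    constructor
    · rintro ⟨x, hx, hxk, h1, h2, h3⟩
      exact ⟨h1, h3.trans hxk⟩
    · rintro ⟨hy, hyk⟩
      exact ⟨y, hy, hyk, hy, hy, rfl⟩
  refine C3_main h hR d ?_ ?_
  · have h1 : {k : ℤ | (fam {w : Fin n ⊕ Fin n → ℚ | (fun t => w (inl t)) ∈ D ∧
        (fun t => w (inr t)) ∈ D ∧ φ (fun t => w (inl t)) = φ (fun t => w (inr t))} D φ k).Nonempty} =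
        Set.univ := by
      rw [Set.eq_univ_iff_forall]
      intro k
      obtain ⟨x, hx, hxk⟩ := h.surj (Set.mem_univ k)
      refine ⟨x, ?_⟩
      rw [hfam]
      exact ⟨hx, hxk⟩
    rw [h1]
    exact Set.infinite_univ
  · intro k _
    refine (Set.finite_singleton k).subset ?_
    intro l hl
    have h2 : eqs d (fam {w : Fin n ⊕ Fin n → ℚ | (fun t => w (inl t)) ∈ D ∧
        (fun t => w (inr t)) ∈ D ∧ φ (fun t => w (inl t)) = φ (fun t => w (inr t))} D φ l) =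
        eqs d (fam {w : Fin n ⊕ Fin n → ℚ | (fun t => w (inl t)) ∈ D ∧
        (fun t => w (inr t)) ∈ D ∧ φ (fun t => w (inl t)) = φ (fun t => w (inr t))} D φ k) := hl
    rw [hfam, hfam] at h2
    exact hd l k h2

end H79.MZ
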