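import Pool.Agent.H79.MZ.C3

/-!
# E1: attached sets

`Att D φ R κ`: the relation `x ∈ R, y ∈ D, κ x = φ y` is Diophantine.
* `E1_R`: `Q1_ex` (`h.surj`).
* `E1_sub`: intersection with `Q1_comp hQ inl`.
* `E1_ker`: `∃ w : Fin n → ℚ` with `(z ∘ F, w)` and `(z ∘ G, w)` in the relation (`Q1_ex`, `Q1_comp` twice, `Q1_inter`; `h.surj`).
* `E1_gt`: `∃ w`, `(x, w)` in the relation and `w` in the set of `Q4_gt`.
* `E1_fam`: unfold, `h.surj`.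
* `E1_lin`: index type `Fin m ⊕ ((Fin r × Fin m) ⊕ (Fin p × Fin r))`: `Q1_ex` with new variables `(Fin r × Fin m) ⊕ (Fin p × Fin r)`; for each `a` the condition `y a ∈ R ∧ x ∈ R ∧ κ (y a) = κ x` is `E1_ker` (`Q1_all`), also
  `x ∈ R` (`E1_R`, for `r = 0`); for each `i, t` a polynomial equation (`Q1_poly`, `Q1_all`) with the polynomial
  `∑ a, X (inr (inr (i, a))) * ∏ j, X (inr (inl (a, j))) ^ (J t j) - C (b i t)`.
-/

open MvPolynomial Sum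

namespace H79.MZ

/-- `κ : R → ℤ` is a Diophantine map to the interpreted integers -/
def Att {n : ℕ} (D : Set (Fin n → ℚ)) (φ : (Fin n → ℚ) → ℤ) {m : ℕ} (R : Set (Fin m → ℚ))
    (κ : (Fin m → ℚ) → ℤ) : Prop :=
  QD {z : Fin m ⊕ Fin n → ℚ | (fun i => z (inl i)) ∈ R ∧ (fun i => z (inr i)) ∈ D ∧
    κ (fun i => z (inl i)) = φ (fun i => z (inr i))}

/-- the fibre of `κ` over `k` -/
def fib {m : ℕ} (R : Set (Fin m → ℚ)) (κ : (Fin m → ℚ) → ℤ) (k : ℤ) : Set (Fin m → ℚ) := {x | x ∈ R ∧ κ x = k}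

variable {n : ℕ} {D : Set (Fin n → ℚ)} {φ : (Fin n → ℚ) → ℤ} {m : ℕ} {R : Set (Fin m → ℚ)} {κ : (Fin m → ℚ) → ℤ}

theorem E1_R (h : Interp D φ) (hA : Att D φ R κ) : QD R := by
  refine Q3_congr (fun x => ?_) (Q1_ex hA)
  constructor
  · intro hx
    obtain ⟨w, hw, hk⟩ := h.surj (Set.mem_univ (κ x))
    exact ⟨w, hx, hw, hk.symm⟩
  · rintro ⟨w, hw⟩
    exact hw.1

theorem E1_sub (hA : Att D φ R κ) {Q : Set (Fin m → ℚ)} (hQ : QD Q) (hQR : Q ⊆ R) : Att D φ Q κ := by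
  refine Q3_congr (fun z => ?_) (Q1_inter hA (Q1_comp hQ (fun i : Fin m => (inl i : Fin m ⊕ Fin n))))
  constructor
  · rintro ⟨h1, h2, h3⟩
    exact ⟨⟨hQR h1, h2, h3⟩, h1⟩
  · rintro ⟨⟨_, h2, h3⟩, h1⟩
    exact ⟨h1, h2, h3⟩

theorem E1_ker (h : Interp D φ) (hA : Att D φ R κ) {ι : Type} (F G : Fin m → ι) :
    QD {z : ι → ℚ | (fun i => z (F i)) ∈ R ∧ (fun i => z (G i)) ∈ R ∧ κ (fun i => z (F i)) = κ (fun i => z (G i))} := by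
  refine Q3_congr (fun z => ?_) (Q1_ex (ι := ι) (κ := Fin n) (Q1_inter
    (Q1_comp hA (Sum.elim (fun i => (inl (F i) : ι ⊕ Fin n)) (fun j => inr j)))
    (Q1_comp hA (Sum.elim (fun i => (inl (G i) : ι ⊕ Fin n)) (fun j => inr j)))))
  constructor
  · rintro ⟨h1, h2, h3⟩
    obtain ⟨w, hw, hk⟩ := h.surj (Set.mem_univ (κ fun i => z (F i)))
    exact ⟨w, ⟨h1, hw, hk.symm⟩, ⟨h2, hw, h3.symm.trans hk.symm⟩⟩
  · rintro ⟨w, ⟨h1, _, h2⟩, ⟨h3, _, h4⟩⟩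
    exact ⟨h1, h3, h2.trans h4.symm⟩

theorem E1_gt (h : Interp D φ) (hA : Att D φ R κ) (B : ℕ) : QD {x | x ∈ R ∧ (B : ℤ) ^ 2 < κ x ^ 2} := by
  refine Q3_congr (fun x => ?_) (Q1_ex (Q1_inter hA
    (Q1_comp (Q4_gt h B) (fun i : Fin n => (inr i : Fin m ⊕ Fin n)))))
  constructor
  · rintro ⟨hx, hB⟩
    obtain ⟨w, hw, hk⟩ := h.surj (Set.mem_univ (κ x))
    refine ⟨w, ⟨hx, hw, hk.symm⟩, ⟨hw, ?_⟩⟩
    show (B : ℤ) ^ 2 < φ w ^ 2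
    rw [hk]
    exact hB
  · rintro ⟨w, ⟨hx, hw, hk⟩, ⟨_, hB⟩⟩
    refine ⟨hx, ?_⟩
    have hk' : κ x = φ w := hk
    rw [hk']
    exact hB

theorem E1_fam (h : Interp D φ) (k : ℤ) :
    fam {z : Fin m ⊕ Fin n → ℚ | (fun i => z (inl i)) ∈ R ∧ (fun i => z (inr i)) ∈ D ∧
      κ (fun i => z (inl i)) = φ (fun i => z (inr i))} D φ k = fib R κ k := by
  ext y
  constructor
  · rintro ⟨x, _, hk, h1, _, h3⟩
    exact ⟨h1, h3.trans hk⟩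
  · rintro ⟨h1, h2⟩
    obtain ⟨w, hw, hk⟩ := h.surj (Set.mem_univ k)
    exact ⟨w, hw, hk, h1, hw, h2.trans hk.symm⟩

theorem E1_lin (h : Interp D φ) (hA : Att D φ R κ) (d p r : ℕ) {τ : Type} [Fintype τ] (J : τ → Fin m → Fin (d + 1))
    (b : Fin p → τ → ℚ) :
    QD {x | x ∈ R ∧ ∃ (y : Fin r → Fin m → ℚ) (c : Fin p → Fin r → ℚ), (∀ a, y a ∈ R ∧ κ (y a) = κ x) ∧
      ∀ i t, ∑ a, c i a * nu d (y a) (J t) = b i t} := by
  have hev : ∀ (i : Fin p) (t : τ) (z : Fin m ⊕ ((Fin r × Fin m) ⊕ (Fin p × Fin r)) → ℚ),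
      eval z (∑ a : Fin r, X (inr (inr (i, a))) * ∏ j : Fin m, X (inr (inl (a, j))) ^ (J t j : ℕ) -
        C (b i t)) = 0 ↔
      ∑ a, z (inr (inr (i, a))) * nu d (fun j => z (inr (inl (a, j)))) (J t) = b i t := by
    intro i t z
    rw [map_sub, map_sum, eval_C, sub_eq_zero]
    have h1 : ∀ a : Fin r, eval z (X (inr (inr (i, a))) * ∏ j : Fin m, X (inr (inl (a, j))) ^ (J t j : ℕ)) =
        z (inr (inr (i, a))) * nu d (fun j => z (inr (inl (a, j)))) (J t) := by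
      intro a
      rw [map_mul, map_prod, eval_X]
      simp only [map_pow, eval_X]
      rfl
    simp only [h1]
  have hS1 : QD {z : Fin m ⊕ ((Fin r × Fin m) ⊕ (Fin p × Fin r)) → ℚ | (fun i => z (inl i)) ∈ R} :=
    Q1_comp (E1_R h hA) (fun i : Fin m => (inl i : Fin m ⊕ ((Fin r × Fin m) ⊕ (Fin p × Fin r))))
  have hS2 : QD {z : Fin m ⊕ ((Fin r × Fin m) ⊕ (Fin p × Fin r)) → ℚ | ∀ a : Fin r, z ∈
      {z : Fin m ⊕ ((Fin r × Fin m) ⊕ (Fin p × Fin r)) → ℚ | (fun i => z (inr (inl (a, i)))) ∈ R ∧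
        (fun i => z (inl i)) ∈ R ∧ κ (fun i => z (inr (inl (a, i)))) = κ (fun i => z (inl i))}} :=
    Q1_all (fun a => E1_ker h hA
      (fun i : Fin m => (inr (inl (a, i)) : Fin m ⊕ ((Fin r × Fin m) ⊕ (Fin p × Fin r))))
      (fun i : Fin m => (inl i : Fin m ⊕ ((Fin r × Fin m) ⊕ (Fin p × Fin r)))))
  have hS3 : QD {z : Fin m ⊕ ((Fin r × Fin m) ⊕ (Fin p × Fin r)) → ℚ | ∀ i : Fin p, z ∈
      {z : Fin m ⊕ ((Fin r × Fin m) ⊕ (Fin p × Fin r)) → ℚ | ∀ t : τ, z ∈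
        {z : Fin m ⊕ ((Fin r × Fin m) ⊕ (Fin p × Fin r)) → ℚ |
          eval z (∑ a : Fin r, X (inr (inr (i, a))) * ∏ j : Fin m, X (inr (inl (a, j))) ^ (J t j : ℕ) -
            C (b i t)) = 0}}} :=
    Q1_all (fun i => Q1_all (fun t => Q1_poly _))
  refine Q3_congr (fun x => ?_) (Q1_ex (Q1_inter hS1 (Q1_inter hS2 hS3)))
  constructor
  · rintro ⟨hx, y, c, h1, h2⟩
    refine ⟨Sum.elim (fun q => y q.1 q.2) (fun q => c q.1 q.2), hx, fun a => ⟨(h1 a).1, hx, (h1 a).2⟩,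
      fun i t => (hev i t _).2 (h2 i t)⟩
  · rintro ⟨w, hx, h1, h2⟩
    exact ⟨hx, fun a j => w (inl (a, j)), fun i a => w (inr (i, a)), fun a => ⟨(h1 a).1, (h1 a).2.2⟩,
      fun i t => (hev i t _).1 (h2 i t)⟩

end H79.MZ
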