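import Pool.Agent.H79.MZ.E1

/-!
# E2a: restriction to fibres with the same span

`N = Fin m → Fin (d + 1)`, `S k = span (nu d '' fib R κ k)`.
`E2a_one` is step 1 (with the extra hypothesis `1 ≤ r`: it is false for `r = 0`, `R = ∅`); `E2a_two` is steps 2 and 3 (there the set called `R1` below is the `R` of the statement, and `hf`, `hinf` are what step 1 has proved).
1. For `k` in the infinite set `K = {k | B² < k², r ≤ finrank (S k)}` we have `finrank (S k) = r` (`hB`), and `C1a_exists` gives `J : Fin r → N` and a `Dat`.  The type `Fin r → N` is finite, so one `J` works for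
   infinitely many `k ∈ K`.  Let `R1 = {x ∈ R | B² < (κ x)² ∧ ∃ y c, (∀ a, y a ∈ R ∧ κ (y a) = κ x) ∧ ∀ i l, ∑ a, c i a * nu d (y a) (J l) = if i = l then 1 else 0}`; it is Diophantine (`E1_gt`, `E1_lin` with
   `τ = Fin r`, `Q1_inter`), `κ '' R1` is infinite, for `k ∈ κ '' R1` we have `fib R1 κ k = fib R κ k` and `finrank (S k) = r` (`≥` by `C1a_indep`: `r` linearly independent vectors in `S k`, `≤` by `hB`).
2. `C3_span` for the relation of `E1_sub hA` (i.e. `R1`) and Mazur's conjecture (`E1_fam`; `{k | (fib R1 κ k).Nonempty} = κ '' R1` infinite): there is `k0` with `fib R1 κ k0` nonempty and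
   `{l | span (nu d '' fib R1 κ l) = T}` infinite, `T = span (nu d '' fib R1 κ k0)`, `finrank T = r`.
3. `R2 = {x ∈ R1 | span (nu d '' fib R1 κ (κ x)) = T}`.  With a basis `b : Fin r → (N → ℚ)` of `T` (`finBasisOfFinrankEq` or `Submodule.exists_fun_fin_finrank_span_eq`),
   `R2 = {x ∈ R1 | ∃ y c, (∀ a, y a ∈ R1 ∧ κ (y a) = κ x) ∧ ∀ i e, ∑ a, c i a * nu d (y a) e = b i e}` (`E1_lin` with `τ = N`, `J = id`): `⊇`: `T ≤ span (nu d '' fib R1 κ (κ x))` and both have `finrank` `r`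
   (`Submodule.eq_of_le_of_finrank_eq`); `⊆`: `Submodule.exists_fun_fin_finrank_span_eq` gives `r` points of `nu d '' fib R1 κ (κ x)` spanning `T`, and every `b i` is a combination.
   `κ '' R2` contains the infinite set of 2 (for such `l` the fibre is nonempty, as `finrank T = r ≥ 1`).  For `k ∈ κ '' R2`: `fib R2 κ k = fib R1 κ k`.  So `span (nu d '' fib R2 κ (κ x)) = T` for `x ∈ R2`, and
   `span (nu d '' R2) = T`.
-/

open MvPolynomial Sum

namespace H79.MZ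

variable {n : ℕ} {D : Set (Fin n → ℚ)} {φ : (Fin n → ℚ) → ℤ} {m : ℕ} {R : Set (Fin m → ℚ)} {κ : (Fin m → ℚ) → ℤ}

theorem E2a_rank {N : Type} [Fintype N] {r : ℕ} {X : Set (N → ℚ)} {J : Fin r → N} {y : Fin r → N → ℚ}
    {c : Fin r → Fin r → ℚ} (h : Dat X J y c) (hr : Module.finrank ℚ (Submodule.span ℚ X) ≤ r) :
    Module.finrank ℚ (Submodule.span ℚ X) = r := by
  rw [← C1a_span h hr, finrank_span_eq_card (C1a_indep h), Fintype.card_fin]

theorem E2a_fun {M : Type} [AddCommGroup M] [Module ℚ M] (s : Set M) {r : ℕ}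
    (hs : Module.finrank ℚ (Submodule.span ℚ s) = r)
    (hf : Module.Finite ℚ (Submodule.span ℚ s)) :
    ∃ f : Fin r → M, (∀ i, f i ∈ s) ∧ Submodule.span ℚ (Set.range f) = Submodule.span ℚ s := by
  subst hs
  obtain ⟨f, h1, h2, -⟩ := Submodule.exists_fun_fin_finrank_span_eq ℚ s
  exact ⟨f, h1, h2⟩

theorem E2a_lin_iff (d : ℕ) {r : ℕ} (J : Fin r → Fin m → Fin (d + 1)) (x : Fin m → ℚ) :
    (∃ (y : Fin r → Fin m → ℚ) (c : Fin r → Fin r → ℚ), (∀ a, y a ∈ R ∧ κ (y a) = κ x) ∧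
      ∀ i t, ∑ a, c i a * nu d (y a) (J t) = if i = t then 1 else 0) ↔
    ∃ y c, Dat (nu d '' fib R κ (κ x)) J y c := by
  constructor
  · rintro ⟨y, c, h1, h2⟩
    exact ⟨fun a => nu d (y a), c, fun a => ⟨y a, h1 a, rfl⟩, h2⟩
  · rintro ⟨y, c, h1, h2⟩
    choose Y hY1 hY2 using h1
    refine ⟨Y, c, fun a => hY1 a, fun i t => ?_⟩
    rw [← h2 i t]
    refine Finset.sum_congr rfl fun a _ => ?_
    rw [hY2]

theorem E2a_one (h : Interp D φ) (hA : Att D φ R κ) (d r B : ℕ) (hr : 1 ≤ r)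
    (hB : ∀ k : ℤ, (B : ℤ) ^ 2 < k ^ 2 → Module.finrank ℚ (Submodule.span ℚ (nu d '' fib R κ k)) ≤ r)
    (hinf : {k : ℤ | r ≤ Module.finrank ℚ (Submodule.span ℚ (nu d '' fib R κ k))}.Infinite) :
    ∃ R1 ⊆ R, QD R1 ∧ {k : ℤ | (fib R1 κ k).Nonempty}.Infinite ∧
      ∀ k : ℤ, (fib R1 κ k).Nonempty → Module.finrank ℚ (Submodule.span ℚ (nu d '' fib R1 κ k)) = r := by
  classical
  have hfin : {k : ℤ | ¬ ((B : ℤ) ^ 2 < k ^ 2)}.Finite := by
    refine (Set.finite_Icc (-(B : ℤ)) (B : ℤ)).subset ?_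
    intro k hk
    have hk' : k ^ 2 ≤ (B : ℤ) ^ 2 := not_lt.1 hk
    have h2 := abs_le_of_sq_le_sq' hk' (Int.natCast_nonneg B)
    exact ⟨h2.1, h2.2⟩
  have hK : {k : ℤ | (B : ℤ) ^ 2 < k ^ 2 ∧
      r ≤ Module.finrank ℚ (Submodule.span ℚ (nu d '' fib R κ k))}.Infinite := by
    refine (hinf.sdiff hfin).mono ?_
    rintro k ⟨hk1, hk2⟩
    exact ⟨not_not.1 hk2, hk1⟩
  obtain ⟨J, hJ⟩ : ∃ J : Fin r → Fin m → Fin (d + 1), {k : ℤ | (B : ℤ) ^ 2 < k ^ 2 ∧
      ∃ y c, Dat (nu d '' fib R κ k) J y c}.Infinite := by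
    by_contra hcon
    have hcon' : ∀ J : Fin r → Fin m → Fin (d + 1), {k : ℤ | (B : ℤ) ^ 2 < k ^ 2 ∧
      ∃ y c, Dat (nu d '' fib R κ k) J y c}.Finite := fun J =>
        Set.not_infinite.1 fun h1 => hcon ⟨J, h1⟩
    apply hK
    refine (Set.finite_iUnion hcon').subset ?_
    rintro k ⟨hk1, hk2⟩
    obtain ⟨J, y, c, hd⟩ := C1a_exists (nu d '' fib R κ k) (le_antisymm (hB k hk1) hk2)
    exact Set.mem_iUnion.2 ⟨J, hk1, y, c, hd⟩
  have hR1 := Q1_inter (E1_gt h hA B)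
    (E1_lin h hA d r r J (fun i l => if i = l then 1 else 0))
  obtain ⟨R1, hR1def⟩ : ∃ R1 : Set (Fin m → ℚ), R1 = {x | x ∈ R ∧ (B : ℤ) ^ 2 < κ x ^ 2} ∩
      {x | x ∈ R ∧ ∃ (y : Fin r → Fin m → ℚ) (c : Fin r → Fin r → ℚ),
        (∀ a, y a ∈ R ∧ κ (y a) = κ x) ∧
        ∀ i t, ∑ a, c i a * nu d (y a) (J t) = if i = t then 1 else 0} := ⟨_, rfl⟩
  rw [← hR1def] at hR1
  have hmem : ∀ x, x ∈ R1 ↔ x ∈ R ∧ (B : ℤ) ^ 2 < κ x ^ 2 ∧
      ∃ y c, Dat (nu d '' fib R κ (κ x)) J y c := by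
    intro x
    rw [hR1def]
    constructor
    · rintro ⟨h1, h2⟩
      exact ⟨h1.1, h1.2, (E2a_lin_iff d J x).1 h2.2⟩
    · rintro ⟨h1, h2, h3⟩
      exact ⟨⟨h1, h2⟩, h1, (E2a_lin_iff d J x).2 h3⟩
  have hsub : R1 ⊆ R := fun x hx => ((hmem x).1 hx).1
  refine ⟨R1, hsub, hR1, ?_, ?_⟩
  · refine hJ.mono ?_
    rintro k ⟨hk, y, c, hd⟩
    obtain ⟨x, hx, -⟩ := hd.1 ⟨0, hr⟩
    refine ⟨x, (hmem x).2 ⟨hx.1, ?_, y, c, ?_⟩, hx.2⟩
    · rw [hx.2]
      exact hk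
    · rw [hx.2]
      exact hd
  · rintro k ⟨x, hx, rfl⟩
    obtain ⟨h1, h2, y, c, hd⟩ := (hmem x).1 hx
    have hfib : fib R1 κ (κ x) = fib R κ (κ x) := by
      ext x'
      constructor
      · intro hx'
        exact ⟨hsub hx'.1, hx'.2⟩
      · rintro ⟨hx1, hx2⟩
        refine ⟨(hmem x').2 ⟨hx1, ?_, ?_⟩, hx2⟩
        · rw [hx2]
          exact h2
        · rw [hx2]
          exact ⟨y, c, hd⟩
    rw [hfib]
    exact E2a_rank hd (hB _ h2)

theorem E2a_two (h : Interp D φ) (hM : Mazur) (hA : Att D φ R κ) (d r : ℕ) (hr : 1 ≤ r)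
    (hinf : {k : ℤ | (fib R κ k).Nonempty}.Infinite)
    (hf : ∀ k : ℤ, (fib R κ k).Nonempty → Module.finrank ℚ (Submodule.span ℚ (nu d '' fib R κ k)) = r) :
    ∃ R2 ⊆ R, QD R2 ∧ (κ '' R2).Infinite ∧ Module.finrank ℚ (Submodule.span ℚ (nu d '' R2)) = r ∧
      ∀ x ∈ R2, Submodule.span ℚ (nu d '' fib R2 κ (κ x)) = Submodule.span ℚ (nu d '' R2) := by
  classical
  obtain ⟨k0, hk0, hk0inf⟩ : ∃ k0 : ℤ, (fib R κ k0).Nonempty ∧
      {l : ℤ | Submodule.span ℚ (nu d '' fib R κ l) =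
        Submodule.span ℚ (nu d '' fib R κ k0)}.Infinite := by
    by_contra hcon
    refine C3_span (m := m) h (R := {z : Fin m ⊕ Fin n → ℚ | (fun i => z (inl i)) ∈ R ∧
      (fun i => z (inr i)) ∈ D ∧ κ (fun i => z (inl i)) = φ (fun i => z (inr i))}) hA d ?_ ?_ hM
    · simp only [E1_fam h]
      exact hinf
    · intro k hk
      simp only [E1_fam h] at hk ⊢
      exact Set.not_infinite.1 fun h1 => hcon ⟨k, hk, h1⟩
  obtain ⟨T, hT⟩ : ∃ T : Submodule ℚ ((Fin m → Fin (d + 1)) → ℚ),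
      T = Submodule.span ℚ (nu d '' fib R κ k0) := ⟨_, rfl⟩
  have hTr : Module.finrank ℚ T = r := by
    rw [hT]
    exact hf k0 hk0
  rw [← hT] at hk0inf
  let b : Module.Basis (Fin r) ℚ T := Module.finBasisOfFinrankEq ℚ T hTr
  have hbspan : T ≤ Submodule.span ℚ (Set.range fun i => (b i : (Fin m → Fin (d + 1)) → ℚ)) := by
    intro v hv
    have h1 := b.sum_repr ⟨v, hv⟩
    have h2 := congrArg (fun w : T => (w : (Fin m → Fin (d + 1)) → ℚ)) h1
    simp only [Submodule.coe_sum, Submodule.coe_smul] at h2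
    rw [← h2]
    exact Submodule.sum_mem _ fun i _ => Submodule.smul_mem _ _ (Submodule.subset_span ⟨i, rfl⟩)
  have hR2 := E1_lin h hA d r r (τ := Fin m → Fin (d + 1)) (fun e => e)
    (fun i e => (b i : (Fin m → Fin (d + 1)) → ℚ) e)
  obtain ⟨R2, hR2def⟩ : ∃ R2 : Set (Fin m → ℚ), R2 = {x | x ∈ R ∧
      ∃ (y : Fin r → Fin m → ℚ) (c : Fin r → Fin r → ℚ), (∀ a, y a ∈ R ∧ κ (y a) = κ x) ∧
      ∀ i t, ∑ a, c i a * nu d (y a) t = (b i : (Fin m → Fin (d + 1)) → ℚ) t} := ⟨_, rfl⟩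
  rw [← hR2def] at hR2
  have hmem : ∀ x, x ∈ R2 ↔ x ∈ R ∧ Submodule.span ℚ (nu d '' fib R κ (κ x)) = T := by
    intro x
    rw [hR2def]
    constructor
    · rintro ⟨h1, y, c, h2, h3⟩
      refine ⟨h1, ?_⟩
      have hle : T ≤ Submodule.span ℚ (nu d '' fib R κ (κ x)) := by
        refine le_trans hbspan ?_
        rw [Submodule.span_le]
        rintro _ ⟨i, rfl⟩
        have h4 : (b i : (Fin m → Fin (d + 1)) → ℚ) = ∑ a, c i a • nu d (y a) := by
          funext e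
          rw [Finset.sum_apply]
          exact (h3 i e).symm
        simp only [h4]
        exact Submodule.sum_mem _ fun a _ =>
          Submodule.smul_mem _ _ (Submodule.subset_span ⟨y a, h2 a, rfl⟩)
      refine (Submodule.eq_of_le_of_finrank_eq hle ?_).symm
      rw [hTr, hf _ ⟨x, h1, rfl⟩]
    · rintro ⟨h1, h2⟩
      have hrk : Module.finrank ℚ (Submodule.span ℚ (nu d '' fib R κ (κ x))) = r :=
        hf _ ⟨x, h1, rfl⟩
      obtain ⟨f, hf1, hf2⟩ := E2a_fun _ hrk inferInstance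
      choose Y hY1 hY2 using hf1
      have hc : ∀ i, ∃ g : Fin r → ℚ, ∑ a, g a • f a = (b i : (Fin m → Fin (d + 1)) → ℚ) := by
        intro i
        refine (Submodule.mem_span_range_iff_exists_fun ℚ).1 ?_
        rw [hf2, h2]
        exact (b i).2
      choose c hc using hc
      refine ⟨h1, Y, c, fun a => hY1 a, fun i t => ?_⟩
      have h5 := congrFun (hc i) t
      rw [Finset.sum_apply] at h5
      rw [← h5]
      refine Finset.sum_congr rfl fun a _ => ?_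
      rw [Pi.smul_apply, smul_eq_mul, ← hY2]
  have hsub : R2 ⊆ R := fun x hx => ((hmem x).1 hx).1
  have hinf2 : (κ '' R2).Infinite := by
    refine hk0inf.mono ?_
    intro l hl
    have hl' : Submodule.span ℚ (nu d '' fib R κ l) = T := hl
    have hne : (fib R κ l).Nonempty := by
      by_contra hcon
      rw [Set.not_nonempty_iff_eq_empty] at hcon
      rw [hcon, Set.image_empty, Submodule.span_empty] at hl'
      rw [← hl', finrank_bot] at hTr
      omega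
    obtain ⟨x, hx⟩ := hne
    refine ⟨x, (hmem x).2 ⟨hx.1, ?_⟩, hx.2⟩
    rw [hx.2]
    exact hl'
  have hfib : ∀ x ∈ R2, Submodule.span ℚ (nu d '' fib R2 κ (κ x)) = T := by
    intro x hx
    obtain ⟨h1, h2⟩ := (hmem x).1 hx
    have hfe : fib R2 κ (κ x) = fib R κ (κ x) := by
      ext x'
      constructor
      · intro hx'
        exact ⟨hsub hx'.1, hx'.2⟩
      · rintro ⟨hx1, hx2⟩
        refine ⟨(hmem x').2 ⟨hx1, ?_⟩, hx2⟩
        rw [hx2]
        exact h2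
    rw [hfe]
    exact h2
  have hspan : Submodule.span ℚ (nu d '' R2) = T := by
    refine le_antisymm ?_ ?_
    · rw [Submodule.span_le]
      rintro _ ⟨x, hx, rfl⟩
      rw [SetLike.mem_coe, ← hfib x hx]
      exact Submodule.subset_span ⟨x, ⟨hx, rfl⟩, rfl⟩
    · obtain ⟨_, x, hx, -⟩ := hinf2.nonempty
      rw [← hfib x hx]
      exact Submodule.span_mono (Set.image_mono fun x' hx' => hx'.1)
  refine ⟨R2, hsub, hR2, hinf2, ?_, ?_⟩
  · rw [hspan]
    exact hTr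
  · intro x hx
    rw [hspan]
    exact hfib x hx

end H79.MZ
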