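import Pool.Agent.H79.MZ.E2a

/-!
# E2b: normal form of an attached set

For `ρ : ℕ` let `P ρ` be: there is `Q ⊆ R`, `QD Q`, `(κ '' Q).Infinite`, `{k | ρ + 1 ≤ finrank (span (nu d '' fib Q κ k))}` finite.  `P (card N)` holds with `Q = R` (the set is empty; `E1_R`).  `P 0` is false: if
`k ∈ κ '' Q`, the fibre is nonempty and `nu d x ≠ 0` (its coordinate `0` is `1`), so `1 ≤ finrank`.  Let `r ≥ 1` be the least number with `P r` (`Nat.find`), `Q` a witness.  As `¬ P (r - 1)`, for every `Q' ⊆ R` which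
is Diophantine with `κ '' Q'` infinite the set `{k | r ≤ finrank (span (nu d '' fib Q' κ k))}` is infinite (*).  Choose `B` with `{k | r + 1 ≤ finrank ..} ⊆ [-B, B]` for `Q`.  `E2a_one` for `Q` (`E1_sub`)
gives `R1 ⊆ Q` and `E2a_two` gives `R' = R2 ⊆ R1`, with `finrank (span (nu d '' R')) = r`.  If `Q' ⊆ R'` is Diophantine with `κ '' Q'` infinite, by (*) there is `k` with
`r ≤ finrank (span (nu d '' fib Q' κ k)) ≤ finrank (span (nu d '' Q'))`, and `span (nu d '' Q') ≤ span (nu d '' R')` of `finrank` `r`: they are equal (`Submodule.eq_of_le_of_finrank_le`).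
-/

open MvPolynomial Sum

namespace H79.MZ

variable {n : ℕ} {D : Set (Fin n → ℚ)} {φ : (Fin n → ℚ) → ℤ} {m : ℕ} {R : Set (Fin m → ℚ)} {κ : (Fin m → ℚ) → ℤ}

theorem E2b_norm (h : Interp D φ) (hM : Mazur) (hA : Att D φ R κ) (hinf : (κ '' R).Infinite) (d : ℕ) :
    ∃ R' ⊆ R, QD R' ∧ (κ '' R').Infinite ∧
      (∀ x ∈ R', Submodule.span ℚ (nu d '' fib R' κ (κ x)) = Submodule.span ℚ (nu d '' R')) ∧
      ∀ Q ⊆ R', QD Q → (κ '' Q).Infinite → Submodule.span ℚ (nu d '' Q) = Submodule.span ℚ (nu d '' R') := by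
  classical
  set P : ℕ → Prop := fun ρ => ∃ Q ⊆ R, QD Q ∧ (κ '' Q).Infinite ∧
    {k : ℤ | ρ + 1 ≤ Module.finrank ℚ (Submodule.span ℚ (nu d '' fib Q κ k))}.Finite with hP
  have hex : ∃ ρ, P ρ := by
    refine ⟨Module.finrank ℚ ((Fin m → Fin (d + 1)) → ℚ), R, subset_rfl, E1_R h hA, hinf, ?_⟩
    have hempty : {k : ℤ | Module.finrank ℚ ((Fin m → Fin (d + 1)) → ℚ) + 1 ≤
        Module.finrank ℚ (Submodule.span ℚ (nu d '' fib R κ k))} = ∅ := by
      rw [Set.eq_empty_iff_forall_notMem]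
      intro k hk
      have h1 := Submodule.finrank_le (Submodule.span ℚ (nu d '' fib R κ k))
      rw [Set.mem_setOf_eq] at hk
      omega
    rw [hempty]
    exact Set.finite_empty
  have h0 : ¬ P 0 := by
    rintro ⟨Q, -, -, hQ2, hQ3⟩
    apply hQ2
    refine hQ3.subset ?_
    rintro _ ⟨x, hx, rfl⟩
    rw [Set.mem_setOf_eq, zero_add, Submodule.one_le_finrank_iff]
    intro hbot
    have h1 : nu d x ∈ Submodule.span ℚ (nu d '' fib Q κ (κ x)) :=
      Submodule.subset_span ⟨x, ⟨hx, rfl⟩, rfl⟩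
    rw [hbot, Submodule.mem_bot] at h1
    have h2 := congrFun h1 (fun _ => 0)
    simp [nu] at h2
  obtain ⟨r', hr'⟩ : ∃ r', Nat.find hex = r' + 1 := by
    cases hf : Nat.find hex with
    | zero =>
      have h1 := Nat.find_spec hex
      rw [hf] at h1
      exact absurd h1 h0
    | succ r' => exact ⟨r', rfl⟩
  have hPr : P (r' + 1) := by
    rw [← hr']
    exact Nat.find_spec hex
  have hnP : ¬ P r' := Nat.find_min hex (by omega)
  have hstar : ∀ Q ⊆ R, QD Q → (κ '' Q).Infinite →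
      {k : ℤ | r' + 1 ≤ Module.finrank ℚ (Submodule.span ℚ (nu d '' fib Q κ k))}.Infinite := by
    intro Q hQR hQ hQinf hfin
    exact hnP ⟨Q, hQR, hQ, hQinf, hfin⟩
  obtain ⟨Q, hQR, hQ, hQinf, hQfin⟩ := hPr
  obtain ⟨B, hB⟩ := (hQfin.image Int.natAbs).bddAbove
  have hB' : ∀ k : ℤ, (B : ℤ) ^ 2 < k ^ 2 →
      Module.finrank ℚ (Submodule.span ℚ (nu d '' fib Q κ k)) ≤ r' + 1 := by
    intro k hk
    by_contra hcon
    push Not at hcon
    have h1 : k.natAbs ≤ B := hB ⟨k, hcon, rfl⟩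
    have h2 : ((k.natAbs : ℤ)) ^ 2 ≤ (B : ℤ) ^ 2 := by
      have : (k.natAbs : ℤ) ≤ B := by exact_mod_cast h1
      have h3 : (0 : ℤ) ≤ k.natAbs := Int.natCast_nonneg _
      nlinarith
    rw [Int.natAbs_sq] at h2
    omega
  obtain ⟨R1, hR1Q, hR1, hR1inf, hR1f⟩ := E2a_one h (E1_sub hA hQ hQR) d (r' + 1) B (by omega) hB'
    (hstar Q hQR hQ hQinf)
  have hR1R : R1 ⊆ R := hR1Q.trans hQR
  obtain ⟨R2, hR21, hR2, hR2inf, hR2r, hR2s⟩ := E2a_two h hM (E1_sub hA hR1 hR1R) d (r' + 1)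
    (by omega) hR1inf hR1f
  refine ⟨R2, hR21.trans hR1R, hR2, hR2inf, hR2s, ?_⟩
  intro Q' hQ'R hQ' hQ'inf
  obtain ⟨k, hk⟩ := (hstar Q' (hQ'R.trans (hR21.trans hR1R)) hQ' hQ'inf).nonempty
  rw [Set.mem_setOf_eq] at hk
  apply Submodule.eq_of_le_of_finrank_le
  · exact Submodule.span_mono (Set.image_mono hQ'R)
  · rw [hR2r]
    refine hk.trans (Submodule.finrank_mono (Submodule.span_mono (Set.image_mono ?_)))
    exact fun x hx => hx.1

end H79.MZ
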