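import Pool.Agent.H79.MZ.E1

/-!
# E3: one of the polynomials vanishes on a large product

`d = s * δ`.
* `E3_poly`: for fixed `x` the polynomial `∏_{i ∈ A} g i (x, ·)` (`g i (x, ·) = aeval (Sum.elim (fun t => C (x t)) X) (g i)`, total degree at most that of `g i`) has total degree `≤ A.card * δ ≤ s * δ`; `C3_eval`.
* `E3_step`: (1) for `x ∈ R` the functional `v ↦ ∑ e, a e * v e` of `E3_poly` vanishes on `nu d '' fib R κ (κ x)` (`hz`), so on its span (`Submodule.span_induction`, or `C3_van`-like), which is `span (nu d '' R)`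
  (`hspan`): so `∏_{i ∈ A} g i (x, y) = 0` for all `x, y ∈ R`.
  (2) Fix `x ∈ R`.  `R = ⋃_{i ∈ A} {y ∈ R | g i (x, y) = 0}` and `κ '' R` is infinite, so for some `i ∈ A` the Diophantine set `Q = {y ∈ R | g i (x, y) = 0}` (`E1_R`, `Q1_poly` for the polynomial `g i (x, ·)`,
  `Q1_inter`) has `κ '' Q` infinite; by `hsub` `span (nu d '' Q) = span (nu d '' R)`, so the functional of `g i (x, ·)` (`E3_poly` with `{i}`) vanishes on all of `nu d '' R`: `g i (x, y) = 0` for all `y ∈ R`.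
  (3) So `R = ⋃_{i ∈ A} T i`, `T i = {x ∈ R | ∀ y ∈ R, g i (x, y) = 0}`, and some `κ '' T i` is infinite.  `T i` is Diophantine: let `y 1, ..., y r ∈ R` be finitely many points such that the `nu d (y j)` span
  `span (nu d '' R)` (`Submodule.exists_fun_fin_finrank_span_eq` for the set `nu d '' R`); then `T i = {x ∈ R | ∀ j, g i (x, y j) = 0}` (`E3_poly` with `{i}`; the equation in `x` is `Q1_poly` for the polynomial
  `aeval (Sum.elim X (fun t => C (y j t))) (g i)`, `Q1_all`).  Take `Q = T i`.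
-/

open MvPolynomial Sum

namespace H79.MZ

variable {n : ℕ} {D : Set (Fin n → ℚ)} {φ : (Fin n → ℚ) → ℤ} {m : ℕ} {R : Set (Fin m → ℚ)} {κ : (Fin m → ℚ) → ℤ}

private theorem E3_deg {σ τ : Type} (p : MvPolynomial σ ℚ) (F : σ → MvPolynomial τ ℚ)
    (hF : ∀ i, (F i).totalDegree ≤ 1) : (bind₁ F p).totalDegree ≤ p.totalDegree := by
  have e : bind₁ F p = ∑ s ∈ p.support, C (coeff s p) * ∏ i ∈ s.support, F i ^ s i := by
    rw [bind₁, aeval_def, eval₂_eq]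
    rfl
  rw [e]
  refine totalDegree_finsetSum_le fun s hs => ?_
  refine (totalDegree_mul _ _).trans ?_
  rw [totalDegree_C, zero_add]
  refine (totalDegree_finsetProd _ _).trans ?_
  refine le_trans (Finset.sum_le_sum fun i _ => ?_) (le_totalDegree hs)
  refine (totalDegree_pow _ _).trans ?_
  calc s i * (F i).totalDegree ≤ s i * 1 := Nat.mul_le_mul_left _ (hF i)
    _ = s i := mul_one _

private theorem E3_evx (p : MvPolynomial (Fin m ⊕ Fin m) ℚ) (x y : Fin m → ℚ) :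
    eval y (bind₁ (Sum.elim (fun t => C (x t)) X) p) = eval (Sum.elim x y) p := by
  rw [Q1_eval_bind]
  congr 2
  funext s
  rcases s with s | s <;> simp

private theorem E3_evy (p : MvPolynomial (Fin m ⊕ Fin m) ℚ) (x y : Fin m → ℚ) :
    eval x (bind₁ (Sum.elim X (fun t => C (y t))) p) = eval (Sum.elim x y) p := by
  rw [Q1_eval_bind]
  congr 2
  funext s
  rcases s with s | s <;> simp

theorem E3_poly {s : ℕ} (g : Fin s → MvPolynomial (Fin m ⊕ Fin m) ℚ) (δ : ℕ) (hδ : ∀ i, (g i).totalDegree ≤ δ)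
    (x : Fin m → ℚ) (A : Finset (Fin s)) : ∃ a : (Fin m → Fin (s * δ + 1)) → ℚ,
    ∀ y : Fin m → ℚ, ∏ i ∈ A, eval (Sum.elim x y) (g i) = ∑ e, a e * nu (s * δ) y e := by
  have hdeg : (∏ i ∈ A, bind₁ (Sum.elim (fun t => C (x t)) X) (g i)).totalDegree ≤ s * δ := by
    refine (totalDegree_finsetProd _ _).trans ?_
    calc ∑ i ∈ A, (bind₁ (Sum.elim (fun t => C (x t)) X) (g i)).totalDegree
        ≤ ∑ _i ∈ A, δ := Finset.sum_le_sum fun i _ => (E3_deg (g i) _ (by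
          rintro (t | t)
          · simp
          · simp)).trans (hδ i)
      _ = A.card * δ := by rw [Finset.sum_const, smul_eq_mul]
      _ ≤ s * δ := Nat.mul_le_mul_right _ (by simpa using Finset.card_le_univ A)
  obtain ⟨a, ha⟩ := C3_eval _ hdeg
  refine ⟨a, fun y => ?_⟩
  rw [← ha, map_prod]
  exact Finset.prod_congr rfl fun i _ => (E3_evx (g i) x y).symm

private theorem E3_van {d : ℕ} (a : (Fin m → Fin (d + 1)) → ℚ) (P : (Fin m → ℚ) → ℚ)
    (ha : ∀ y : Fin m → ℚ, P y = ∑ e, a e * nu d y e) (T T' : Set ((Fin m → Fin (d + 1)) → ℚ))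
    (hT : Submodule.span ℚ T = Submodule.span ℚ T')
    (h : ∀ v ∈ T, ∑ e, a e * v e = 0) : ∀ y, nu d y ∈ T' → P y = 0 := by
  intro y hy
  have h1 : Submodule.span ℚ T' ≤ LinearMap.ker (C3_L a) := by
    rw [← hT, Submodule.span_le]
    exact h
  rw [ha]
  exact h1 (Submodule.subset_span hy)

private theorem E3_pig {s : ℕ} (A : Finset (Fin s)) (Q : Fin s → Set (Fin m → ℚ))
    (hinf : (κ '' R).Infinite) (hcov : ∀ x ∈ R, ∃ i ∈ A, x ∈ Q i) :
    ∃ i ∈ A, (κ '' Q i).Infinite := by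
  by_contra hcon
  push Not at hcon
  apply hinf
  have h1 : (⋃ i ∈ A, κ '' Q i).Finite :=
    A.finite_toSet.biUnion fun i hi => hcon i hi
  refine h1.subset ?_
  rintro _ ⟨x, hx, rfl⟩
  obtain ⟨i, hi, hxi⟩ := hcov x hx
  exact Set.mem_biUnion hi ⟨x, hxi, rfl⟩

theorem E3_step (hR : QD R) {s : ℕ} (g : Fin s → MvPolynomial (Fin m ⊕ Fin m) ℚ) (δ : ℕ)
    (hδ : ∀ i, (g i).totalDegree ≤ δ) (A : Finset (Fin s)) (hinf : (κ '' R).Infinite)
    (hspan : ∀ x ∈ R, Submodule.span ℚ (nu (s * δ) '' fib R κ (κ x)) = Submodule.span ℚ (nu (s * δ) '' R))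
    (hsub : ∀ Q ⊆ R, QD Q → (κ '' Q).Infinite →
      Submodule.span ℚ (nu (s * δ) '' Q) = Submodule.span ℚ (nu (s * δ) '' R))
    (hz : ∀ x ∈ R, ∀ y ∈ R, κ x = κ y → ∏ i ∈ A, eval (Sum.elim x y) (g i) = 0) :
    ∃ i ∈ A, ∃ Q ⊆ R, QD Q ∧ (κ '' Q).Infinite ∧ ∀ x ∈ Q, ∀ y ∈ Q, eval (Sum.elim x y) (g i) = 0 := by
  -- (1)
  have h1 : ∀ x ∈ R, ∀ y ∈ R, ∏ i ∈ A, eval (Sum.elim x y) (g i) = 0 := by
    intro x hx y hy
    obtain ⟨a, ha⟩ := E3_poly g δ hδ x A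
    refine E3_van a (fun y => ∏ i ∈ A, eval (Sum.elim x y) (g i)) ha _ _ (hspan x hx) ?_ y
      ⟨y, hy, rfl⟩
    rintro _ ⟨z, ⟨hz1, hz2⟩, rfl⟩
    rw [← ha]
    exact hz x hx z hz1 hz2.symm
  -- (2)
  have h2 : ∀ x ∈ R, ∃ i ∈ A, ∀ y ∈ R, eval (Sum.elim x y) (g i) = 0 := by
    intro x hx
    obtain ⟨i, hi, hQi⟩ := E3_pig (κ := κ) A
      (fun i => {y | y ∈ R ∧ eval (Sum.elim x y) (g i) = 0}) hinf (by
        intro y hy
        obtain ⟨i, hi, h0⟩ := Finset.prod_eq_zero_iff.1 (h1 x hx y hy)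
        exact ⟨i, hi, hy, h0⟩)
    refine ⟨i, hi, fun y hy => ?_⟩
    obtain ⟨a, ha⟩ := E3_poly g δ hδ x {i}
    have hQD : QD {y | y ∈ R ∧ eval (Sum.elim x y) (g i) = 0} := by
      have h3 := Q1_inter hR (Q1_poly (bind₁ (Sum.elim (fun t => C (x t)) X) (g i)))
      simp only [E3_evx] at h3
      exact h3
    have h4 := hsub {y | y ∈ R ∧ eval (Sum.elim x y) (g i) = 0} (fun y hy => hy.1) hQD hQi
    simp only [Finset.prod_singleton] at ha
    refine E3_van a (fun y => eval (Sum.elim x y) (g i)) ha _ _ h4 ?_ y ⟨y, hy, rfl⟩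
    rintro _ ⟨z, ⟨hz1, hz2⟩, rfl⟩
    rw [← ha]
    exact hz2
  -- (3)
  obtain ⟨i, hi, hTi⟩ := E3_pig (κ := κ) A
    (fun i => {x | x ∈ R ∧ ∀ y ∈ R, eval (Sum.elim x y) (g i) = 0}) hinf (by
      intro x hx
      obtain ⟨i, hi, h0⟩ := h2 x hx
      exact ⟨i, hi, hx, h0⟩)
  refine ⟨i, hi, {x | x ∈ R ∧ ∀ y ∈ R, eval (Sum.elim x y) (g i) = 0}, fun x hx => hx.1, ?_, hTi,
    fun x hx y hy => hx.2 y hy.1⟩
  obtain ⟨f, hf1, hf2, -⟩ := Submodule.exists_fun_fin_finrank_span_eq ℚ (nu (s * δ) '' R)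
  choose y hy1 hy2 using hf1
  have h5 : QD {x | ∀ j, x ∈ {x : Fin m → ℚ | eval (Sum.elim x (y j)) (g i) = 0}} := by
    refine Q1_all fun j => ?_
    have h6 := Q1_poly (bind₁ (Sum.elim X (fun t => C (y j t))) (g i))
    simp only [E3_evy] at h6
    exact h6
  refine (congrArg QD ?_).mp (Q1_inter hR h5)
  ext x
  constructor
  · rintro ⟨hx1, hx2⟩
    refine ⟨hx1, fun z hz => ?_⟩
    obtain ⟨a, ha⟩ := E3_poly g δ hδ x {i}
    simp only [Finset.prod_singleton] at ha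
    refine E3_van a (fun y => eval (Sum.elim x y) (g i)) ha _ _ hf2 ?_ z ⟨z, hz, rfl⟩
    rintro _ ⟨j, rfl⟩
    rw [← hy2 j, ← ha]
    exact hx2 j
  · rintro ⟨hx1, hx2⟩
    exact ⟨hx1, fun j => hx2 (y j) (hy1 j)⟩

end H79.MZ
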