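import Pool.Agent.H79.MZ.E1

/-!
# E4: the open case

Let `I = (Fin m ⊕ Fin m) ⊕ Unit`, `S = {z : I → ℚ | x ∈ R, y ∈ R, κ x = κ y, u * ∏_{i ∈ A} g i (x, y) = 1}` (`x = fun t => z (inl (inl t))`, `y = fun t => z (inl (inr t))`, `u = z (inr ())`).  `S` is Diophantine (`E1_ker`,
`Q1_poly`, `Q1_inter`).
* `E4_loc`: every real point `c` in the closure of `rl '' S` has `ε > 0` such that all `z, z' ∈ S` with `rl z, rl z'` in the `ε`-ball around `c` have `κ x = κ x'`.  Proof: the closed condition `u * ∏ g i (x, y) = 1` holds at `c`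
  (`aeval c` is continuous: `MvPolynomial.continuous_eval` for the polynomial over `ℝ`, `closure_minimal`), so every real number `γ i = g i (c)`, `i ∈ A`, is nonzero; by continuity there is `ε > 0` such that for every real
  `(a, b)` with `a` `ε`-close to the first and `b` `ε`-close to the second component of `c` the sign of `g i (a, b)` is the sign of `γ i` for all `i ∈ A` (sup metric: the ball is a product).  If `z, z' ∈ S` are in
  the `ε`-ball, then `(x, y)` and the mixed pair `(x, y')` are `ε`-close to `c`, so the sign patterns of `g (x, y)` and `g (x, y')` agree (on `A`; outside `A` the pattern is `0`); as `κ x = κ y`, `hE` gives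
  `κ x = κ y' = κ x'`.
* `E4_open`: `T1_cover` for `S` gives `C j`, `j < N`.  For `z0 ∈ S` with `rl z0 ∈ C j` let `U = {c | ∃ ε > 0, ∀ z ∈ S, dist (rl z) c < ε → κ x = κ x0}`, `V` the same with `≠`; both are open, `closure (rl '' S) ⊆ U ∪ V` by
  `E4_loc` (the common value near `c` is `κ x0` or not), and no point of the closure is in both.  `C j` is preconnected and contains `rl z0 ∈ U`, so `C j ⊆ U` (`IsPreconnected` definition: otherwise
  `C j ∩ (U ∩ V)` is nonempty).  So `κ x` is the same for all `z ∈ S` with `rl z ∈ C j`, and `κ` takes at most `N` values on `S`.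
-/

open MvPolynomial Sum

namespace H79.MZ

variable {n : ℕ} {D : Set (Fin n → ℚ)} {φ : (Fin n → ℚ) → ℤ} {m : ℕ} {R : Set (Fin m → ℚ)} {κ : (Fin m → ℚ) → ℤ}

/-- the set of pairs in one class at which all `g i`, `i ∈ A`, are nonzero, with the inverse of their product -/
def E4S {m : ℕ} (R : Set (Fin m → ℚ)) (κ : (Fin m → ℚ) → ℤ) {s : ℕ} (g : Fin s → MvPolynomial (Fin m ⊕ Fin m) ℚ)
    (A : Finset (Fin s)) : Set ((Fin m ⊕ Fin m) ⊕ Unit → ℚ) :=
  {z | (fun t => z (inl (inl t))) ∈ R ∧ (fun t => z (inl (inr t))) ∈ R ∧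
    κ (fun t => z (inl (inl t))) = κ (fun t => z (inl (inr t))) ∧
    z (inr ()) * ∏ i ∈ A, eval (fun j => z (inl j)) (g i) = 1}

theorem E4_QD (h : Interp D φ) (hA : Att D φ R κ) {s : ℕ} (g : Fin s → MvPolynomial (Fin m ⊕ Fin m) ℚ)
    (A : Finset (Fin s)) : QD (E4S R κ g A) := by
  have h1 := E1_ker h hA (ι := (Fin m ⊕ Fin m) ⊕ Unit) (fun t => inl (inl t)) (fun t => inl (inr t))
  have h2 := Q1_poly (ι := (Fin m ⊕ Fin m) ⊕ Unit)
    (X (inr ()) * ∏ i ∈ A, rename inl (g i) - C 1)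
  refine (congrArg QD ?_).mp (Q1_inter h1 h2)
  ext z
  have e : eval z (X (inr ()) * ∏ i ∈ A, rename inl (g i) - C 1) =
      z (inr ()) * ∏ i ∈ A, eval (fun j => z (inl j)) (g i) - 1 := by
    rw [map_sub, map_mul, map_prod, eval_X, eval_C]
    congr 2
    refine Finset.prod_congr rfl fun i _ => ?_
    rw [eval_rename]
    rfl
  constructor
  · rintro ⟨⟨h3, h4, h5⟩, h6⟩
    have h7 : eval z (X (inr ()) * ∏ i ∈ A, rename inl (g i) - C 1) = 0 := h6
    rw [e] at h7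
    exact ⟨h3, h4, h5, sub_eq_zero.1 h7⟩
  · rintro ⟨h3, h4, h5, h6⟩
    refine ⟨⟨h3, h4, h5⟩, ?_⟩
    show eval z (X (inr ()) * ∏ i ∈ A, rename inl (g i) - C 1) = 0
    rw [e, h6, sub_self]

/-- real evaluation -/
noncomputable def E4_e {ι : Type} (p : MvPolynomial ι ℚ) (u : ι → ℝ) : ℝ := eval u (map (Rat.castHom ℝ) p)

theorem E4_cont {ι : Type} (p : MvPolynomial ι ℚ) : Continuous (E4_e p) :=
  MvPolynomial.continuous_eval _

theorem E4_rat {ι : Type} (p : MvPolynomial ι ℚ) (x : ι → ℚ) :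
    E4_e p (fun i => ((x i : ℚ) : ℝ)) = ((eval x p : ℚ) : ℝ) := by
  unfold E4_e
  have h := eval₂_comp_left (Rat.castHom ℝ) (RingHom.id ℚ) x p
  rw [eval₂_id, RingHom.comp_id] at h
  rw [eval_map]
  exact h.symm

theorem E4_sign {ι : Type} (p : MvPolynomial ι ℚ) (x : ι → ℚ) :
    SignType.sign (E4_e p (fun i => ((x i : ℚ) : ℝ))) = SignType.sign (eval x p) := by
  rw [E4_rat]
  exact StrictMono.sign_comp (f := Rat.castHom ℝ) Rat.cast_strictMono (eval x p)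

theorem E4_ev {X : Type} [TopologicalSpace X] {f : X → ℝ} (hf : Continuous f) (c : X) (hc : f c ≠ 0) :
    ∀ᶠ u in nhds c, SignType.sign (f u) = SignType.sign (f c) := by
  rcases lt_or_gt_of_ne hc with h | h
  · filter_upwards [hf.continuousAt.eventually (Iio_mem_nhds h)] with u hu
    rw [sign_neg h, sign_neg (show f u < 0 from hu)]
  · filter_upwards [hf.continuousAt.eventually (Ioi_mem_nhds h)] with u hu
    rw [sign_pos h, sign_pos (show 0 < f u from hu)]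

theorem E4_nz {s : ℕ} (g : Fin s → MvPolynomial (Fin m ⊕ Fin m) ℚ) (A : Finset (Fin s))
    (c : (Fin m ⊕ Fin m) ⊕ Unit → ℝ) (hc : c ∈ closure (rl '' E4S R κ g A)) :
    ∀ i ∈ A, E4_e (g i) (fun j => c (inl j)) ≠ 0 := by
  have hcl : IsClosed {c : (Fin m ⊕ Fin m) ⊕ Unit → ℝ |
      c (inr ()) * ∏ i ∈ A, E4_e (g i) (fun j => c (inl j)) = 1} := by
    refine isClosed_eq (Continuous.mul (continuous_apply _) ?_) continuous_const
    refine continuous_finsetProd _ fun i _ => ?_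
    exact (E4_cont (g i)).comp (continuous_pi fun j => continuous_apply _)
  have hsub : rl '' E4S R κ g A ⊆ {c : (Fin m ⊕ Fin m) ⊕ Unit → ℝ |
      c (inr ()) * ∏ i ∈ A, E4_e (g i) (fun j => c (inl j)) = 1} := by
    rintro _ ⟨z, ⟨-, -, -, hz⟩, rfl⟩
    show ((z (inr ()) : ℚ) : ℝ) * ∏ i ∈ A, E4_e (g i) (fun j => ((z (inl j) : ℚ) : ℝ)) = 1
    have h1 : ∀ i ∈ A, E4_e (g i) (fun j => ((z (inl j) : ℚ) : ℝ)) =
        ((eval (fun j => z (inl j)) (g i) : ℚ) : ℝ) := fun i _ => E4_rat (g i) (fun j => z (inl j))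
    rw [Finset.prod_congr rfl h1]
    have h2 := congrArg (fun q : ℚ => (q : ℝ)) hz
    push_cast at h2
    exact h2
  have h3 : c (inr ()) * ∏ i ∈ A, E4_e (g i) (fun j => c (inl j)) = 1 := closure_minimal hsub hcl hc
  intro i hi h0
  rw [Finset.prod_eq_zero hi h0, mul_zero] at h3
  exact zero_ne_one h3

theorem E4_loc {s : ℕ} (g : Fin s → MvPolynomial (Fin m ⊕ Fin m) ℚ) (A : Finset (Fin s))
    (P : Set (Fin s → SignType))
    (hE : ∀ x ∈ R, ∀ y ∈ R, (κ x = κ y ↔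
      (fun i => if i ∈ A then SignType.sign (eval (Sum.elim x y) (g i)) else 0) ∈ P))
    (c : (Fin m ⊕ Fin m) ⊕ Unit → ℝ) (hc : c ∈ closure (rl '' E4S R κ g A)) :
    ∃ ε > 0, ∀ z ∈ E4S R κ g A, ∀ z' ∈ E4S R κ g A, dist (rl z) c < ε → dist (rl z') c < ε →
      κ (fun t => z (inl (inl t))) = κ (fun t => z' (inl (inl t))) := by
  have hnz := E4_nz g A c hc
  have hev : ∀ᶠ u in nhds (fun j => c (inl j) : Fin m ⊕ Fin m → ℝ), ∀ i ∈ A,
      SignType.sign (E4_e (g i) u) = SignType.sign (E4_e (g i) (fun j => c (inl j))) := by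
    rw [Filter.eventually_all_finset]
    intro i hi
    exact E4_ev (E4_cont (g i)) _ (hnz i hi)
  obtain ⟨ε, hε, h1⟩ := Metric.eventually_nhds_iff.1 hev
  refine ⟨ε, hε, ?_⟩
  rintro z ⟨hz1, hz2, hz3, -⟩ z' ⟨hz1', hz2', hz3', -⟩ hd hd'
  rw [dist_pi_lt_iff hε] at hd hd'
  have e1 := h1 (y := fun j => (((Sum.elim (fun t => z (inl (inl t))) (fun t => z (inl (inr t))) :
      Fin m ⊕ Fin m → ℚ) j : ℚ) : ℝ)) (by
    rw [dist_pi_lt_iff hε]
    rintro (t | t)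
    · exact hd (inl (inl t))
    · exact hd (inl (inr t)))
  have e2 := h1 (y := fun j => (((Sum.elim (fun t => z (inl (inl t))) (fun t => z' (inl (inr t))) :
      Fin m ⊕ Fin m → ℚ) j : ℚ) : ℝ)) (by
    rw [dist_pi_lt_iff hε]
    rintro (t | t)
    · exact hd (inl (inl t))
    · exact hd' (inl (inr t)))
  have e3 := (hE _ hz1 _ hz2).1 hz3
  have e4 : (fun i => if i ∈ A then SignType.sign (eval (Sum.elim (fun t => z (inl (inl t)))
      (fun t => z' (inl (inr t)))) (g i)) else 0) =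
      (fun i => if i ∈ A then SignType.sign (eval (Sum.elim (fun t => z (inl (inl t)))
      (fun t => z (inl (inr t)))) (g i)) else 0) := by
    funext i
    by_cases hi : i ∈ A
    · rw [if_pos hi, if_pos hi, ← E4_sign, ← E4_sign, e1 i hi, e2 i hi]
    · rw [if_neg hi, if_neg hi]
  have e5 := (hE _ hz1 _ hz2').2 (by rw [e4]; exact e3)
  rw [e5, ← hz3']

theorem E4_pre {ι X : Type} [PseudoMetricSpace X] (S : Set ι) (f : ι → X) (k : ι → ℤ) (C : Set X)
    (hC : IsPreconnected C) (hCS : C ⊆ closure (f '' S))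
    (hloc : ∀ c ∈ closure (f '' S), ∃ ε > 0, ∀ z ∈ S, ∀ z' ∈ S, dist (f z) c < ε → dist (f z') c < ε → k z = k z')
    (z0 z1 : ι) (h0 : z0 ∈ S) (h1 : z1 ∈ S) (hz0 : f z0 ∈ C) (hz1 : f z1 ∈ C) : k z0 = k z1 := by
  by_contra hne
  have hopen : ∀ P : ℤ → Prop, IsOpen {c : X | ∃ ε > 0, ∀ w ∈ S, dist (f w) c < ε → P (k w)} := by
    intro P
    rw [Metric.isOpen_iff]
    rintro c ⟨ε, hε, hc⟩
    refine ⟨ε / 2, half_pos hε, ?_⟩
    intro c' hc'
    refine ⟨ε / 2, half_pos hε, fun w hw hd => hc w hw ?_⟩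
    rw [Metric.mem_ball] at hc'
    have := dist_triangle (f w) c' c
    linarith
  have hself : ∀ z ∈ S, ∃ ε > 0, ∀ w ∈ S, dist (f w) (f z) < ε → k w = k z := by
    intro z hz
    obtain ⟨ε, hε, hc⟩ := hloc (f z) (subset_closure ⟨z, hz, rfl⟩)
    refine ⟨ε, hε, fun w hw hd => hc w hw z hz hd ?_⟩
    rw [dist_self]
    exact hε
  have hcov : C ⊆ {c : X | ∃ ε > 0, ∀ w ∈ S, dist (f w) c < ε → k w = k z0} ∪
      {c : X | ∃ ε > 0, ∀ w ∈ S, dist (f w) c < ε → k w ≠ k z0} := by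
    intro c hc
    obtain ⟨ε, hε, hc1⟩ := hloc c (hCS hc)
    obtain ⟨_, ⟨w0, hw0, rfl⟩, hd0⟩ := Metric.mem_closure_iff.1 (hCS hc) ε hε
    rw [dist_comm] at hd0
    by_cases hk : k w0 = k z0
    · left
      exact ⟨ε, hε, fun w hw hd => (hc1 w hw w0 hw0 hd hd0).trans hk⟩
    · right
      exact ⟨ε, hε, fun w hw hd h => hk ((hc1 w hw w0 hw0 hd hd0).symm.trans h)⟩
  obtain ⟨c, hc, ⟨ε1, hε1, hc1⟩, ⟨ε2, hε2, hc2⟩⟩ := hC _ _ (hopen fun t => t = k z0)
    (hopen fun t => t ≠ k z0) hcov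
    ⟨f z0, hz0, hself z0 h0⟩
    ⟨f z1, hz1, by
      obtain ⟨ε, hε, hc⟩ := hself z1 h1
      exact ⟨ε, hε, fun w hw hd h => hne (h.symm.trans (hc w hw hd))⟩⟩
  obtain ⟨_, ⟨w, hw, rfl⟩, hd⟩ := Metric.mem_closure_iff.1 (hCS hc) (min ε1 ε2) (lt_min hε1 hε2)
  rw [dist_comm] at hd
  exact hc2 w hw (hd.trans_le (min_le_right _ _)) (hc1 w hw (hd.trans_le (min_le_left _ _)))

theorem E4_open (h : Interp D φ) (hM : Mazur) (hA : Att D φ R κ) {s : ℕ}
    (g : Fin s → MvPolynomial (Fin m ⊕ Fin m) ℚ) (A : Finset (Fin s)) (P : Set (Fin s → SignType))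
    (hE : ∀ x ∈ R, ∀ y ∈ R, (κ x = κ y ↔
      (fun i => if i ∈ A then SignType.sign (eval (Sum.elim x y) (g i)) else 0) ∈ P)) :
    {k : ℤ | ∃ x ∈ R, ∃ y ∈ R, κ x = k ∧ κ y = k ∧ ∏ i ∈ A, eval (Sum.elim x y) (g i) ≠ 0}.Finite := by
  obtain ⟨N, C, hC1, hC2, hC3⟩ := T1_cover hM (E4_QD h hA g A)
  have hfin : (⋃ j : Fin N, {k : ℤ | ∃ z ∈ E4S R κ g A, rl z ∈ C j ∧ κ (fun t => z (inl (inl t))) = k}).Finite := by
    refine Set.finite_iUnion fun j => Set.Subsingleton.finite ?_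
    rintro k ⟨z, hz, hzj, rfl⟩ l ⟨z', hz', hzj', rfl⟩
    exact E4_pre (E4S R κ g A) rl (fun z => κ (fun t => z (inl (inl t)))) (C j) (hC1 j) (hC2 j)
      (fun c hc => E4_loc g A P hE c hc) z z' hz hz' hzj hzj'
  refine hfin.subset ?_
  rintro k ⟨x, hx, y, hy, hxk, hyk, hne⟩
  have hz : (Sum.elim (Sum.elim x y) (fun _ => (∏ i ∈ A, eval (Sum.elim x y) (g i))⁻¹) :
      (Fin m ⊕ Fin m) ⊕ Unit → ℚ) ∈ E4S R κ g A :=
    ⟨hx, hy, hxk.trans hyk.symm, inv_mul_cancel₀ hne⟩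
  obtain ⟨j, hj⟩ := hC3 _ hz
  exact Set.mem_iUnion.2 ⟨j, _, hz, hj, hxk⟩

end H79.MZ
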