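import Pool.Agent.H79.MZ.E2b
import Pool.Agent.H79.MZ.E3
import Pool.Agent.H79.MZ.E4

/-!
# E5: equivalence relations which are quantifier-free definable in the ordered field

`E5_ind`, induction on `A` (`Finset.strongInduction` or induction on the cardinality), for all `R, P`.
* `A = ∅`: the pattern is always `0`; `κ x = κ x` shows that the pattern `0` is in `P` (`R` is nonempty), so `κ` is constant on `R`: contradiction to `hinf`.  (This case is also covered by the next one: see below.)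
* Step: by `E4_open` the set `K` of classes with a pair `(x, y)`, `∏_{i ∈ A} g i (x, y) ≠ 0` is finite (for `A = ∅` the product is `1`, so all classes are in `K`: contradiction).  Choose `B` with `K ⊆ [-B, B]`, let
  `R1 = {x ∈ R | B² < (κ x)²}` (`E1_gt`, `E1_sub`), `κ '' R1` is infinite, and for `x, y ∈ R1` with `κ x = κ y` the product vanishes.  Let `δ` bound the total degrees.  `E2b_norm` for `R1`, `d = s * δ`, gives `R'`;
  `E3_step` gives `i ∈ A` and `Q ⊆ R'` with `κ '' Q` infinite and `g i = 0` on `Q × Q`.  On `Q` the pattern for `A` is the pattern for `A.erase i` (both are `0` at `i`), so `hE` holds for `Q`, `A.erase i`, `P`, and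
  the induction hypothesis gives `False`.
`E5_main`: `A = univ`.
-/

open MvPolynomial Sum

namespace H79.MZ

variable {n : ℕ} {D : Set (Fin n → ℚ)} {φ : (Fin n → ℚ) → ℤ} {m : ℕ} {κ : (Fin m → ℚ) → ℤ}

theorem E5_ind (h : Interp D φ) (hM : Mazur) {s : ℕ} (g : Fin s → MvPolynomial (Fin m ⊕ Fin m) ℚ)
    (P : Set (Fin s → SignType)) (A : Finset (Fin s)) : ∀ R : Set (Fin m → ℚ), Att D φ R κ → (κ '' R).Infinite →
    (∀ x ∈ R, ∀ y ∈ R, (κ x = κ y ↔
      (fun i => if i ∈ A then SignType.sign (eval (Sum.elim x y) (g i)) else 0) ∈ P)) → False := by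
  classical
  induction A using Finset.strongInduction with
  | H A ih =>
    intro R hA hinf hE
    have hK := E4_open h hM hA g A P hE
    obtain ⟨B, hB⟩ : ∃ B : ℕ, ∀ k : ℤ, (∃ x ∈ R, ∃ y ∈ R, κ x = k ∧ κ y = k ∧
        ∏ i ∈ A, eval (Sum.elim x y) (g i) ≠ 0) → k.natAbs ≤ B := by
      obtain ⟨B, hB⟩ := (hK.image Int.natAbs).bddAbove
      exact ⟨B, fun k hk => hB ⟨k, hk, rfl⟩⟩
    set R1 : Set (Fin m → ℚ) := {x | x ∈ R ∧ (B : ℤ) ^ 2 < κ x ^ 2} with hR1
    have hR1R : R1 ⊆ R := fun x hx => hx.1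
    have hR1Q : QD R1 := E1_gt h hA B
    have hA1 : Att D φ R1 κ := E1_sub hA hR1Q hR1R
    have hsmall : {k : ℤ | k ^ 2 ≤ (B : ℤ) ^ 2}.Finite := by
      refine (Set.finite_Icc (-(B : ℤ)) B).subset fun k hk => ?_
      have h1 : k ^ 2 ≤ (B : ℤ) ^ 2 := hk
      exact abs_le.1 (abs_le_of_sq_le_sq h1 (by positivity))
    have hinf1 : (κ '' R1).Infinite := by
      intro hf
      refine hinf ((hf.union hsmall).subset ?_)
      rintro _ ⟨x, hx, rfl⟩
      by_cases h1 : (B : ℤ) ^ 2 < κ x ^ 2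
      · exact Or.inl ⟨x, ⟨hx, h1⟩, rfl⟩
      · exact Or.inr (not_lt.1 h1)
    have hz1 : ∀ x ∈ R1, ∀ y ∈ R1, κ x = κ y → ∏ i ∈ A, eval (Sum.elim x y) (g i) = 0 := by
      intro x hx y hy hxy
      by_contra hne
      have h1 := hB (κ x) ⟨x, hx.1, y, hy.1, rfl, hxy.symm, hne⟩
      have h2 : κ x ^ 2 ≤ (B : ℤ) ^ 2 := by
        rw [← Int.natAbs_sq (κ x)]
        exact pow_le_pow_left₀ (by positivity) (by exact_mod_cast h1) 2
      have h3 := hx.2
      omega
    set δ : ℕ := Finset.univ.sup (fun i => (g i).totalDegree) with hδ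
    have hδ' : ∀ i, (g i).totalDegree ≤ δ := fun i =>
      Finset.le_sup (f := fun i => (g i).totalDegree) (Finset.mem_univ i)
    obtain ⟨R', hR'1, hR'Q, hinf', hspan, hsub⟩ := E2b_norm h hM hA1 hinf1 (s * δ)
    obtain ⟨i, hiA, Q, hQR', hQQ, hQinf, hQz⟩ := E3_step hR'Q g δ hδ' A hinf' hspan hsub
      (fun x hx y hy hxy => hz1 x (hR'1 hx) y (hR'1 hy) hxy)
    have hQR : Q ⊆ R := fun x hx => hR1R (hR'1 (hQR' hx))
    refine ih (A.erase i) (Finset.erase_ssubset hiA) Q (E1_sub hA hQQ hQR) hQinf ?_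
    intro x hx y hy
    have hpat : (fun j => if j ∈ A.erase i then SignType.sign (eval (Sum.elim x y) (g j)) else 0) =
        (fun j => if j ∈ A then SignType.sign (eval (Sum.elim x y) (g j)) else 0) := by
      funext j
      by_cases hj : j = i
      · subst hj
        rw [if_neg (Finset.notMem_erase j A), if_pos hiA, hQz x hx y hy, sign_zero]
      · by_cases hjA : j ∈ A
        · rw [if_pos (Finset.mem_erase.2 ⟨hj, hjA⟩), if_pos hjA]
        · rw [if_neg (fun h => hjA (Finset.mem_of_mem_erase h)), if_neg hjA]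
    rw [hpat]
    exact hE x (hQR hx) y (hQR hy)

theorem E5_main (h : Interp D φ) {R : Set (Fin m → ℚ)} (hA : Att D φ R κ) (hinf : (κ '' R).Infinite) (s : ℕ)
    (g : Fin s → MvPolynomial (Fin m ⊕ Fin m) ℚ) (P : Set (Fin s → SignType))
    (hE : ∀ x ∈ R, ∀ y ∈ R, (κ x = κ y ↔ (fun i => SignType.sign (eval (Sum.elim x y) (g i))) ∈ P)) : ¬ Mazur := by
  intro hM
  refine E5_ind h hM g P Finset.univ R hA hinf ?_
  intro x hx y hy
  rw [hE x hx y hy]
  simp only [Finset.mem_univ, if_true]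

end H79.MZ
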