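import Pool.Agent.H79.MZ.E1

/-!
# F1: fibres with at most `d` points

`F1_lin`: for `x ≠ y` in `ℚ^m` there is a polynomial of degree `≤ 1` with a zero at `y` and not at `x`.
`F1_sep`: a set of at most `d` points is the zero set of its equations of degree `≤ d`.
`F1_main`: Mazur's conjecture fails if there are a Diophantine interpretation and an attached set with infinitely many
nonempty fibres, all with at most `d` points.
-/

open MvPolynomial Sum

namespace H79.MZ

variable {n : ℕ} {D : Set (Fin n → ℚ)} {φ : (Fin n → ℚ) → ℤ} {m : ℕ} {R : Set (Fin m → ℚ)} {κ : (Fin m → ℚ) → ℤ}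

theorem F1_lin (x y : Fin m → ℚ) (hxy : x ≠ y) :
    ∃ f : MvPolynomial (Fin m) ℚ, f.totalDegree ≤ 1 ∧ eval y f = 0 ∧ eval x f ≠ 0 := by
  obtain ⟨i, hi⟩ := Function.ne_iff.1 hxy
  refine ⟨X i - C (y i), ?_, ?_, ?_⟩
  · refine (totalDegree_sub _ _).trans ?_
    simp
  · simp
  · simpa [sub_eq_zero] using hi

theorem F1_sep (Y : Finset (Fin m → ℚ)) (x : Fin m → ℚ) (hx : x ∉ Y) :
    ∃ f : MvPolynomial (Fin m) ℚ, f.totalDegree ≤ Y.card ∧ (∀ y ∈ Y, eval y f = 0) ∧ eval x f ≠ 0 := by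
  have h : ∀ y : Fin m → ℚ, ∃ f : MvPolynomial (Fin m) ℚ, f.totalDegree ≤ 1 ∧ eval y f = 0 ∧ (y ∈ Y → eval x f ≠ 0) := by
    intro y
    by_cases hy : x = y
    · exact ⟨0, by simp, by simp, fun h => absurd (hy ▸ h) hx⟩
    · obtain ⟨f, h1, h2, h3⟩ := F1_lin x y hy
      exact ⟨f, h1, h2, fun _ => h3⟩
  choose f h1 h2 h3 using h
  refine ⟨∏ y ∈ Y, f y, ?_, ?_, ?_⟩
  · refine (totalDegree_finsetProd _ _).trans ?_
    refine (Finset.sum_le_sum fun y _ => h1 y).trans ?_
    simp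
  · intro y hy
    rw [map_prod]
    exact Finset.prod_eq_zero hy (h2 y)
  · rw [map_prod]
    exact Finset.prod_ne_zero_iff.2 fun y hy => h3 y hy

theorem F1_main (h : Interp D φ) (hA : Att D φ R κ) (hinf : (κ '' R).Infinite) (d : ℕ)
    (hd : ∀ k : ℤ, (fib R κ k).encard ≤ d) : ¬ Mazur := by
  have hfin : ∀ k : ℤ, (fib R κ k).Finite := fun k => Set.finite_of_encard_le_coe (hd k)
  refine C3_main h hA d ?_ ?_
  · refine hinf.mono ?_
    rintro k ⟨x, hx, rfl⟩
    show (fam _ D φ (κ x)).Nonempty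
    rw [E1_fam h]
    exact ⟨x, hx, rfl⟩
  · intro k hk
    rw [E1_fam h] at hk
    obtain ⟨x, hx, hxk⟩ := hk
    refine (Set.finite_singleton k).subset ?_
    intro l hl
    by_contra hlk
    have hlk' : l ≠ k := hlk
    have hl' : eqs d (fib R κ l) = eqs d (fib R κ k) := by
      have h2 : eqs d (fam _ D φ l) = eqs d (fam _ D φ k) := hl
      rwa [E1_fam h, E1_fam h] at h2
    have hxl : x ∉ (hfin l).toFinset := by
      rw [Set.Finite.mem_toFinset]
      rintro ⟨_, h3⟩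
      exact hlk' (h3.symm.trans hxk)
    obtain ⟨f, hf1, hf2, hf3⟩ := F1_sep (hfin l).toFinset x hxl
    have hcard : (hfin l).toFinset.card ≤ d := by
      have h4 := hd l
      rw [(hfin l).encard_eq_coe_toFinset_card] at h4
      exact_mod_cast h4
    have hmem : f ∈ eqs d (fib R κ l) := ⟨hf1.trans hcard, fun y hy => hf2 y (by rwa [Set.Finite.mem_toFinset])⟩
    rw [hl'] at hmem
    exact hf3 (hmem.2 x ⟨hx, hxk⟩)

theorem F1_self (h : Interp D φ) : Att D φ D φ := by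
  refine (congrArg QD ?_).mp (Q1_comp h.eqv (fun p : Fin 2 × Fin n => (![inl p.2, inr p.2] : Fin 2 → Fin n ⊕ Fin n) p.1))
  rfl

end H79.MZ
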