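import Pool.Agent.H79.MZ.Q1

/-!
# Q3: integer polynomials in the interpreted integers

* `Q3_row`: `{z : κ × Fin n → ℚ | row z a ∈ D}` is `Q1_comp h.dom (fun i => (a, i))`.
* `Q3_rows`: `Q1_all`.
* `Q3_const`: choose `e ∈ D` with `φ e = a` (`h.surj`).  `{x | x ∈ D ∧ φ x = a} = {x | (x, e) ∈ E}`, `Q1_subst h.eqv` with `F (0, i) = X i`, `F (1, i) = C (e i)`.
* `Q3_eq, Q3_add, Q3_mul`: `Q1_comp` of `h.eqv, h.add, h.mul` along `(t, i) ↦ (![a, b] t, i)` resp. `(![a, b, c] t, i)`.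
* `Q3_poly`: induction on `P` (`MvPolynomial.induction_on`):
  - `C a`: `Q3_rows ∩ Q3_const` (composed with the row `none`);
  - `P + Q`: `{z | ∃ w : Fin 2 × Fin n → ℚ, (z with row none replaced by row w 0) ∈ T_P ∧ (.. row w 1) ∈ T_Q ∧ φ (row w 0) + φ (row w 1) = φ (row z none), row z none ∈ D}`
    (`Q1_ex` for the index type `(Option ι × Fin n) ⊕ (Fin 2 × Fin n)`, `Q1_comp` of the induction hypotheses along `(some i, t) ↦ inl (some i, t)`, `(none, t) ↦ inr (0, t)`, and `Q1_comp h.add`);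
    existence of the two rows in `D`: `h.surj`;
  - `P * X i`: the same with one new row `w` with `φ w = P(..)` and `φ w * φ (row z (some i)) = φ (row z none)`.
-/

open MvPolynomial Sum

namespace H79.MZ

variable {n : ℕ} {D : Set (Fin n → ℚ)} {φ : (Fin n → ℚ) → ℤ}

theorem Q3_congr {ι : Type} {S T : Set (ι → ℚ)} (h : ∀ x, x ∈ S ↔ x ∈ T) (hT : QD T) : QD S := by
  have : S = T := Set.ext h
  rw [this]
  exact hT

def Q3_g {ι : Type} {n m : ℕ} (c : Fin m) (ti : Option ι × Fin n) : (Option ι × Fin n) ⊕ (Fin m × Fin n) :=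
  match ti with
  | (some i, t) => inl (some i, t)
  | (none, t) => inr (c, t)

theorem Q3_row (h : Interp D φ) {κ : Type} (a : κ) : QD {z : κ × Fin n → ℚ | row z a ∈ D} := by
  exact Q1_comp h.dom (fun i => (a, i))

theorem Q3_rows (h : Interp D φ) {κ : Type} [Fintype κ] : QD {z : κ × Fin n → ℚ | ∀ a, row z a ∈ D} := by
  exact Q1_all (S := fun a => {z : κ × Fin n → ℚ | row z a ∈ D}) (fun a => Q3_row h a)

theorem Q3_const (h : Interp D φ) (a : ℤ) : QD {x : Fin n → ℚ | x ∈ D ∧ φ x = a} := by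
  obtain ⟨e, he, hea⟩ := h.surj (Set.mem_univ a)
  have key := Q1_subst h.eqv (fun ti : Fin 2 × Fin n => if ti.1 = 0 then (X ti.2 : MvPolynomial (Fin n) ℚ) else C (e ti.2))
  refine Q3_congr ?_ key
  intro x
  have h0 : row (fun ti : Fin 2 × Fin n => eval x (if ti.1 = 0 then (X ti.2 : MvPolynomial (Fin n) ℚ) else C (e ti.2))) 0 = x := by
    funext i
    simp [row]
  have h1 : row (fun ti : Fin 2 × Fin n => eval x (if ti.1 = 0 then (X ti.2 : MvPolynomial (Fin n) ℚ) else C (e ti.2))) 1 = e := by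
    funext i
    simp [row]
  show _ ↔ (row (fun ti : Fin 2 × Fin n => eval x (if ti.1 = 0 then (X ti.2 : MvPolynomial (Fin n) ℚ) else C (e ti.2))) 0 ∈ D ∧
    row (fun ti : Fin 2 × Fin n => eval x (if ti.1 = 0 then (X ti.2 : MvPolynomial (Fin n) ℚ) else C (e ti.2))) 1 ∈ D ∧
    φ (row (fun ti : Fin 2 × Fin n => eval x (if ti.1 = 0 then (X ti.2 : MvPolynomial (Fin n) ℚ) else C (e ti.2))) 0) =
    φ (row (fun ti : Fin 2 × Fin n => eval x (if ti.1 = 0 then (X ti.2 : MvPolynomial (Fin n) ℚ) else C (e ti.2))) 1))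
  rw [h0, h1, hea]
  constructor
  · rintro ⟨hx, hxa⟩
    exact ⟨hx, he, hxa⟩
  · rintro ⟨hx, _, hxa⟩
    exact ⟨hx, hxa⟩

theorem Q3_eq (h : Interp D φ) {κ : Type} (a b : κ) :
    QD {z : κ × Fin n → ℚ | row z a ∈ D ∧ row z b ∈ D ∧ φ (row z a) = φ (row z b)} := by
  exact Q1_comp h.eqv (fun ti : Fin 2 × Fin n => (![a, b] ti.1, ti.2))

theorem Q3_add (h : Interp D φ) {κ : Type} (a b c : κ) :
    QD {z : κ × Fin n → ℚ | row z a ∈ D ∧ row z b ∈ D ∧ row z c ∈ D ∧ φ (row z a) + φ (row z b) = φ (row z c)} := by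
  exact Q1_comp h.add (fun ti : Fin 3 × Fin n => (![a, b, c] ti.1, ti.2))

theorem Q3_mul (h : Interp D φ) {κ : Type} (a b c : κ) :
    QD {z : κ × Fin n → ℚ | row z a ∈ D ∧ row z b ∈ D ∧ row z c ∈ D ∧ φ (row z a) * φ (row z b) = φ (row z c)} := by
  exact Q1_comp h.mul (fun ti : Fin 3 × Fin n => (![a, b, c] ti.1, ti.2))

theorem Q3_poly (h : Interp D φ) {ι : Type} [Fintype ι] (P : MvPolynomial ι ℤ) :
    QD {z : Option ι × Fin n → ℚ | (∀ a, row z a ∈ D) ∧ φ (row z none) = eval (fun i => φ (row z (some i))) P} := by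
  induction P using MvPolynomial.induction_on with
  | C a =>
    have h1 := Q1_inter (Q3_rows h (κ := Option ι)) (Q1_comp (Q3_const h a) (fun i => ((none : Option ι), i)))
    refine Q3_congr ?_ h1
    intro z
    show ((∀ a, row z a ∈ D) ∧ φ (row z none) = eval (fun i => φ (row z (some i))) (C a)) ↔
      ((∀ a, row z a ∈ D) ∧ (row z none ∈ D ∧ φ (row z none) = a))
    rw [eval_C]
    constructor
    · rintro ⟨h1, h2⟩
      exact ⟨h1, h1 none, h2⟩
    · rintro ⟨h1, _, h2⟩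
      exact ⟨h1, h2⟩
  | add P Q hP hQ =>
    have hR : QD {u : (Option ι × Fin n) ⊕ (Fin 2 × Fin n) → ℚ |
        (fun ti : Option ι × Fin n => u (Q3_g (0 : Fin 2) ti)) ∈ {z : Option ι × Fin n → ℚ | (∀ a, row z a ∈ D) ∧
          φ (row z none) = eval (fun i => φ (row z (some i))) P}} :=
      Q1_comp hP (Q3_g (0 : Fin 2))
    have hS : QD {u : (Option ι × Fin n) ⊕ (Fin 2 × Fin n) → ℚ |
        (fun ti : Option ι × Fin n => u (Q3_g (1 : Fin 2) ti)) ∈ {z : Option ι × Fin n → ℚ | (∀ a, row z a ∈ D) ∧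
          φ (row z none) = eval (fun i => φ (row z (some i))) Q}} :=
      Q1_comp hQ (Q3_g (1 : Fin 2))
    have hT : QD {u : (Option ι × Fin n) ⊕ (Fin 2 × Fin n) → ℚ |
        (fun ti : Fin 3 × Fin n => u (![inr (0, ti.2), inr (1, ti.2), inl (none, ti.2)] ti.1)) ∈
          {z : Fin 3 × Fin n → ℚ | row z 0 ∈ D ∧ row z 1 ∈ D ∧ row z 2 ∈ D ∧ φ (row z 0) + φ (row z 1) = φ (row z 2)}} :=
      Q1_comp h.add (fun ti : Fin 3 × Fin n => (![inr (0, ti.2), inr (1, ti.2), inl (none, ti.2)] ti.1 :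
        (Option ι × Fin n) ⊕ (Fin 2 × Fin n)))
    have hU := Q1_ex (Q1_inter (Q1_inter hR hS) hT)
    refine Q3_congr ?_ hU
    intro z
    constructor
    · rintro ⟨hz, hev⟩
      rw [eval_add] at hev
      obtain ⟨x, hx, hxa⟩ := h.surj (Set.mem_univ (eval (fun i => φ (row z (some i))) P))
      obtain ⟨y, hy, hya⟩ := h.surj (Set.mem_univ (eval (fun i => φ (row z (some i))) Q))
      refine ⟨fun ti => ![x, y] ti.1 ti.2, ⟨⟨⟨?_, ?_⟩, ⟨?_, ?_⟩⟩, ?_⟩⟩
      · intro a
        cases a with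
        | none => exact hx
        | some i => exact hz (some i)
      · exact hxa
      · intro a
        cases a with
        | none => exact hy
        | some i => exact hz (some i)
      · exact hya
      · refine ⟨hx, hy, hz none, ?_⟩
        show φ x + φ y = φ (row z none)
        rw [hxa, hya, hev]
    · rintro ⟨w, ⟨⟨⟨h1, h2⟩, ⟨h3, h4⟩⟩, ⟨h5, h6, h7, h8⟩⟩⟩
      refine ⟨?_, ?_⟩
      · intro a
        cases a with
        | none => exact h7
        | some i => exact h1 (some i)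
      · rw [eval_add]
        have e1 : φ (row w 0) = eval (fun i => φ (row z (some i))) P := h2
        have e2 : φ (row w 1) = eval (fun i => φ (row z (some i))) Q := h4
        have e3 : φ (row w 0) + φ (row w 1) = φ (row z none) := h8
        rw [← e1, ← e2, e3]
  | mul_X P j hP =>
    have hR : QD {u : (Option ι × Fin n) ⊕ (Fin 1 × Fin n) → ℚ |
        (fun ti : Option ι × Fin n => u (Q3_g (0 : Fin 1) ti)) ∈ {z : Option ι × Fin n → ℚ | (∀ a, row z a ∈ D) ∧
          φ (row z none) = eval (fun i => φ (row z (some i))) P}} :=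
      Q1_comp hP (Q3_g (0 : Fin 1))
    have hT : QD {u : (Option ι × Fin n) ⊕ (Fin 1 × Fin n) → ℚ |
        (fun ti : Fin 3 × Fin n => u (![inr (0, ti.2), inl (some j, ti.2), inl (none, ti.2)] ti.1)) ∈
          {z : Fin 3 × Fin n → ℚ | row z 0 ∈ D ∧ row z 1 ∈ D ∧ row z 2 ∈ D ∧ φ (row z 0) * φ (row z 1) = φ (row z 2)}} :=
      Q1_comp h.mul (fun ti : Fin 3 × Fin n => (![inr (0, ti.2), inl (some j, ti.2), inl (none, ti.2)] ti.1 :
        (Option ι × Fin n) ⊕ (Fin 1 × Fin n)))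
    have hU := Q1_ex (Q1_inter hR hT)
    refine Q3_congr ?_ hU
    intro z
    constructor
    · rintro ⟨hz, hev⟩
      rw [eval_mul, eval_X] at hev
      obtain ⟨x, hx, hxa⟩ := h.surj (Set.mem_univ (eval (fun i => φ (row z (some i))) P))
      refine ⟨fun ti => x ti.2, ⟨⟨?_, ?_⟩, ?_⟩⟩
      · intro a
        cases a with
        | none => exact hx
        | some i => exact hz (some i)
      · exact hxa
      · refine ⟨hx, hz (some j), hz none, ?_⟩
        show φ x * φ (row z (some j)) = φ (row z none)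
        rw [hxa, hev]
    · rintro ⟨w, ⟨⟨h1, h2⟩, ⟨h5, h6, h7, h8⟩⟩⟩
      refine ⟨?_, ?_⟩
      · intro a
        cases a with
        | none => exact h7
        | some i => exact h1 (some i)
      · rw [eval_mul, eval_X]
        have e1 : φ (row w 0) = eval (fun i => φ (row z (some i))) P := h2
        have e3 : φ (row w 0) * φ (row z (some j)) = φ (row z none) := h8
        rw [← e1, e3]

end H79.MZ
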