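import Pool.Agent.H79.MZ.Q2
import Pool.Agent.H79.MZ.Q3

/-!
# G1a: the isomorphism `ℤ ≅ D / E` by recursion, combinatorial part

* `G1a_succ`: `{z | ∃ w : Fin n → ℚ, w ∈ D ∧ φ w = 1 ∧ row z 0, row z 1 ∈ D, φ (row z 0) + φ w = φ (row z 1)}`: `Q1_ex` (index type `(Fin 2 × Fin n) ⊕ Fin n`), `Q3_const`, `h.add` with
  `Q1_comp` (along `(0, i) ↦ inl (0, i)`, `(1, i) ↦ inr i`, `(2, i) ↦ inl (1, i)`), `Q1_inter`; existence of `w`: `h.surj`.
* `G1a_iff`, `→`: for `i < k` choose `x i ∈ D` with `φ (x i) = i` (`h.surj`) and a code `s i` of it (`Q2_surj`); `s k = v`.  For each `j : Fin n × Fin 3` let `l = List.ofFn (fun i : Fin (k + 1) => s i j)`,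
  `u = Nat.unbeta l`, `c j = u.unpair.1`, `d j = u.unpair.2`; by `Nat.beta_unbeta_coe`, `c j % ((i + 1) * d j + 1) = Nat.beta u i = s i j` for `i ≤ k`, i.e. `sq c d i = s i`.
  `←`: induction on `i ≤ k`: `dec (sq c d i) ∈ D` and `φ (..) = i`; then take `i = k`.
-/

open MvPolynomial Sum

namespace H79.MZ

variable {n : ℕ} {D : Set (Fin n → ℚ)} {φ : (Fin n → ℚ) → ℤ}

/-- the `i`-th member of the coded sequence of codes -/
def sq {J : Type} (c d : J → ℕ) (i : ℕ) : J → ℕ := fun j => c j % ((i + 1) * d j + 1)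

theorem G1a_succ (h : Interp D φ) :
    QD {z : Fin 2 × Fin n → ℚ | row z 0 ∈ D ∧ row z 1 ∈ D ∧ φ (row z 0) + 1 = φ (row z 1)} := by
  have hR : QD {u : (Fin 2 × Fin n) ⊕ Fin n → ℚ |
      (fun i : Fin n => u (inr i)) ∈ {x : Fin n → ℚ | x ∈ D ∧ φ x = 1}} :=
    Q1_comp (Q3_const h 1) (fun i : Fin n => (inr i : (Fin 2 × Fin n) ⊕ Fin n))
  have hT : QD {u : (Fin 2 × Fin n) ⊕ Fin n → ℚ |
      (fun ti : Fin 3 × Fin n => u (![inl (0, ti.2), inr ti.2, inl (1, ti.2)] ti.1)) ∈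
        {z : Fin 3 × Fin n → ℚ | row z 0 ∈ D ∧ row z 1 ∈ D ∧ row z 2 ∈ D ∧ φ (row z 0) + φ (row z 1) = φ (row z 2)}} :=
    Q1_comp h.add (fun ti : Fin 3 × Fin n => (![inl (0, ti.2), inr ti.2, inl (1, ti.2)] ti.1 :
      (Fin 2 × Fin n) ⊕ Fin n))
  have hU := Q1_ex (Q1_inter hR hT)
  refine Q3_congr ?_ hU
  intro z
  constructor
  · rintro ⟨h0, h1, h2⟩
    obtain ⟨x, hx, hxa⟩ := h.surj (Set.mem_univ (1 : ℤ))
    refine ⟨x, ⟨hx, hxa⟩, h0, hx, h1, ?_⟩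
    show φ (row z 0) + φ x = φ (row z 1)
    rw [hxa, h2]
  · rintro ⟨w, ⟨hw, hwa⟩, h1, h2, h3, h4⟩
    refine ⟨h1, h3, ?_⟩
    have e : φ (row z 0) + φ w = φ (row z 1) := h4
    have e1 : φ w = 1 := hwa
    rw [e1] at e
    exact e

theorem G1a_sq {J : Type} (s : ℕ → J → ℕ) (k : ℕ) : ∃ c d : J → ℕ, ∀ i ≤ k, sq c d i = s i := by
  refine ⟨fun j => (Nat.unbeta (List.ofFn (fun i : Fin (k + 1) => s i j))).unpair.1,
    fun j => (Nat.unbeta (List.ofFn (fun i : Fin (k + 1) => s i j))).unpair.2, ?_⟩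
  intro i hi
  funext j
  have hlen : i < (List.ofFn (fun i : Fin (k + 1) => s i j)).length := by
    rw [List.length_ofFn]
    omega
  have h1 := Nat.beta_unbeta_coe (List.ofFn (fun i : Fin (k + 1) => s i j)) ⟨i, hlen⟩
  rw [Nat.beta] at h1
  rw [sq]
  refine h1.trans ?_
  rw [Fin.getElem_fin, List.getElem_ofFn]

theorem G1a_iff (h : Interp D φ) (k : ℕ) (v : Fin n × Fin 3 → ℕ) :
    (dec v ∈ D ∧ φ (dec v) = k) ↔ ∃ c d : Fin n × Fin 3 → ℕ,
      (dec (sq c d 0) ∈ D ∧ φ (dec (sq c d 0)) = 0) ∧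
      (∀ i < k, dec (sq c d i) ∈ D ∧ dec (sq c d (i + 1)) ∈ D ∧ φ (dec (sq c d i)) + 1 = φ (dec (sq c d (i + 1)))) ∧
      sq c d k = v := by
  constructor
  · rintro ⟨hv, hk⟩
    have hx : ∀ i : ℕ, ∃ s : Fin n × Fin 3 → ℕ, dec s ∈ D ∧ φ (dec s) = (i : ℤ) := by
      intro i
      obtain ⟨x, hx, hxa⟩ := h.surj (Set.mem_univ (i : ℤ))
      obtain ⟨s, hs⟩ := Q2_surj x
      exact ⟨s, by rw [hs]; exact hx, by rw [hs]; exact hxa⟩
    choose s hs hsφ using hx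
    have hs2 : ∀ i, dec (if i = k then v else s i) ∈ D ∧
        φ (dec (if i = k then v else s i)) = (i : ℤ) := by
      intro i
      by_cases hik : i = k
      · rw [if_pos hik, hik]
        exact ⟨hv, hk⟩
      · rw [if_neg hik]
        exact ⟨hs i, hsφ i⟩
    obtain ⟨c, d, hcd⟩ := G1a_sq (fun i => if i = k then v else s i) k
    refine ⟨c, d, ?_, ?_, ?_⟩
    · rw [hcd 0 (Nat.zero_le k)]
      have := hs2 0
      exact_mod_cast this
    · intro i hi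
      rw [hcd i hi.le, hcd (i + 1) hi]
      refine ⟨(hs2 i).1, (hs2 (i + 1)).1, ?_⟩
      have h1 := (hs2 i).2
      have h2 := (hs2 (i + 1)).2
      show φ (dec (if i = k then v else s i)) + 1 = φ (dec (if i + 1 = k then v else s (i + 1)))
      rw [h1, h2]
      push_cast
      ring
    · rw [hcd k le_rfl]
      exact if_pos rfl
  · rintro ⟨c, d, ⟨h0, h0'⟩, hs, hv⟩
    have key : ∀ i ≤ k, dec (sq c d i) ∈ D ∧ φ (dec (sq c d i)) = (i : ℤ) := by
      intro i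
      induction i with
      | zero =>
        intro _
        exact ⟨h0, by rw [h0']; rfl⟩
      | succ i ih =>
        intro hi
        obtain ⟨h1, h2⟩ := ih (by omega)
        obtain ⟨h3, h4, h5⟩ := hs i (by omega)
        refine ⟨h4, ?_⟩
        rw [← h5, h2]
        push_cast
        ring
    have := key k le_rfl
    rw [hv] at this
    exact this

end H79.MZ
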