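import Pool.Agent.H79.MZ.G1a
import Pool.Agent.H79.MZ.A7

/-!
# G1b: the graph of `φ` (for natural values) is Diophantine over the integers

Let `J = Fin n × Fin 3`.  By `G1a_iff` the set is `{v | ∃ t : J ⊕ J → ℕ, Sum.elim v t ∈ T}` (`Dioph.ex_dioph`; `c = t ∘ inl`, `d = t ∘ inr`), and `T ⊆ (Option J ⊕ (J ⊕ J) → ℕ)` is the intersection of
three sets of `w` (`k = w (inl none)`, `v j = w (inl (some j))`, `c j = w (inr (inl j))`, `d j = w (inr (inr j))`):
* `{w | dec (sq c d 0) ∈ D ∧ φ (dec (sq c d 0)) = 0}`: `Q3_const h 0`, `Q2_QD`, `A5a_comp` with the functions `w ↦ c j % ((0 + 1) * d j + 1)` (`Dioph.mod_dioph, add_dioph, mul_dioph, proj_dioph, const_dioph`);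
* `{w | ∀ i < k, ...}`: `A7_bq` with `f w = w (inl none)` and the set of `u : Option (Option J ⊕ (J ⊕ J)) → ℕ` (`i = u none`, `c j = u (some (inr (inl j)))`, ...) for which the three conditions hold:
  `G1a_succ`, `Q2_QD`, `A5a_comp` with the functions (index set `(Fin 2 × Fin n) × Fin 3`) `((0, a), s) ↦ c (a, s) % ((i + 1) * d (a, s) + 1)`, `((1, a), s) ↦ c (a, s) % ((i + 1 + 1) * d (a, s) + 1)`;
* `{w | sq c d k = v}`: `∀ j, c j % ((k + 1) * d j + 1) = v j`: `A5a_forall`, `Dioph.eq_dioph`.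
-/

open MvPolynomial Sum

namespace H79.MZ

variable {n : ℕ} {D : Set (Fin n → ℚ)} {φ : (Fin n → ℚ) → ℤ}

/-- the condition on two consecutive members -/
def G1b_P (D : Set (Fin n → ℚ)) (φ : (Fin n → ℚ) → ℤ) (c d : Fin n × Fin 3 → ℕ) (i : ℕ) : Prop :=
  dec (sq c d i) ∈ D ∧ dec (sq c d (i + 1)) ∈ D ∧ φ (dec (sq c d i)) + 1 = φ (dec (sq c d (i + 1)))

theorem G1b_sq {α : Type} {J : Type} {c d : J → (α → ℕ) → ℕ} {e : (α → ℕ) → ℕ}
    (hc : ∀ j, Dioph.DiophFn (c j)) (hd : ∀ j, Dioph.DiophFn (d j)) (he : Dioph.DiophFn e) (j : J) :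
    Dioph.DiophFn fun w => c j w % ((e w + 1) * d j w + 1) :=
  Dioph.mod_dioph (hc j) (Dioph.add_dioph (Dioph.mul_dioph (Dioph.add_dioph he (Dioph.const_dioph 1))
    (hd j)) (Dioph.const_dioph 1))

theorem G1b_T1 (h : Interp D φ) {α : Type} {c d : Fin n × Fin 3 → (α → ℕ) → ℕ}
    (hc : ∀ j, Dioph.DiophFn (c j)) (hd : ∀ j, Dioph.DiophFn (d j)) :
    Dioph {w : α → ℕ | dec (sq (fun j => c j w) (fun j => d j w) 0) ∈ D ∧
      φ (dec (sq (fun j => c j w) (fun j => d j w) 0)) = 0} := by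
  have h1 : Dioph {v : Fin n × Fin 3 → ℕ | dec v ∈ {x : Fin n → ℚ | x ∈ D ∧ φ x = 0}} :=
    Q2_QD (Q3_const h 0)
  exact (A5a_comp h1 (F := fun j w => c j w % ((0 + 1) * d j w + 1))
    (fun j => G1b_sq hc hd (Dioph.const_dioph 0) j)).ext fun w => Iff.rfl

theorem G1b_T2 (h : Interp D φ) {α : Type} {c d : Fin n × Fin 3 → (α → ℕ) → ℕ} {e : (α → ℕ) → ℕ}
    (hc : ∀ j, Dioph.DiophFn (c j)) (hd : ∀ j, Dioph.DiophFn (d j)) (he : Dioph.DiophFn e) :
    Dioph {w : α → ℕ | G1b_P D φ (fun j => c j w) (fun j => d j w) (e w)} := by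
  have h1 : Dioph {v : (Fin 2 × Fin n) × Fin 3 → ℕ | dec v ∈ {z : Fin 2 × Fin n → ℚ |
      row z 0 ∈ D ∧ row z 1 ∈ D ∧ φ (row z 0) + 1 = φ (row z 1)}} := Q2_QD (G1a_succ h)
  have h2 : ∀ b : (Fin 2 × Fin n) × Fin 3, Dioph.DiophFn fun w : α → ℕ =>
      c (b.1.2, b.2) w % ((e w + (b.1.1 : ℕ) + 1) * d (b.1.2, b.2) w + 1) := fun b =>
    G1b_sq hc hd (Dioph.add_dioph he (Dioph.const_dioph _)) (b.1.2, b.2)
  exact (A5a_comp h1 h2).ext fun w => Iff.rfl

theorem G1b_T3 {α J : Type} [Fintype J] {c d v : J → (α → ℕ) → ℕ} {e : (α → ℕ) → ℕ}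
    (hc : ∀ j, Dioph.DiophFn (c j)) (hd : ∀ j, Dioph.DiophFn (d j)) (hv : ∀ j, Dioph.DiophFn (v j))
    (he : Dioph.DiophFn e) :
    Dioph {w : α → ℕ | sq (fun j => c j w) (fun j => d j w) (e w) = fun j => v j w} := by
  refine (A5a_forall (κ := J) fun j => Dioph.eq_dioph (G1b_sq hc hd he j) (hv j)).ext fun w => ?_
  constructor
  · intro hw
    funext j
    exact hw j
  · intro hw j
    exact congrFun hw j

theorem G1b_graph (h : Interp D φ) : Dioph {v : Option (Fin n × Fin 3) → ℕ |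
    dec (fun j => v (some j)) ∈ D ∧ φ (dec (fun j => v (some j))) = (v none : ℤ)} := by
  have hp : ∀ (α : Type) (a : α), Dioph.DiophFn (fun w : α → ℕ => w a) := fun α a => Dioph.proj_dioph a
  have h1 := G1b_T1 h (α := Option (Fin n × Fin 3) ⊕ ((Fin n × Fin 3) ⊕ (Fin n × Fin 3)))
    (c := fun j w => w (inr (inl j))) (d := fun j w => w (inr (inr j)))
    (fun j => hp _ _) (fun j => hp _ _)
  have h2 := A7_bq (G1b_T2 h (α := Option (Option (Fin n × Fin 3) ⊕ ((Fin n × Fin 3) ⊕ (Fin n × Fin 3))))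
    (c := fun j w => w (some (inr (inl j)))) (d := fun j w => w (some (inr (inr j))))
    (e := fun w => w none) (fun j => hp _ _) (fun j => hp _ _) (hp _ _))
    (f := fun w => w (inl none)) (hp _ _)
  have h3 := G1b_T3 (α := Option (Fin n × Fin 3) ⊕ ((Fin n × Fin 3) ⊕ (Fin n × Fin 3)))
    (c := fun j w => w (inr (inl j))) (d := fun j w => w (inr (inr j)))
    (v := fun j w => w (inl (some j))) (e := fun w => w (inl none))
    (fun j => hp _ _) (fun j => hp _ _) (fun j => hp _ _) (hp _ _)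
  refine (Dioph.ex_dioph (Dioph.inter h1 (Dioph.inter h2 h3))).ext fun v => ?_
  constructor
  · rintro ⟨t, ht1, ht2, ht3⟩
    exact (G1a_iff h (v none) (fun j => v (some j))).2
      ⟨fun j => t (inl j), fun j => t (inr j), ht1, ht2, ht3⟩
  · intro hv
    obtain ⟨c, d, hc1, hc2, hc3⟩ := (G1a_iff h (v none) (fun j => v (some j))).1 hv
    exact ⟨Sum.elim c d, hc1, hc2, hc3⟩

end H79.MZ
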