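import Pool.Agent.H79.MZ.G1b

/-!
# G2: the graph of `φ` is Diophantine over the integers

`x ∈ D`, `φ x = a - b` iff there are codes `y, z` of elements of `D` with `φ y = a`, `φ z = b`, `φ x + φ z = φ y` (`h.surj`, `Q2_surj`).  `Dioph.ex_dioph` with new variables `J ⊕ J`, `J = Fin n × Fin 3`; the
three conditions are Diophantine by `G1b_graph` (twice) and `Q2_QD h.add` (`dec` of the code of the triple `(x, z, y)`, index set `(Fin 3 × Fin n) × Fin 3`), each composed with a reindexing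
(`Dioph.reindex_dioph`); `Dioph.inter`.
-/

open MvPolynomial Sum

namespace H79.MZ

variable {n : ℕ} {D : Set (Fin n → ℚ)} {φ : (Fin n → ℚ) → ℤ}

/-- reindexing: the natural number `v (inl a)` and the code `c` -/
def G2_f1 (a : Fin 2) (c : Fin n × Fin 3 → (Fin n × Fin 3) ⊕ (Fin n × Fin 3)) :
    Option (Fin n × Fin 3) → (Fin 2 ⊕ (Fin n × Fin 3)) ⊕ ((Fin n × Fin 3) ⊕ (Fin n × Fin 3))
  | none => inl (inl a)
  | some j => inr (c j)

/-- reindexing for the sum -/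
def G2_f3 (p : (Fin 3 × Fin n) × Fin 3) :
    (Fin 2 ⊕ (Fin n × Fin 3)) ⊕ ((Fin n × Fin 3) ⊕ (Fin n × Fin 3)) :=
  ![inl (inr (p.1.2, p.2)), inr (inr (p.1.2, p.2)), inr (inl (p.1.2, p.2))] p.1.1

theorem G2_graph (h : Interp D φ) : Dioph {v : Fin 2 ⊕ (Fin n × Fin 3) → ℕ |
    dec (fun j => v (inr j)) ∈ D ∧ φ (dec (fun j => v (inr j))) = (v (inl 0) : ℤ) - (v (inl 1) : ℤ)} := by
  have hG := G1b_graph h
  have h1 := Dioph.reindex_dioph _ (G2_f1 (n := n) 0 inl) hG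
  have h2 := Dioph.reindex_dioph _ (G2_f1 (n := n) 1 inr) hG
  have h3 := Dioph.reindex_dioph _ (G2_f3 (n := n)) (Q2_QD h.add)
  refine (Dioph.ex_dioph ((h1.inter h2).inter h3)).ext ?_
  intro v
  have key : ∀ t : (Fin n × Fin 3) ⊕ (Fin n × Fin 3) → ℕ,
      (Sum.elim v t ∈ ({w | w ∘ (G2_f1 (n := n) 0 inl) ∈ {v : Option (Fin n × Fin 3) → ℕ |
          dec (fun j => v (some j)) ∈ D ∧ φ (dec (fun j => v (some j))) = (v none : ℤ)}} ∩
        {w | w ∘ (G2_f1 (n := n) 1 inr) ∈ {v : Option (Fin n × Fin 3) → ℕ |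
          dec (fun j => v (some j)) ∈ D ∧ φ (dec (fun j => v (some j))) = (v none : ℤ)}} ∩
        {w | w ∘ (G2_f3 (n := n)) ∈ {v : (Fin 3 × Fin n) × Fin 3 → ℕ | dec v ∈
          {z : Fin 3 × Fin n → ℚ | row z 0 ∈ D ∧ row z 1 ∈ D ∧ row z 2 ∈ D ∧
            φ (row z 0) + φ (row z 1) = φ (row z 2)}}})) ↔
      ((dec (fun j => t (inl j)) ∈ D ∧ φ (dec (fun j => t (inl j))) = (v (inl 0) : ℤ)) ∧
       (dec (fun j => t (inr j)) ∈ D ∧ φ (dec (fun j => t (inr j))) = (v (inl 1) : ℤ))) ∧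
       (dec (fun j => v (inr j)) ∈ D ∧ dec (fun j => t (inr j)) ∈ D ∧ dec (fun j => t (inl j)) ∈ D ∧
        φ (dec (fun j => v (inr j))) + φ (dec (fun j => t (inr j))) = φ (dec (fun j => t (inl j)))) :=
    fun t => Iff.rfl
  constructor
  · rintro ⟨t, ht⟩
    obtain ⟨⟨⟨-, ha⟩, ⟨-, hb⟩⟩, hx, -, -, hs⟩ := (key t).1 ht
    exact ⟨hx, by rw [← ha, ← hb]; omega⟩
  · rintro ⟨hx, hφ⟩
    obtain ⟨y, hy, hya⟩ := h.surj (Set.mem_univ ((v (inl 0) : ℤ)))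
    obtain ⟨z, hz, hzb⟩ := h.surj (Set.mem_univ ((v (inl 1) : ℤ)))
    obtain ⟨cy, rfl⟩ := Q2_surj y
    obtain ⟨cz, rfl⟩ := Q2_surj z
    refine ⟨Sum.elim cy cz, (key _).2 ⟨⟨⟨hy, hya⟩, ⟨hz, hzb⟩⟩, hx, hz, hy, ?_⟩⟩
    change φ (dec (fun j => v (inr j))) + φ (dec cz) = φ (dec cy)
    rw [hφ, hya, hzb]
    ring

end H79.MZ
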