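import Pool.Agent.H79.MZ.E1

/-!
# L1: the real boundary between equivalent and inequivalent pairs

Let `S = {z : (Fin m ⊕ Fin m) ⊕ Unit → ℚ | x ∈ R, y ∈ R, κ x = κ y, u * p (x, y) = 1}` (`x = fun t => z (inl (inl t))`, `y = fun t => z (inl (inr t))`, `u = z (inr ())`).
* `L1_QD`: `E1_ker`, `Q1_poly` (polynomial `X (inr ()) * rename inl p - 1`), `Q1_inter`.
* `L1_loc`: let `c` be in the closure of `rl '' S`.  `z ↦ u * p (x, y) - 1` is continuous and vanishes on `rl '' S` (`aeval` at a rational point is the cast of `eval`: `MvPolynomial.aeval_def`/`eval₂_comp`, or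
  `MvPolynomial.map`), so it vanishes at `c`, and `p (a, b) ≠ 0` for `(a, b) = c ∘ inl`.  The projection `w ↦ w ∘ inl` is continuous and maps `rl '' S` into the image of the pairs with `κ x = κ y`, so
  `(a, b) ∈ closure (rl '' {..= ..})`.  By `hp`, `(a, b)` is not in `bdry R κ`, so it is not in `closure (rl '' {.. ≠ ..})`: there is `ε > 0` such that no `(x, y') ∈ R × R` with `κ x ≠ κ y'` has
  `dist (rl (x, y')) (a, b) < ε`.  If `z, z' ∈ S` and `dist (rl z) c < ε`, `dist (rl z') c < ε` (sup metric), the mixed pair `(x, y')` is at distance `< ε` from `(a, b)` (`dist_pi_lt_iff`), so `κ x = κ y' = κ x'`.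
* `L1_open`: `T1_cover` for `S` gives `C j`, `j : Fin N`.  For `z0 ∈ S` with `rl z0 ∈ C j` let `U = {c | ∃ ε > 0, ∀ z ∈ S, dist (rl z) c < ε → κ x = κ x0}` and `V` the same with `≠`; both are open,
  `closure (rl '' S) ⊆ U ∪ V` by `L1_loc` (choose some `z ∈ S` near `c`: the common value near `c` is `κ x0` or not), and no point of the closure is in both.  `C j` is preconnected, contained in the closure and contains
  `rl z0 ∈ U`, so `C j ∩ V` is empty (definition of `IsPreconnected`).  So `κ x = κ x0` for all `z ∈ S` with `rl z ∈ C j`, and `κ` takes at most `N` values on `S`; the set of the theorem is the set of these values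
  (`u = 1 / p (x, y)`).
-/

open MvPolynomial Sum

namespace H79.MZ

variable {n : ℕ} {D : Set (Fin n → ℚ)} {φ : (Fin n → ℚ) → ℤ} {m : ℕ} {R : Set (Fin m → ℚ)} {κ : (Fin m → ℚ) → ℤ}

/-- the real boundary between the pairs of points of `R` in one class and the pairs in different classes -/
def bdry {m : ℕ} (R : Set (Fin m → ℚ)) (κ : (Fin m → ℚ) → ℤ) : Set (Fin m ⊕ Fin m → ℝ) :=
  closure (rl '' {z : Fin m ⊕ Fin m → ℚ | (fun t => z (inl t)) ∈ R ∧ (fun t => z (inr t)) ∈ R ∧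
      κ (fun t => z (inl t)) = κ (fun t => z (inr t))}) ∩
    closure (rl '' {z : Fin m ⊕ Fin m → ℚ | (fun t => z (inl t)) ∈ R ∧ (fun t => z (inr t)) ∈ R ∧
      κ (fun t => z (inl t)) ≠ κ (fun t => z (inr t))})

/-- the equivalent pairs at which `p` is nonzero, with the inverse of the value -/
def L1S {m : ℕ} (R : Set (Fin m → ℚ)) (κ : (Fin m → ℚ) → ℤ) (p : MvPolynomial (Fin m ⊕ Fin m) ℚ) :
    Set ((Fin m ⊕ Fin m) ⊕ Unit → ℚ) :=
  {z | (fun t => z (inl (inl t))) ∈ R ∧ (fun t => z (inl (inr t))) ∈ R ∧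
    κ (fun t => z (inl (inl t))) = κ (fun t => z (inl (inr t))) ∧ z (inr ()) * eval (fun j => z (inl j)) p = 1}

theorem L1_QD (h : Interp D φ) (hA : Att D φ R κ) (p : MvPolynomial (Fin m ⊕ Fin m) ℚ) : QD (L1S R κ p) := by
  have h1 := E1_ker h hA (fun t : Fin m => (inl (inl t) : (Fin m ⊕ Fin m) ⊕ Unit)) (fun t => inl (inr t))
  have h2 := Q1_poly (X (inr ()) * rename inl p - 1 : MvPolynomial ((Fin m ⊕ Fin m) ⊕ Unit) ℚ)
  have h3 := Q1_inter h1 h2
  refine (congrArg QD ?_).mp h3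
  ext z
  have e : eval z (X (inr ()) * rename inl p - 1 : MvPolynomial ((Fin m ⊕ Fin m) ⊕ Unit) ℚ) =
      z (inr ()) * eval (fun j => z (inl j)) p - 1 := by
    rw [map_sub, map_mul, eval_X, eval_rename, map_one]
    rfl
  constructor
  · rintro ⟨⟨h1, h2, h3⟩, h4⟩
    have h5 : eval z (X (inr ()) * rename inl p - 1 : MvPolynomial ((Fin m ⊕ Fin m) ⊕ Unit) ℚ) = 0 := h4
    rw [e] at h5
    exact ⟨h1, h2, h3, by linarith⟩
  · rintro ⟨h1, h2, h3, h4⟩
    refine ⟨⟨h1, h2, h3⟩, ?_⟩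
    change eval z (X (inr ()) * rename inl p - 1 : MvPolynomial ((Fin m ⊕ Fin m) ⊕ Unit) ℚ) = 0
    rw [e, h4]
    norm_num

theorem L1_aeval {ι : Type} (p : MvPolynomial ι ℚ) (x : ι → ℚ) :
    aeval (fun j => ((x j : ℚ) : ℝ)) p = ((eval x p : ℚ) : ℝ) := by
  have h := MvPolynomial.aeval_algebraMap_apply (R := ℚ) (B := ℝ) x p
  rw [aeval_eq_eval] at h
  exact h

theorem L1_cont {ι : Type} (p : MvPolynomial ι ℚ) : Continuous fun c : ι → ℝ => aeval c p := by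
  have h : (fun c : ι → ℝ => aeval c p) = fun c => eval c (map (algebraMap ℚ ℝ) p) := by
    funext c
    rw [eval_map, aeval_def]
  rw [h]
  exact MvPolynomial.continuous_eval _

theorem L1_loc (p : MvPolynomial (Fin m ⊕ Fin m) ℚ) (hp : ∀ c ∈ bdry R κ, aeval c p = 0)
    (c : (Fin m ⊕ Fin m) ⊕ Unit → ℝ) (hc : c ∈ closure (rl '' L1S R κ p)) :
    ∃ ε > 0, ∀ z ∈ L1S R κ p, ∀ z' ∈ L1S R κ p, dist (rl z) c < ε → dist (rl z') c < ε →
      κ (fun t => z (inl (inl t))) = κ (fun t => z' (inl (inl t))) := by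
  -- the projection
  have hpr : Continuous fun w : (Fin m ⊕ Fin m) ⊕ Unit → ℝ => fun j : Fin m ⊕ Fin m => w (inl j) :=
    continuous_pi fun j => continuous_apply _
  -- `p` does not vanish at the projection of `c`
  have hΦ : Continuous fun w : (Fin m ⊕ Fin m) ⊕ Unit → ℝ => w (inr ()) * aeval (fun j => w (inl j)) p - 1 :=
    ((continuous_apply _).mul ((L1_cont p).comp hpr)).sub continuous_const
  have h0 : c (inr ()) * aeval (fun j => c (inl j)) p - 1 = 0 := by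
    have hcl : IsClosed {w : (Fin m ⊕ Fin m) ⊕ Unit → ℝ | w (inr ()) * aeval (fun j => w (inl j)) p - 1 = 0} :=
      isClosed_eq hΦ continuous_const
    have hsub : rl '' L1S R κ p ⊆
        {w : (Fin m ⊕ Fin m) ⊕ Unit → ℝ | w (inr ()) * aeval (fun j => w (inl j)) p - 1 = 0} := by
      rintro _ ⟨z, ⟨-, -, -, h4⟩, rfl⟩
      change ((z (inr ()) : ℚ) : ℝ) * aeval (fun j => ((z (inl j) : ℚ) : ℝ)) p - 1 = 0
      rw [L1_aeval p (fun j => z (inl j)), ← Rat.cast_mul, h4]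
      norm_num
    exact closure_minimal hsub hcl hc
  have hne : aeval (fun j => c (inl j)) p ≠ 0 := by
    intro h
    rw [h] at h0
    norm_num at h0
  have hE : (fun j => c (inl j)) ∈ closure (rl '' {z : Fin m ⊕ Fin m → ℚ | (fun t => z (inl t)) ∈ R ∧
      (fun t => z (inr t)) ∈ R ∧ κ (fun t => z (inl t)) = κ (fun t => z (inr t))}) := by
    have h1 := image_closure_subset_closure_image hpr ⟨c, hc, rfl⟩
    refine closure_mono ?_ h1
    rintro _ ⟨_, ⟨z, ⟨h1, h2, h3, -⟩, rfl⟩, rfl⟩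
    exact ⟨fun j => z (inl j), ⟨h1, h2, h3⟩, rfl⟩
  have hNE : (fun j => c (inl j)) ∉ closure (rl '' {z : Fin m ⊕ Fin m → ℚ | (fun t => z (inl t)) ∈ R ∧
      (fun t => z (inr t)) ∈ R ∧ κ (fun t => z (inl t)) ≠ κ (fun t => z (inr t))}) :=
    fun h => hne (hp _ ⟨hE, h⟩)
  rw [Metric.mem_closure_iff] at hNE
  push Not at hNE
  obtain ⟨ε, hε, hεb⟩ := hNE
  refine ⟨ε, hε, ?_⟩
  rintro z ⟨h1, h2, h3, -⟩ z' ⟨h1', h2', h3', -⟩ hd hd'
  by_contra hcon
  have h5 := hεb (rl (Sum.elim (fun t => z (inl (inl t))) (fun t => z' (inl (inr t))))) ⟨_, ⟨h1, h2', ?_⟩, rfl⟩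
  · apply absurd h5
    rw [not_le, dist_comm, dist_pi_lt_iff hε]
    rintro (t | t)
    · exact (dist_le_pi_dist (rl z) c (inl (inl t))).trans_lt hd
    · exact (dist_le_pi_dist (rl z') c (inl (inr t))).trans_lt hd'
  · change κ (fun t => z (inl (inl t))) ≠ κ (fun t => z' (inl (inr t)))
    rw [← h3']
    exact hcon

theorem L1_comp (p : MvPolynomial (Fin m ⊕ Fin m) ℚ) (hp : ∀ c ∈ bdry R κ, aeval c p = 0)
    (C : Set ((Fin m ⊕ Fin m) ⊕ Unit → ℝ)) (hC : IsPreconnected C) (hCs : C ⊆ closure (rl '' L1S R κ p))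
    (z0 z1 : (Fin m ⊕ Fin m) ⊕ Unit → ℚ) (h0 : z0 ∈ L1S R κ p) (h1 : z1 ∈ L1S R κ p)
    (hc0 : rl z0 ∈ C) (hc1 : rl z1 ∈ C) :
    κ (fun t => z1 (inl (inl t))) = κ (fun t => z0 (inl (inl t))) := by
  by_contra hcon
  set U : Set ((Fin m ⊕ Fin m) ⊕ Unit → ℝ) := {c | ∃ ε > 0, ∀ z ∈ L1S R κ p, dist (rl z) c < ε →
    κ (fun t => z (inl (inl t))) = κ (fun t => z0 (inl (inl t)))} with hU
  set V : Set ((Fin m ⊕ Fin m) ⊕ Unit → ℝ) := {c | ∃ ε > 0, ∀ z ∈ L1S R κ p, dist (rl z) c < ε →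
    κ (fun t => z (inl (inl t))) ≠ κ (fun t => z0 (inl (inl t)))} with hV
  have hUo : IsOpen U := by
    rw [Metric.isOpen_iff]
    rintro c ⟨ε, hε, h⟩
    refine ⟨ε / 2, by positivity, fun c' hc' => ⟨ε / 2, by positivity, fun z hz hd => h z hz ?_⟩⟩
    have := dist_triangle (rl z) c' c
    rw [Metric.mem_ball] at hc'
    linarith
  have hVo : IsOpen V := by
    rw [Metric.isOpen_iff]
    rintro c ⟨ε, hε, h⟩
    refine ⟨ε / 2, by positivity, fun c' hc' => ⟨ε / 2, by positivity, fun z hz hd => h z hz ?_⟩⟩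
    have := dist_triangle (rl z) c' c
    rw [Metric.mem_ball] at hc'
    linarith
  have hcov : C ⊆ U ∪ V := by
    intro c hc
    obtain ⟨ε, hε, h⟩ := L1_loc p hp c (hCs hc)
    obtain ⟨_, ⟨z2, hz2, rfl⟩, hd2⟩ := Metric.mem_closure_iff.1 (hCs hc) ε hε
    rw [dist_comm] at hd2
    by_cases hk : κ (fun t => z2 (inl (inl t))) = κ (fun t => z0 (inl (inl t)))
    · exact Or.inl ⟨ε, hε, fun z hz hd => (h z hz z2 hz2 hd hd2).trans hk⟩
    · exact Or.inr ⟨ε, hε, fun z hz hd hk' => hk ((h z2 hz2 z hz hd2 hd).trans hk')⟩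
  have hself : ∀ z ∈ L1S R κ p, ∃ ε > 0, ∀ z' ∈ L1S R κ p, dist (rl z') (rl z) < ε →
      κ (fun t => z' (inl (inl t))) = κ (fun t => z (inl (inl t))) := by
    intro z hz
    obtain ⟨ε, hε, h⟩ := L1_loc p hp (rl z) (subset_closure ⟨z, hz, rfl⟩)
    exact ⟨ε, hε, fun z' hz' hd => h z' hz' z hz hd (by rw [dist_self]; exact hε)⟩
  have hmU : rl z0 ∈ U := hself z0 h0
  have hmV : rl z1 ∈ V := by
    obtain ⟨ε, hε, h⟩ := hself z1 h1
    exact ⟨ε, hε, fun z hz hd hk => hcon ((h z hz hd).symm.trans hk)⟩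
  obtain ⟨c, hcC, ⟨ε1, hε1, hu⟩, ⟨ε2, hε2, hv⟩⟩ := hC U V hUo hVo hcov ⟨_, hc0, hmU⟩ ⟨_, hc1, hmV⟩
  obtain ⟨_, ⟨z2, hz2, rfl⟩, hd2⟩ := Metric.mem_closure_iff.1 (hCs hcC) (min ε1 ε2) (lt_min hε1 hε2)
  rw [dist_comm] at hd2
  exact hv z2 hz2 (hd2.trans_le (min_le_right _ _)) (hu z2 hz2 (hd2.trans_le (min_le_left _ _)))

theorem L1_open (h : Interp D φ) (hM : Mazur) (hA : Att D φ R κ) (p : MvPolynomial (Fin m ⊕ Fin m) ℚ)
    (hp : ∀ c ∈ bdry R κ, aeval c p = 0) :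
    {k : ℤ | ∃ x ∈ R, ∃ y ∈ R, κ x = k ∧ κ y = k ∧ eval (Sum.elim x y) p ≠ 0}.Finite := by
  obtain ⟨N, C, hC, hCs, hcov⟩ := T1_cover hM (L1_QD h hA p)
  have hfin : (⋃ j, {k : ℤ | ∃ z ∈ L1S R κ p, rl z ∈ C j ∧ κ (fun t => z (inl (inl t))) = k}).Finite := by
    refine Set.finite_iUnion fun j => ?_
    refine Set.Subsingleton.finite ?_
    rintro k ⟨z, hz, hzc, rfl⟩ k' ⟨z', hz', hzc', rfl⟩
    exact L1_comp p hp (C j) (hC j) (hCs j) z' z hz' hz hzc' hzc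
  refine hfin.subset ?_
  rintro k ⟨x, hx, y, hy, hkx, hky, hne⟩
  have hz : Sum.elim (Sum.elim x y) (fun _ : Unit => (eval (Sum.elim x y) p)⁻¹) ∈ L1S R κ p := by
    refine ⟨hx, hy, ?_, ?_⟩
    · change κ x = κ y
      rw [hkx, hky]
    · change (eval (Sum.elim x y) p)⁻¹ * eval (Sum.elim x y) p = 1
      exact inv_mul_cancel₀ hne
  obtain ⟨j, hj⟩ := hcov _ hz
  exact Set.mem_iUnion.2 ⟨j, _, hz, hj, hkx⟩

end H79.MZ
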