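import Pool.Agent.H79.MZ.L1
import Pool.Agent.H79.MZ.E2b

/-!
# L2: under Mazur's conjecture the boundary is Zariski dense

Suppose `Mazur`.  For `Q ⊆ R` let `I Q = {f | ∀ x ∈ Q, eval x f = 0}` (`vanishingIdeal`, or an `Ideal` defined by hand).  `MvPolynomial (Fin m) ℚ` is Noetherian, so among the Diophantine `Q ⊆ R` with `κ '' Q` infinite there is one, `R'`,
with `I R'` maximal (`WellFoundedGT`, `set_has_maximal_iff_noetherian`); so `I Q = I R'` for every such `Q ⊆ R'` (*).  `hb` gives `p` for `R'`; let `d` be the total degree of `p`.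
By `L1_open` for `R'` (`E1_sub`) the set `K` of classes with a pair at which `p ≠ 0` is finite; `K ⊆ [-B, B]`; `R1 = {x ∈ R' | B² < (κ x)²}` (`E1_gt`) has `κ '' R1` infinite, and `p (x, y) = 0` for `x, y ∈ R1`,
`κ x = κ y`.  `E2b_norm` for `R1` and `d` gives `R2`.  For `x ∈ R2` the polynomial `p (x, ·)` (total degree `≤ d`, `C3_eval`) vanishes on `fib R2 κ (κ x)`, so (its functional vanishes on the span) on `R2`, so it is in
`I R2 = I R'` by (*): `p (x, y) = 0` for `x ∈ R2`, `y ∈ R'`.  For `y ∈ R'` the polynomial `p (·, y)` vanishes on `R2`, so it is in `I R2 = I R'`: `p (x, y) = 0` for all `x, y ∈ R'`, against the choice of `p`.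
(`L2_left, L2_right`: the polynomials `p (x, ·) = aeval (Sum.elim (fun t => C (x t)) X) p` and `p (·, y) = aeval (Sum.elim X (fun t => C (y t))) p`, total degree at most that of `p`.)
-/

open MvPolynomial Sum

namespace H79.MZ

variable {n : ℕ} {D : Set (Fin n → ℚ)} {φ : (Fin n → ℚ) → ℤ} {m : ℕ} {R : Set (Fin m → ℚ)} {κ : (Fin m → ℚ) → ℤ}

theorem L2_deg {σ τ : Type} (f : σ → MvPolynomial τ ℚ) (hf : ∀ i, (f i).totalDegree ≤ 1)
    (p : MvPolynomial σ ℚ) : (bind₁ f p).totalDegree ≤ p.totalDegree := by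
  classical
  have h1 : bind₁ f p = ∑ m ∈ p.support, C (coeff m p) * ∏ i ∈ m.support, f i ^ m i := by
    conv_lhs => rw [p.as_sum]
    rw [map_sum]
    refine Finset.sum_congr rfl fun m _ => ?_
    rw [bind₁_monomial]
  rw [h1]
  refine totalDegree_finsetSum_le fun m hm => ?_
  refine (totalDegree_mul _ _).trans ?_
  rw [totalDegree_C, zero_add]
  refine (totalDegree_finsetProd _ _).trans ?_
  have h2 : ∑ i ∈ m.support, (f i ^ m i).totalDegree ≤ ∑ i ∈ m.support, m i := by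
    refine Finset.sum_le_sum fun i _ => ?_
    refine (totalDegree_pow _ _).trans ?_
    exact (Nat.mul_le_mul_left _ (hf i)).trans (by rw [mul_one])
  exact h2.trans (le_totalDegree hm)

theorem L2_left (p : MvPolynomial (Fin m ⊕ Fin m) ℚ) (x : Fin m → ℚ) : ∃ q : MvPolynomial (Fin m) ℚ,
    q.totalDegree ≤ p.totalDegree ∧ ∀ y : Fin m → ℚ, eval y q = eval (Sum.elim x y) p := by
  refine ⟨bind₁ (Sum.elim (fun t => C (x t)) X) p, ?_, fun y => ?_⟩
  · refine L2_deg _ ?_ _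
    rintro (t | t)
    · rw [Sum.elim_inl, totalDegree_C]
      exact Nat.zero_le _
    · rw [Sum.elim_inr, totalDegree_X]
  · rw [Q1_eval_bind]
    congr 1
    congr 1
    funext t
    rcases t with t | t
    · simp only [Sum.elim_inl, eval_C]
    · simp only [Sum.elim_inr, eval_X]

theorem L2_right (p : MvPolynomial (Fin m ⊕ Fin m) ℚ) (y : Fin m → ℚ) : ∃ q : MvPolynomial (Fin m) ℚ,
    ∀ x : Fin m → ℚ, eval x q = eval (Sum.elim x y) p := by
  refine ⟨bind₁ (Sum.elim X (fun t => C (y t))) p, fun x => ?_⟩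
  rw [Q1_eval_bind]
  congr 1
  congr 1
  funext t
  rcases t with t | t
  · simp only [Sum.elim_inl, eval_X]
  · simp only [Sum.elim_inr, eval_C]

/-- the polynomials that vanish on `Q` -/
def L2_I {m : ℕ} (Q : Set (Fin m → ℚ)) : Ideal (MvPolynomial (Fin m) ℚ) where
  carrier := {f | ∀ x ∈ Q, eval x f = 0}
  add_mem' := by
    intro f g hf hg x hx
    rw [map_add, hf x hx, hg x hx, add_zero]
  zero_mem' := by
    intro x _
    exact map_zero _
  smul_mem' := by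
    intro c f hf x hx
    rw [smul_eq_mul, map_mul, hf x hx, mul_zero]

theorem L2_max (h : Interp D φ) (hA : Att D φ R κ) (hinf : (κ '' R).Infinite) :
    ∃ R' ⊆ R, QD R' ∧ (κ '' R').Infinite ∧ ∀ Q ⊆ R', QD Q → (κ '' Q).Infinite →
      ∀ q : MvPolynomial (Fin m) ℚ, (∀ x ∈ Q, eval x q = 0) → ∀ x ∈ R', eval x q = 0 := by
  have hwf : WellFounded ((· > ·) : Ideal (MvPolynomial (Fin m) ℚ) → Ideal (MvPolynomial (Fin m) ℚ) → Prop) :=
    (inferInstance : WellFoundedGT (Ideal (MvPolynomial (Fin m) ℚ))).wf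
  obtain ⟨J, ⟨R', hR', hQ', hi', rfl⟩, hmax⟩ := hwf.has_min
    {J | ∃ Q ⊆ R, QD Q ∧ (κ '' Q).Infinite ∧ L2_I Q = J} ⟨_, R, subset_rfl, E1_R h hA, hinf, rfl⟩
  refine ⟨R', hR', hQ', hi', fun Q hQR hQ hQi q hq => ?_⟩
  have h1 : L2_I R' ≤ L2_I Q := fun f hf x hx => hf x (hQR hx)
  have h2 : ¬ L2_I R' < L2_I Q := hmax _ ⟨Q, hQR.trans hR', hQ, hQi, rfl⟩
  have h3 : L2_I R' = L2_I Q := h1.eq_of_not_lt h2
  have h4 : q ∈ L2_I Q := hq
  rw [← h3] at h4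
  exact h4

theorem L2_main (h : Interp D φ) (hA : Att D φ R κ) (hinf : (κ '' R).Infinite)
    (hb : ∀ R' ⊆ R, QD R' → (κ '' R').Infinite → ∃ p : MvPolynomial (Fin m ⊕ Fin m) ℚ,
      (∀ c ∈ bdry R' κ, aeval c p = 0) ∧ ∃ x ∈ R', ∃ y ∈ R', eval (Sum.elim x y) p ≠ 0) : ¬ Mazur := by
  intro hM
  obtain ⟨R', hR', hQ', hi', hmax⟩ := L2_max h hA hinf
  obtain ⟨p, hp, x0, hx0, y0, hy0, hne⟩ := hb R' hR' hQ' hi'
  have hA' : Att D φ R' κ := E1_sub hA hQ' hR'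
  have hK := L1_open h hM hA' p hp
  obtain ⟨B, hB⟩ : ∃ B : ℕ, ∀ k ∈ {k : ℤ | ∃ x ∈ R', ∃ y ∈ R', κ x = k ∧ κ y = k ∧
      eval (Sum.elim x y) p ≠ 0}, k ^ 2 ≤ (B : ℤ) ^ 2 := by
    obtain ⟨B, hB⟩ := (hK.image Int.natAbs).bddAbove
    refine ⟨B, fun k hk => ?_⟩
    have h1 : k.natAbs ≤ B := hB ⟨k, hk, rfl⟩
    rw [← Int.natAbs_pow_two k]
    have h2 : (k.natAbs : ℤ) ≤ (B : ℤ) := by exact_mod_cast h1
    exact pow_le_pow_left₀ (Int.natCast_nonneg _) h2 2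
  have hQ1 : QD {x | x ∈ R' ∧ (B : ℤ) ^ 2 < κ x ^ 2} := E1_gt h hA' B
  have hA1 : Att D φ {x | x ∈ R' ∧ (B : ℤ) ^ 2 < κ x ^ 2} κ := E1_sub hA' hQ1 (fun x hx => hx.1)
  have hi1 : (κ '' {x | x ∈ R' ∧ (B : ℤ) ^ 2 < κ x ^ 2}).Infinite := by
    have hfin : {k : ℤ | k ^ 2 ≤ (B : ℤ) ^ 2}.Finite := by
      refine (Set.finite_Icc (-(B : ℤ)) (B : ℤ)).subset fun k hk => ?_
      have h1 := abs_le_of_sq_le_sq' hk (Int.natCast_nonneg B)
      exact Set.mem_Icc.2 h1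
    refine (hi'.sdiff hfin).mono ?_
    rintro _ ⟨⟨x, hx, rfl⟩, hk⟩
    exact ⟨x, ⟨hx, not_le.1 hk⟩, rfl⟩
  obtain ⟨R2, hR2, hQ2, hi2, hsp, -⟩ := E2b_norm h hM hA1 hi1 p.totalDegree
  have hR2' : R2 ⊆ R' := fun x hx => (hR2 hx).1
  have h1 : ∀ x ∈ R2, ∀ y ∈ R', eval (Sum.elim x y) p = 0 := by
    intro x hx
    obtain ⟨q, hqd, hq⟩ := L2_left p x
    obtain ⟨a, ha⟩ := C3_eval q hqd
    have h2 : ∀ y ∈ fib R2 κ (κ x), eval y q = 0 := by
      rintro y ⟨hy, hyk⟩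
      rw [hq]
      by_contra hcon
      have h3 := hB (κ x) ⟨x, hR2' hx, y, hR2' hy, rfl, hyk, hcon⟩
      exact absurd (hR2 hx).2 (not_lt.2 h3)
    have h3 : ∀ y ∈ R2, eval y q = 0 := by
      refine (C3_van q a ha R2).2 ?_
      rw [← hsp x hx]
      exact (C3_van q a ha (fib R2 κ (κ x))).1 h2
    have h4 := hmax R2 hR2' hQ2 hi2 q h3
    intro y hy
    rw [← hq]
    exact h4 y hy
  obtain ⟨q, hq⟩ := L2_right p y0
  have h5 := hmax R2 hR2' hQ2 hi2 q (fun x hx => by rw [hq]; exact h1 x hx y0 hy0) x0 hx0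
  rw [hq] at h5
  exact hne h5

end H79.MZ
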