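import Mathlib

/-!
# Q0: definitions (MP_a278ce_lc)
-/

open MvPolynomial

namespace H79.MZ

/-- `S ⊆ ℚ^ι` is Diophantine over `ℚ`. -/
def QD {ι : Type} (S : Set (ι → ℚ)) : Prop :=
  ∃ (k : ℕ) (p : MvPolynomial (ι ⊕ Fin k) ℚ), ∀ x : ι → ℚ,
    x ∈ S ↔ ∃ w : Fin k → ℚ, eval (Sum.elim x w) p = 0

/-- the tuple of rationals coded by `v`: `x i = (v (i, 0) - v (i, 1)) / (v (i, 2) + 1)` -/
def dec {ι : Type} (v : ι × Fin 3 → ℕ) : ι → ℚ :=
  fun i => ((v (i, 0) : ℚ) - (v (i, 1) : ℚ)) / ((v (i, 2) : ℚ) + 1)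

/-- the set of codes of the points of `S` is Diophantine over the integers (equivalently, `S` is recursively
enumerable) -/
def ZD {ι : Type} (S : Set (ι → ℚ)) : Prop := Dioph {v : ι × Fin 3 → ℕ | dec v ∈ S}

/-- the row `a` of `z` -/
abbrev row {κ ν : Type} {Z : Type*} (z : κ × ν → Z) (a : κ) : ν → Z := fun i => z (a, i)

/-- `(D, φ)` is a Diophantine interpretation of the ring `ℤ` in the field `ℚ`: `φ` maps the Diophantine set `D` onto
`ℤ`, and the relations `φ x = φ y`, `φ x + φ y = φ z`, `φ x * φ y = φ z` on `D` are Diophantine. -/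
structure Interp {n : ℕ} (D : Set (Fin n → ℚ)) (φ : (Fin n → ℚ) → ℤ) : Prop where
  surj : Set.SurjOn φ D Set.univ
  dom : QD D
  eqv : QD {z : Fin 2 × Fin n → ℚ | row z 0 ∈ D ∧ row z 1 ∈ D ∧ φ (row z 0) = φ (row z 1)}
  add : QD {z : Fin 3 × Fin n → ℚ | row z 0 ∈ D ∧ row z 1 ∈ D ∧ row z 2 ∈ D ∧
    φ (row z 0) + φ (row z 1) = φ (row z 2)}
  mul : QD {z : Fin 3 × Fin n → ℚ | row z 0 ∈ D ∧ row z 1 ∈ D ∧ row z 2 ∈ D ∧
    φ (row z 0) * φ (row z 1) = φ (row z 2)}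

/-- Mazur's conjecture on the topology of rational points (as in the frozen statement). -/
def Mazur : Prop :=
  ∀ (m : ℕ) (q : MvPolynomial (Fin m) ℚ) (S : Set (Fin m → ℝ)),
    S = closure ((fun r : Fin m → ℚ => fun i => ((r i : ℚ) : ℝ)) '' {r : Fin m → ℚ | eval r q = 0}) →
    ((fun a => connectedComponentIn S a) '' S).Finite

/-- the real point of a rational point -/
def rl {ι : Type} (x : ι → ℚ) : ι → ℝ := fun i => ((x i : ℚ) : ℝ)

/-- the members of a family of subsets of `ℚ^m` indexed by the interpreted integers -/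
def fam {m n : ℕ} (R : Set (Fin m ⊕ Fin n → ℚ)) (D : Set (Fin n → ℚ)) (φ : (Fin n → ℚ) → ℤ) (k : ℤ) :
    Set (Fin m → ℚ) :=
  {y | ∃ x ∈ D, φ x = k ∧ Sum.elim y x ∈ R}

/-- the polynomial equations of degree at most `d` satisfied by all points of `Y` -/
def eqs {m : ℕ} (d : ℕ) (Y : Set (Fin m → ℚ)) : Set (MvPolynomial (Fin m) ℚ) :=
  {f | f.totalDegree ≤ d ∧ ∀ y ∈ Y, eval y f = 0}

end H79.MZ
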