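import Pool.Agent.H79.MZ.Q0

/-!
# Q1: closure properties of Diophantine sets over `ℚ`

`S` is given by `(k, p)`, `p : MvPolynomial (ι ⊕ Fin k) ℚ`.
* `Q1_gen`: a set given by a polynomial with witnesses in any finite type is Diophantine: rename `ι ⊕ W → ι ⊕ Fin (card W)` with `Fintype.equivFin` (`MvPolynomial.eval_rename`).
* `Q1_subst`: `p' = bind₁ (Sum.elim (fun i => rename inl (F i)) (fun j => X (inr j))) p` (`eval` of `bind₁`: `MvPolynomial.eval₂Hom_bind₁`, `aeval_bind₁`, or `eval_bind₁`-like: show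
  `eval (Sum.elim x w) (bind₁ g p) = eval (fun s => eval (Sum.elim x w) (g s)) p` by induction on `p`).
* `Q1_comp`: `Q1_subst` with `F i = X (g i)`.
* `Q1_poly`: `k = 0`, `p' = rename inl p`.
* `Q1_inter`: witnesses `Fin k ⊕ Fin l` (`Q1_gen`), polynomial `p₁² + p₂²` (renamed); a sum of two squares of rationals vanishes iff both vanish.
* `Q1_ex`: witnesses `κ ⊕ Fin k` (`Q1_gen`), rename along `Equiv.sumAssoc` (`(ι ⊕ κ) ⊕ Fin k → ι ⊕ (κ ⊕ Fin k)`).
* `Q1_all`: `Finset.induction_on` for `{x | ∀ a ∈ s, x ∈ S a}` (empty: `Q1_poly 0`), then `s = univ`.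
-/

open MvPolynomial Sum

namespace H79.MZ

theorem Q1_gen {ι W : Type} [Fintype W] {S : Set (ι → ℚ)} (p : MvPolynomial (ι ⊕ W) ℚ)
    (h : ∀ x : ι → ℚ, x ∈ S ↔ ∃ w : W → ℚ, eval (Sum.elim x w) p = 0) : QD S := by
  classical
  refine ⟨Fintype.card W, rename (Sum.map id (Fintype.equivFin W)) p, fun x => ?_⟩
  rw [h x]
  constructor
  · rintro ⟨w, hw⟩
    refine ⟨fun j => w ((Fintype.equivFin W).symm j), ?_⟩
    rw [eval_rename]
    have e : (Sum.elim x fun j => w ((Fintype.equivFin W).symm j)) ∘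
        Sum.map id (Fintype.equivFin W) = Sum.elim x w := by
      funext s
      rcases s with i | j
      · rfl
      · simp
    rw [e]
    exact hw
  · rintro ⟨w, hw⟩
    refine ⟨fun j => w (Fintype.equivFin W j), ?_⟩
    rw [eval_rename] at hw
    have e : (Sum.elim x w) ∘ Sum.map id (Fintype.equivFin W) =
        Sum.elim x (fun j => w (Fintype.equivFin W j)) := by
      funext s
      rcases s with i | j
      · rfl
      · rfl
    rw [e] at hw
    exact hw

theorem Q1_eval_bind {σ τ : Type} (g : τ → ℚ) (f : σ → MvPolynomial τ ℚ) (p : MvPolynomial σ ℚ) :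
    eval g (bind₁ f p) = eval (fun s => eval g (f s)) p := by
  have h := aeval_bind₁ (R := ℚ) (S := ℚ) g f p
  rw [aeval_eq_eval, aeval_eq_eval] at h
  simpa using h

theorem Q1_subst {ι κ : Type} {S : Set (ι → ℚ)} (hS : QD S) (F : ι → MvPolynomial κ ℚ) :
    QD {x : κ → ℚ | (fun i => eval x (F i)) ∈ S} := by
  obtain ⟨k, p, hp⟩ := hS
  refine ⟨k, bind₁ (Sum.elim (fun i => rename inl (F i)) (fun j => X (inr j))) p, fun x => ?_⟩
  rw [Set.mem_ofPred_eq, hp]
  have e : ∀ w : Fin k → ℚ, eval (Sum.elim x w)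
      (bind₁ (Sum.elim (fun i => rename inl (F i)) (fun j => X (inr j))) p) =
      eval (Sum.elim (fun i => eval x (F i)) w) p := by
    intro w
    rw [Q1_eval_bind]
    congr 1
    congr 1
    funext s
    rcases s with i | j
    · simp only [Sum.elim_inl, eval_rename]
      rfl
    · simp only [Sum.elim_inr, eval_X]
  simp only [e]

theorem Q1_comp {ι κ : Type} {S : Set (ι → ℚ)} (hS : QD S) (g : ι → κ) : QD {x : κ → ℚ | (fun i => x (g i)) ∈ S} := by
  have h := Q1_subst hS (fun i => (X (g i) : MvPolynomial κ ℚ))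
  simpa only [eval_X] using h

theorem Q1_poly {ι : Type} (p : MvPolynomial ι ℚ) : QD {x : ι → ℚ | eval x p = 0} := by
  refine ⟨0, rename inl p, fun x => ?_⟩
  have e : ∀ w : Fin 0 → ℚ, eval (Sum.elim x w) (rename inl p) = eval x p := by
    intro w
    rw [eval_rename]
    rfl
  simp only [e, Set.mem_ofPred_eq, exists_const]

theorem Q1_inter {ι : Type} {S T : Set (ι → ℚ)} (hS : QD S) (hT : QD T) : QD (S ∩ T) := by
  obtain ⟨k, p, hp⟩ := hS
  obtain ⟨l, q, hq⟩ := hT
  refine Q1_gen (W := Fin k ⊕ Fin l)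
    ((rename (Sum.map id inl) p) ^ 2 + (rename (Sum.map id inr) q) ^ 2) fun x => ?_
  have e1 : ∀ w : Fin k ⊕ Fin l → ℚ, eval (Sum.elim x w) (rename (Sum.map id inl) p) =
      eval (Sum.elim x (fun j => w (inl j))) p := by
    intro w
    rw [eval_rename]
    congr 1
    congr 1
    funext s
    rcases s with i | j <;> rfl
  have e2 : ∀ w : Fin k ⊕ Fin l → ℚ, eval (Sum.elim x w) (rename (Sum.map id inr) q) =
      eval (Sum.elim x (fun j => w (inr j))) q := by
    intro w
    rw [eval_rename]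
    congr 1
    congr 1
    funext s
    rcases s with i | j <;> rfl
  rw [Set.mem_inter_iff, hp, hq]
  constructor
  · rintro ⟨⟨w1, h1⟩, ⟨w2, h2⟩⟩
    refine ⟨Sum.elim w1 w2, ?_⟩
    rw [map_add, map_pow, map_pow, e1, e2]
    simp only [Sum.elim_inl, Sum.elim_inr, h1, h2]
    norm_num
  · rintro ⟨w, hw⟩
    rw [map_add, map_pow, map_pow, e1, e2] at hw
    have h1 := pow_eq_zero_iff (two_ne_zero) |>.1
      (le_antisymm (by nlinarith [sq_nonneg (eval (Sum.elim x (fun j => w (inr j))) q)])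
        (sq_nonneg (eval (Sum.elim x (fun j => w (inl j))) p)))
    have h2 := pow_eq_zero_iff (two_ne_zero) |>.1
      (le_antisymm (by nlinarith [sq_nonneg (eval (Sum.elim x (fun j => w (inl j))) p)])
        (sq_nonneg (eval (Sum.elim x (fun j => w (inr j))) q)))
    exact ⟨⟨_, h1⟩, ⟨_, h2⟩⟩

theorem Q1_ex {ι κ : Type} [Fintype κ] {S : Set (ι ⊕ κ → ℚ)} (hS : QD S) :
    QD {x : ι → ℚ | ∃ w : κ → ℚ, Sum.elim x w ∈ S} := by
  obtain ⟨k, p, hp⟩ := hS
  refine Q1_gen (W := κ ⊕ Fin k) (rename (Equiv.sumAssoc ι κ (Fin k)) p) fun x => ?_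
  have e1 : ∀ w : κ ⊕ Fin k → ℚ, eval (Sum.elim x w) (rename (Equiv.sumAssoc ι κ (Fin k)) p) =
      eval (Sum.elim (Sum.elim x (fun j => w (inl j))) (fun j => w (inr j))) p := by
    intro w
    rw [eval_rename]
    congr 1
    congr 1
    funext s
    rcases s with (i | j) | j <;> rfl
  simp only [Set.mem_ofPred_eq, e1]
  constructor
  · rintro ⟨w, hw⟩
    obtain ⟨v, hv⟩ := (hp _).1 hw
    exact ⟨Sum.elim w v, hv⟩
  · rintro ⟨w, hw⟩
    exact ⟨fun j => w (inl j), (hp _).2 ⟨_, hw⟩⟩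

theorem Q1_all {ι κ : Type} [Fintype κ] {S : κ → Set (ι → ℚ)} (h : ∀ a, QD (S a)) : QD {x | ∀ a, x ∈ S a} := by
  classical
  have key : ∀ s : Finset κ, QD {x : ι → ℚ | ∀ a ∈ s, x ∈ S a} := by
    intro s
    induction s using Finset.induction_on with
    | empty =>
      have h1 := Q1_poly (0 : MvPolynomial ι ℚ)
      have e : {x : ι → ℚ | ∀ a ∈ (∅ : Finset κ), x ∈ S a} = {x : ι → ℚ | eval x (0 : MvPolynomial ι ℚ) = 0} := by
        ext x
        simp
      rw [e]
      exact h1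
    | insert a s ha ih =>
      have e : {x : ι → ℚ | ∀ b ∈ insert a s, x ∈ S b} = S a ∩ {x : ι → ℚ | ∀ b ∈ s, x ∈ S b} := by
        ext x
        simp
      rw [e]
      exact Q1_inter (h a) ih
  have h1 := key Finset.univ
  simpa using h1

end H79.MZ
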