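import Pool.Agent.H79.MZ.Q0

/-!
# Q2: codes of rational tuples

* `Q2_surj`: `x i = (a - b) / (c + 1)` with `a = num.toNat`, `b = (- num).toNat`, `c = den - 1`.
* `Q2_frac`: induction on `p` (`MvPolynomial.induction_on`): `C q`: `num = q.num`, `den = q.den` (as constants); `p₁ + p₂`: `n₁ d₂ + n₂ d₁`, `d₁ d₂`; `p * X i`: `n (v (i,0) - v (i,1))`,
  `d (v (i,2) + 1)`.
* `Q2_QD`: `S` is given by `(k, p)`.  `dec v ∈ S ↔ ∃ w : Fin k → ℚ, eval (Sum.elim (dec v) w) p = 0 ↔ ∃ t : Fin k × Fin 3 → ℕ, eval (dec u) p = 0` (`Q2_surj` for the witness `w = dec t`), where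
  `u : (ι ⊕ Fin k) × Fin 3 → ℕ`, `u (inl i, s) = v (i, s)`, `u (inr j, s) = t (j, s)`; and `eval (dec u) p = 0 ↔ N u = 0` with `N` from `Q2_frac`.  So the set is Diophantine with the polynomial
  `N.map g`, `g : (ι ⊕ Fin k) × Fin 3 → (ι × Fin 3) ⊕ (Fin k × Fin 3)` (directly from the definition of `Dioph`).
* `Q2_lt`: `(a - b) / (c + 1) < (a' - b') / (c' + 1) ↔ a (c' + 1) + b' (c + 1) < a' (c + 1) + b (c' + 1)` in `ℕ`; `Dioph.lt_dioph` etc.
* `Q2_inter`: `Dioph.inter`.  `Q2_comp`: `Dioph.reindex_dioph` along `(i, s) ↦ (g i, s)`.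
-/

open MvPolynomial Sum

namespace H79.MZ

theorem Q2_surj {ι : Type} (x : ι → ℚ) : ∃ v : ι × Fin 3 → ℕ, dec v = x := by
  refine ⟨fun q => if q.2 = 0 then (x q.1).num.toNat else if q.2 = 1 then (-(x q.1).num).toNat
    else (x q.1).den - 1, ?_⟩
  funext i
  have h10 : ((1 : Fin 3) = 0) = False := by simp
  have h20 : ((2 : Fin 3) = 0) = False := by simp
  have h21 : ((2 : Fin 3) = 1) = False := by simp
  simp only [dec, if_true, h10, h20, h21, if_false]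
  have hden : 0 < (x i).den := (x i).den_pos
  have h1 : (((x i).den - 1 : ℕ) : ℚ) + 1 = ((x i).den : ℚ) := by
    have : (x i).den - 1 + 1 = (x i).den := Nat.sub_add_cancel hden
    exact_mod_cast this
  have h2 : (((x i).num.toNat : ℕ) : ℚ) - (((-(x i).num).toNat : ℕ) : ℚ) = ((x i).num : ℚ) := by
    have : (((x i).num.toNat : ℕ) : ℤ) - (((-(x i).num).toNat : ℕ) : ℤ) = (x i).num :=
      Int.toNat_sub_toNat_neg _
    exact_mod_cast this
  rw [h1, h2]
  exact Rat.num_div_den (x i)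

theorem Q2_frac {ι : Type} (p : MvPolynomial ι ℚ) : ∃ N M : Poly (ι × Fin 3), (∀ v, 0 < M v) ∧
    ∀ v : ι × Fin 3 → ℕ, eval (dec v) p = (N v : ℚ) / (M v : ℚ) := by
  induction p using MvPolynomial.induction_on with
  | C q =>
    refine ⟨Poly.const q.num, Poly.const (q.den : ℤ), ?_, ?_⟩
    · intro v
      rw [Poly.const_apply]
      exact_mod_cast q.den_pos
    · intro v
      rw [Poly.const_apply, Poly.const_apply, eval_C]
      have := Rat.num_div_den q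
      push_cast
      exact this.symm
  | add p₁ p₂ h₁ h₂ =>
    obtain ⟨N₁, M₁, hM₁, hE₁⟩ := h₁
    obtain ⟨N₂, M₂, hM₂, hE₂⟩ := h₂
    refine ⟨N₁ * M₂ + N₂ * M₁, M₁ * M₂, ?_, ?_⟩
    · intro v
      rw [Poly.mul_apply]
      exact mul_pos (hM₁ v) (hM₂ v)
    · intro v
      have h1 : (M₁ v : ℚ) ≠ 0 := by
        have := hM₁ v
        exact_mod_cast this.ne'
      have h2 : (M₂ v : ℚ) ≠ 0 := by
        have := hM₂ v
        exact_mod_cast this.ne'
      rw [map_add, hE₁ v, hE₂ v, Poly.add_apply, Poly.mul_apply, Poly.mul_apply, Poly.mul_apply]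
      push_cast
      rw [div_add_div _ _ h1 h2]
      congr 1
      ring
  | mul_X p i h =>
    obtain ⟨N, M, hM, hE⟩ := h
    refine ⟨N * (Poly.proj (i, 0) - Poly.proj (i, 1)), M * (Poly.proj (i, 2) + 1), ?_, ?_⟩
    · intro v
      rw [Poly.mul_apply, Poly.add_apply, Poly.proj_apply, Poly.one_apply]
      have : (0 : ℤ) ≤ (v (i, 2) : ℤ) := Int.natCast_nonneg _
      exact mul_pos (hM v) (by linarith)
    · intro v
      rw [map_mul, hE v, eval_X, Poly.mul_apply, Poly.mul_apply, Poly.add_apply, Poly.sub_apply,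
        Poly.proj_apply, Poly.proj_apply, Poly.proj_apply, Poly.one_apply]
      simp only [dec]
      push_cast
      rw [div_mul_div_comm]

/-- the renaming of the code variables -/
def Q2_g {ι : Type} {k : ℕ} : (ι ⊕ Fin k) × Fin 3 → (ι × Fin 3) ⊕ (Fin k × Fin 3)
  | (Sum.inl i, s) => Sum.inl (i, s)
  | (Sum.inr j, s) => Sum.inr (j, s)

theorem Q2_dec {ι : Type} {k : ℕ} (v : ι × Fin 3 → ℕ) (t : Fin k × Fin 3 → ℕ) :
    dec ((Sum.elim v t) ∘ Q2_g) = Sum.elim (dec v) (dec t) := by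
  funext j
  cases j with
  | inl i => rfl
  | inr j => rfl

theorem Q2_QD {ι : Type} {S : Set (ι → ℚ)} (h : QD S) : ZD S := by
  obtain ⟨k, p, hp⟩ := h
  obtain ⟨N, M, hM, hE⟩ := Q2_frac p
  refine ⟨Fin k × Fin 3, N.map Q2_g, ?_⟩
  intro v
  have key : ∀ t : Fin k × Fin 3 → ℕ, (N.map Q2_g) (Sum.elim v t) = 0 ↔
      eval (Sum.elim (dec v) (dec t)) p = 0 := by
    intro t
    rw [Poly.map_apply, ← Q2_dec, hE]
    have h1 : (M ((Sum.elim v t) ∘ Q2_g) : ℚ) ≠ 0 := by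
      have := hM ((Sum.elim v t) ∘ Q2_g)
      exact_mod_cast this.ne'
    rw [div_eq_zero_iff]
    constructor
    · intro h
      left
      exact_mod_cast h
    · intro h
      rcases h with h | h
      · exact_mod_cast h
      · exact absurd h h1
  change dec v ∈ S ↔ _
  rw [hp]
  constructor
  · rintro ⟨w, hw⟩
    obtain ⟨t, rfl⟩ := Q2_surj w
    exact ⟨t, (key t).2 hw⟩
  · rintro ⟨t, ht⟩
    exact ⟨dec t, (key t).1 ht⟩

theorem Q2_lt {ι : Type} (i j : ι) : ZD {x : ι → ℚ | x i < x j} := by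
  have hp : ∀ q : ι × Fin 3, Dioph.DiophFn (fun v : ι × Fin 3 → ℕ => v q) :=
    fun q => Dioph.proj_dioph q
  have h1 : Dioph.DiophFn (fun _ : ι × Fin 3 → ℕ => 1) := Dioph.const_dioph 1
  have hL : Dioph.DiophFn (fun v : ι × Fin 3 → ℕ =>
      v (i, 0) * (v (j, 2) + 1) + v (j, 1) * (v (i, 2) + 1)) :=
    Dioph.add_dioph (Dioph.mul_dioph (hp _) (Dioph.add_dioph (hp _) h1))
      (Dioph.mul_dioph (hp _) (Dioph.add_dioph (hp _) h1))
  have hR : Dioph.DiophFn (fun v : ι × Fin 3 → ℕ =>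
      v (j, 0) * (v (i, 2) + 1) + v (i, 1) * (v (j, 2) + 1)) :=
    Dioph.add_dioph (Dioph.mul_dioph (hp _) (Dioph.add_dioph (hp _) h1))
      (Dioph.mul_dioph (hp _) (Dioph.add_dioph (hp _) h1))
  refine Dioph.ext (Dioph.lt_dioph hL hR) ?_
  intro v
  simp only [Set.mem_ofPred_eq, dec]
  have hci : (0 : ℚ) < (v (i, 2) : ℚ) + 1 := by positivity
  have hcj : (0 : ℚ) < (v (j, 2) : ℚ) + 1 := by positivity
  rw [div_lt_div_iff₀ hci hcj]
  have e : (v (i, 0) * (v (j, 2) + 1) + v (j, 1) * (v (i, 2) + 1)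
      < v (j, 0) * (v (i, 2) + 1) + v (i, 1) * (v (j, 2) + 1)) ↔
      ((v (i, 0) : ℚ) * ((v (j, 2) : ℚ) + 1) + (v (j, 1) : ℚ) * ((v (i, 2) : ℚ) + 1)
      < (v (j, 0) : ℚ) * ((v (i, 2) : ℚ) + 1) + (v (i, 1) : ℚ) * ((v (j, 2) : ℚ) + 1)) := by
    exact_mod_cast Iff.rfl
  refine e.trans ?_
  constructor
  · intro h
    linarith
  · intro h
    linarith

theorem Q2_inter {ι : Type} {S T : Set (ι → ℚ)} (hS : ZD S) (hT : ZD T) : ZD (S ∩ T) :=
  Dioph.inter hS hT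

theorem Q2_comp {ι κ : Type} {S : Set (ι → ℚ)} (hS : ZD S) (g : ι → κ) : ZD {x : κ → ℚ | (fun i => x (g i)) ∈ S} := by
  have h := Dioph.reindex_dioph (κ × Fin 3) (fun q : ι × Fin 3 => (g q.1, q.2)) hS
  exact h

end H79.MZ
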