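import Pool.Agent.H79.MZ.Q0

/-!
# T1: under Mazur's conjecture every Diophantine set is covered by finitely many connected subsets of its closure

`hS` gives `k, p`.  Let `e : ι ⊕ Fin k ≃ Fin M` (`M = card`), `q = rename e p`, `V = {r : Fin M → ℚ | eval r q = 0}`, `V' = closure (real image of V)`, `pr : (Fin M → ℝ) → (ι → ℝ)`, `pr y i = y (e (inl i))`
(continuous).  `S` is the image of `V` under the rational version of `pr` (`eval_rename`).  By Mazur's conjecture `K = (connectedComponentIn V' ·) '' V'` is finite; number its members and put `C j = pr '' K j`.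
* `C j` is preconnected: `isPreconnected_connectedComponentIn.image`;
* `C j ⊆ pr '' V' ⊆ closure (pr '' V) = closure (rl '' S)` (`connectedComponentIn_subset`, `image_closure_subset_closure_image`);
* if `x ∈ S`, let `r ∈ V` lie over `x`; its real point lies in `V'` (`subset_closure`) and in its own component (`mem_connectedComponentIn`).
-/

open MvPolynomial Sum

namespace H79.MZ

theorem T1_cover (hM : Mazur) {ι : Type} [Fintype ι] {S : Set (ι → ℚ)} (hS : QD S) :
    ∃ (N : ℕ) (C : Fin N → Set (ι → ℝ)), (∀ j, IsPreconnected (C j)) ∧ (∀ j, C j ⊆ closure (rl '' S)) ∧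
      ∀ x ∈ S, ∃ j, rl x ∈ C j := by
  classical
  obtain ⟨k, p, hp⟩ := hS
  set M : ℕ := Fintype.card (ι ⊕ Fin k) with hMdef
  let e : ι ⊕ Fin k ≃ Fin M := Fintype.equivFin _
  set q : MvPolynomial (Fin M) ℚ := rename e p with hq
  set V : Set (Fin M → ℚ) := {r | eval r q = 0} with hV
  set rr : (Fin M → ℚ) → (Fin M → ℝ) := fun r i => ((r i : ℚ) : ℝ) with hrr
  set V' : Set (Fin M → ℝ) := closure (rr '' V) with hV'
  have hfin : ((fun a => connectedComponentIn V' a) '' V').Finite := hM M q V' rfl
  let pr : (Fin M → ℝ) → (ι → ℝ) := fun y i => y (e (inl i))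
  have hpr : Continuous pr := continuous_pi fun i => continuous_apply _
  have hmap : ∀ r ∈ V, pr (rr r) ∈ rl '' S := by
    intro r hr
    refine ⟨fun i => r (e (inl i)), ?_, rfl⟩
    rw [hp]
    refine ⟨fun j => r (e (inr j)), ?_⟩
    have h1 : eval r q = 0 := hr
    rw [hq, eval_rename] at h1
    have e1 : r ∘ e = Sum.elim (fun i => r (e (inl i))) (fun j => r (e (inr j))) := by
      funext s
      rcases s with i | j <;> rfl
    rw [e1] at h1
    exact h1
  set F : Finset (Set (Fin M → ℝ)) := hfin.toFinset with hF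
  let en : Fin F.card ≃ F := F.equivFin.symm
  have hmem : ∀ j, ((en j : F) : Set (Fin M → ℝ)) ∈ ((fun a => connectedComponentIn V' a) '' V') :=
    fun j => hfin.mem_toFinset.1 (en j).2
  refine ⟨F.card, fun j => pr '' ((en j : F) : Set (Fin M → ℝ)), ?_, ?_, ?_⟩
  · intro j
    obtain ⟨a, ha, hae⟩ := hmem j
    show IsPreconnected (pr '' ((en j : F) : Set (Fin M → ℝ)))
    rw [← hae]
    exact isPreconnected_connectedComponentIn.image _ hpr.continuousOn
  · intro j
    obtain ⟨a, ha, hae⟩ := hmem j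
    show pr '' ((en j : F) : Set (Fin M → ℝ)) ⊆ _
    rw [← hae]
    rintro _ ⟨y, hy, rfl⟩
    have hy' : y ∈ closure (rr '' V) := connectedComponentIn_subset _ _ hy
    have h1 : pr y ∈ closure (pr '' (rr '' V)) :=
      image_closure_subset_closure_image hpr ⟨y, hy', rfl⟩
    refine closure_mono ?_ h1
    rintro _ ⟨_, ⟨r, hr, rfl⟩, rfl⟩
    exact hmap r hr
  · intro x hx
    obtain ⟨w, hw⟩ := (hp x).1 hx
    set r : Fin M → ℚ := fun i => Sum.elim x w (e.symm i) with hr
    have hrV : r ∈ V := by
      show eval r q = 0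
      rw [hq, eval_rename]
      have e1 : r ∘ e = Sum.elim x w := by
        funext s
        simp [hr]
      rw [e1]
      exact hw
    have hrV' : rr r ∈ V' := subset_closure ⟨r, hrV, rfl⟩
    have hc : connectedComponentIn V' (rr r) ∈ F :=
      hfin.mem_toFinset.2 ⟨rr r, hrV', rfl⟩
    refine ⟨en.symm ⟨_, hc⟩, ?_⟩
    show rl x ∈ pr '' ((en (en.symm ⟨_, hc⟩) : F) : Set (Fin M → ℝ))
    rw [Equiv.apply_symm_apply]
    refine ⟨rr r, mem_connectedComponentIn hrV', ?_⟩
    funext i
    show ((r (e (inl i)) : ℚ) : ℝ) = ((x i : ℚ) : ℝ)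
    rw [hr]
    simp

end H79.MZ
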